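import Mathlib
import Pool.Agent.Lib.MP_bc5265_an.Main

/-!
# Sampling numbers for small smoothness: definitions and specifications

Region `R_1`, `q ≤ 2`, `1/p < r < 1/2`: the order of the sampling numbers of `H^r_p` in `L_q`
is `m^{-r} (log m)^{d-1}`.
-/

set_option linter.unusedSectionVars false

open MeasureTheory Finset
open scoped ENNReal fwdDiff

namespace Pool.Agent.MP_bc5265.S

noncomputable section

/-- The order `m^{-r} (log m)^{d-1}`. -/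
def rate (d : ℕ) (r : ℝ) (m : ℕ) : ℝ := (m : ℝ) ^ (-r) * Real.log m ^ (d - 1)

/-- Level of the Haar index `k`: `0` for `k = 0`, `a + 1` for `2^a ≤ k < 2^(a+1)`. -/
def lv (k : ℕ) : ℕ := if k = 0 then 0 else Nat.log 2 k + 1

/-- Haar function `k` at the point `x` of the grid with `2^L` points. -/
def hg (L k x : ℕ) : ℝ :=
  if k = 0 then 1
  else if x / 2 ^ (L - Nat.log 2 k - 1) = 2 * (k - 2 ^ Nat.log 2 k) then
    Real.sqrt (2 ^ Nat.log 2 k)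
  else if x / 2 ^ (L - Nat.log 2 k - 1) = 2 * (k - 2 ^ Nat.log 2 k) + 1 then
    -Real.sqrt (2 ^ Nat.log 2 k)
  else 0

/-- The grid with `2^L` points in each direction; also the set of indices of Haar functions. -/
abbrev Gr (d L : ℕ) : Type := Fin d → Fin (2 ^ L)

variable {d L : ℕ}

/-- Tensor product of Haar functions on the grid (index `k`, point `x`). -/
def hh (k x : Gr d L) : ℝ := ∏ j, hg L (k j) (x j)

/-- Levels of an index. -/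
def lvs (k : Gr d L) : Fin d → ℕ := fun j => lv (k j)

/-- Total level. -/
def tot (s : Fin d → ℕ) : ℕ := ∑ j, s j

/-- Number of Haar functions of level `s`. -/
def Ns (s : Fin d → ℕ) : ℕ := ∏ j, 2 ^ (s j - 1)

/-- The set of levels with total level `l`. -/
def Lay (d l : ℕ) : Finset (Fin d → ℕ) :=
  (Fintype.piFinset fun _ : Fin d => range (l + 1)).filter fun s => tot s = l

/-- The function on the grid with Haar coefficients `c`. -/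
def fn (c : Gr d L → ℝ) (x : Gr d L) : ℝ := ∑ k, c k * hh k x

/-- Blocks of coefficients: `‖P_s F‖_p ≤ B 2^{-r|s|}` for all levels `s`. -/
def BlockBd (p r B : ℝ) (c : Gr d L → ℝ) : Prop :=
  ∀ s : Fin d → ℕ, ∑ k with lvs k = s, (Real.sqrt (Ns s) * |c k|) ^ p ≤
    (Ns s : ℝ) * (B * (2 : ℝ) ^ (-(r * tot s))) ^ p

/-- The cell of the grid containing a point of the torus. -/
def gx (L : ℕ) (x : Torus d) : Gr d L := kap (fun _ => L) x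

/-- Haar coefficients of a function on the torus. -/
def cf (g : Torus d → ℝ) (L : ℕ) (k : Gr d L) : ℝ := ∫ x, g x * hh k (gx L x) ∂(μT d)

/-- Mixed differences of first order in `L_p`. -/
def Good (p r B : ℝ) (g : C(Torus d, ℝ)) : Prop :=
  ∀ (e : Finset (Fin d)) (t : Fin d → ℝ),
    eLpNorm (mixedDiff 1 e t (g : Torus d → ℝ)) (ENNReal.ofReal p) (μT d) ≤
      ENNReal.ofReal (B * ∏ j ∈ e, |t j| ^ r)

/-! ### Specifications -/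

/-- BSS. Two-potential barrier argument of Batson, Spielman and Srivastava. -/
def SpecBSS : Prop :=
  ∀ (Ω ι κ : Type) [Fintype Ω] [Nonempty Ω] [Fintype ι] [DecidableEq ι] [Fintype κ]
    [DecidableEq κ] (y : Ω → ι → ℝ) (z : Ω → κ → ℝ) (a : κ → ℝ) (τ : ℝ) (m : ℕ),
    (∀ i j, ∑ ω, y ω i * y ω j = if i = j then (Fintype.card Ω : ℝ) else 0) →
    (∀ i j, ∑ ω, z ω i * z ω j = if i = j then (Fintype.card Ω : ℝ) * a i else 0) →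
    (∀ i, 0 ≤ a i) → (∀ i, a i ≤ 1) → ∑ i, a i ≤ τ → 4 * Fintype.card ι ≤ m → 1 ≤ m →
    ∃ (ω : Fin m → Ω) (t : Fin m → ℝ), (∀ i, 0 < t i) ∧
      (∀ c : ι → ℝ, (m / 2 : ℝ) * ∑ i, c i ^ 2 ≤ ∑ i, t i * (∑ j, c j * y (ω i) j) ^ 2) ∧
      (∀ c : κ → ℝ, ∑ i, t i * (∑ j, c j * z (ω i) j) ^ 2 ≤
        (4 * τ + 1 + 5 * m) * ∑ j, c j ^ 2)

/-- LS. Weighted least squares. -/
def SpecLS : Prop :=
  ∀ (ι : Type) [Fintype ι] (m : ℕ) (y : Fin m → ι → ℝ) (t : Fin m → ℝ) (b : ℝ), 0 < b →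
    (∀ i, 0 < t i) → (∀ c : ι → ℝ, b * ∑ j, c j ^ 2 ≤ ∑ i, t i * (∑ j, c j * y i j) ^ 2) →
    ∃ A : Fin m → ι → ℝ,
      (∀ (c : ι → ℝ) (k : ι), ∑ i, (∑ j, c j * y i j) * A i k = c k) ∧
      (∀ v : Fin m → ℝ, b * ∑ k, (∑ i, v i * A i k) ^ 2 ≤ ∑ i, t i * v i ^ 2)

/-- HAAR. The Haar functions on the grid. -/
def SpecHaar : Prop := ∀ (d L : ℕ),
  (∀ k k' : Gr d L, ∑ x, hh k x * hh k' x = if k = k' then (2 : ℝ) ^ (d * L) else 0) ∧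
  (∀ x x' : Gr d L, ∑ k, hh k x * hh k x' = if x = x' then (2 : ℝ) ^ (d * L) else 0) ∧
  (∀ (s : Fin d → ℕ) (x : Gr d L) (c : Gr d L → ℝ) (M : ℝ), 0 ≤ M →
    (∀ k, lvs k = s → Real.sqrt (Ns s) * |c k| ≤ M) → |∑ k with lvs k = s, c k * hh k x| ≤ M) ∧
  (∀ s : Fin d → ℕ, (univ.filter fun k : Gr d L => lvs k = s).card ≤ Ns s)

/-- CNT. Number of levels with total level `l`. -/
def SpecCnt : Prop := ∀ (d l : ℕ), 1 ≤ d →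
  (Lay d l).card ≤ (l + 1) ^ (d - 1) ∧ (∀ s : Fin d → ℕ, s ∈ Lay d l ↔ tot s = l) ∧
  (∀ s : Fin d → ℕ, Ns s ≤ 2 ^ tot s)

/-- SEL. Choice of the points and of the least squares method. `a` are the weights of the
layers. -/
def SpecSel : Prop := ∀ (d L m n : ℕ) (a : ℕ → ℝ), 1 ≤ d → 8 ≤ m →
  4 * ∑ l ∈ range (n + 1), (l + 1) ^ (d - 1) * 2 ^ l ≤ m →
  (∀ l, 0 < a l) → (∀ l, n < l → a l ≤ 1) →
  (∀ L', ∑ l ∈ Ioc n L', a l * ((l : ℝ) + 1) ^ (d - 1) * 2 ^ l ≤ m / 4) →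
  ∃ (x : Fin m → Gr d L) (t : Fin m → ℝ) (A : Fin m → Gr d L → ℝ),
    (∀ i, 0 < t i) ∧ (∑ i, t i ≤ 8 * m) ∧
    (∀ c : Gr d L → ℝ, (∀ k, tot (lvs k) ≤ n → c k = 0) →
      ∑ i, t i * fn c (x i) ^ 2 ≤ 8 * m * ∑ k, c k ^ 2 / a (tot (lvs k))) ∧
    (∀ i k, n < tot (lvs k) → A i k = 0) ∧
    (∀ c : Gr d L → ℝ, (∀ k, n < tot (lvs k) → c k = 0) → ∀ k, ∑ i, fn c (x i) * A i k = c k) ∧
    (∀ v : Fin m → ℝ, (m / 2 : ℝ) * ∑ k, (∑ i, v i * A i k) ^ 2 ≤ ∑ i, t i * v i ^ 2)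

/-- HOL. Hoelder inequalities for one block. -/
def SpecHol : Prop := ∀ (d L : ℕ) (p r : ℝ), 2 < p → ∀ c : Gr d L → ℝ, BlockBd p r 1 c →
  ∀ s : Fin d → ℕ,
    ∑ k with lvs k = s, c k ^ 2 ≤ ((2 : ℝ) ^ (-(r * tot s))) ^ 2 ∧
    ∀ lam : ℝ, 0 < lam →
      ∑ k with lvs k = s, (if lam < Real.sqrt (Ns s) * |c k| then c k ^ 2 else 0) ≤
        lam ^ (2 - p) * ((2 : ℝ) ^ (-(r * tot s))) ^ p

/-- Part of `c` of total level `l`. -/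
def part (l : ℕ) (c : Gr d L → ℝ) : Gr d L → ℝ := fun k => if tot (lvs k) = l then c k else 0

/-- LAYER. Estimates for one layer. -/
def SpecLayer : Prop := ∀ (d L m n l : ℕ) (a : ℕ → ℝ) (p r : ℝ) (x : Fin m → Gr d L)
  (t : Fin m → ℝ), 1 ≤ d → 1 ≤ m → 2 < p → n < l → (∀ l, 0 < a l) → (∀ i, 0 < t i) →
  (∑ i, t i ≤ 8 * m) →
  (∀ c : Gr d L → ℝ, (∀ k, tot (lvs k) ≤ n → c k = 0) →
      ∑ i, t i * fn c (x i) ^ 2 ≤ 8 * m * ∑ k, c k ^ 2 / a (tot (lvs k))) →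
  ∀ c : Gr d L → ℝ, BlockBd p r 1 c →
    (∑ i, t i * fn (part l c) (x i) ^ 2 ≤
      8 * m * (((l : ℝ) + 1) ^ (d - 1) * ((2 : ℝ) ^ (-(r * l))) ^ 2 / a l)) ∧
    (∀ lam : ℝ, 0 < lam → ∑ i, t i * fn (part l c) (x i) ^ 2 ≤
      16 * m * ((((l : ℝ) + 1) ^ (d - 1) * lam) ^ 2 +
        ((l : ℝ) + 1) ^ (d - 1) * (lam ^ (2 - p) * ((2 : ℝ) ^ (-(r * l))) ^ p) / a l))

/-- The weights of the layers. -/
def wt (d m l : ℕ) : ℝ :=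
  m / (16 * (((l : ℝ) + 1) ^ (d - 1) * 2 ^ l * (1 + |(l : ℝ) - Nat.log 2 m|) ^ 2))

/-- The bound for the `l`-th layer. -/
def bl (d : ℕ) (p r : ℝ) (m l : ℕ) : ℝ :=
  if l ≤ Nat.log 2 m then
    12 * (((l : ℝ) + 1) ^ (d - 1) * (1 + |(l : ℝ) - Nat.log 2 m|)) *
      (Real.sqrt (2 ^ l / m) * (2 : ℝ) ^ (-(r * l)))
  else
    17 * (((l : ℝ) + 1) ^ (d - 1) * (1 + |(l : ℝ) - Nat.log 2 m|)) *
      ((2 : ℝ) ^ (-(r * l)) * (2 : ℝ) ^ (((l : ℝ) - Nat.log 2 m) / p))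

/-- BL. From LAYER with the weights `wt` to `bl`. -/
def SpecBl : Prop := ∀ (d m l : ℕ) (p r : ℝ), 1 ≤ d → 1 ≤ m → 2 < p →
  (l ≤ Nat.log 2 m →
    8 * m * (((l : ℝ) + 1) ^ (d - 1) * ((2 : ℝ) ^ (-(r * l))) ^ 2 / wt d m l) ≤
      m * bl d p r m l ^ 2) ∧
  (Nat.log 2 m < l → ∃ lam : ℝ, 0 < lam ∧
    16 * m * ((((l : ℝ) + 1) ^ (d - 1) * lam) ^ 2 +
        ((l : ℝ) + 1) ^ (d - 1) * (lam ^ (2 - p) * ((2 : ℝ) ^ (-(r * l))) ^ p) / wt d m l) ≤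
      m * bl d p r m l ^ 2)

/-- NUM. Choice of `n` and summation over the layers. -/
def SpecNum : Prop := ∀ (d : ℕ) (p r : ℝ), 1 ≤ d → 2 < p → 1 / p < r → r < 1 / 2 →
  ∃ C : ℝ, 0 < C ∧ ∀ m : ℕ, 8 ≤ m → ∃ n : ℕ,
    4 * ∑ l ∈ range (n + 1), (l + 1) ^ (d - 1) * 2 ^ l ≤ m ∧
    (∀ l, n < l → wt d m l ≤ 1) ∧
    (∀ L', ∑ l ∈ Ioc n L', wt d m l * ((l : ℝ) + 1) ^ (d - 1) * 2 ^ l ≤ m / 4) ∧
    (∀ L', ∑ l ∈ Ioc n L', bl d p r m l ≤ C * rate d r m) ∧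
    (∀ L', ∑ l ∈ Ioc n L', ((l : ℝ) + 1) ^ (d - 1) * ((2 : ℝ) ^ (-(r * l))) ^ 2 ≤
      (C * rate d r m) ^ 2)

/-- CORE. The estimate for functions on the grid. -/
def SpecCore : Prop := ∀ (d : ℕ) (p r : ℝ), 1 ≤ d → 2 < p → 1 / p < r → r < 1 / 2 →
  ∃ C : ℝ, 0 < C ∧ ∀ m L : ℕ, 8 ≤ m → ∃ (x : Fin m → Gr d L) (A : Fin m → Gr d L → ℝ),
    (∀ c : Gr d L → ℝ, BlockBd p r 1 c →
      Real.sqrt (∑ k, (c k - ∑ i, fn c (x i) * A i k) ^ 2) ≤ C * rate d r m) ∧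
    (∀ (v : Fin m → ℝ) (M : ℝ), (∀ i, |v i| ≤ M) →
      Real.sqrt (∑ k, (∑ i, v i * A i k) ^ 2) ≤ C * M)

/-- MARCH. From differences of order `l` to differences of order 1 (Marchaud). -/
def SpecMarch : Prop := ∀ (𝕜 : Type) [RCLike 𝕜] (d l : ℕ) (r p : ℝ), 1 ≤ l → 0 < r → r < 1 →
  1 ≤ p → ∃ C : ℝ, 0 < C ∧ ∀ f ∈ HClass 𝕜 d l r (ENNReal.ofReal p),
    ∀ (e : Finset (Fin d)) (t : Fin d → ℝ),
      eLpNorm (mixedDiff 1 e t (f : Torus d → 𝕜)) (ENNReal.ofReal p) (μT d) ≤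
        ENNReal.ofReal (C * ∏ j ∈ e, |t j| ^ r)

/-- REIM. Real and imaginary parts. -/
def SpecReIm : Prop := ∀ (𝕜 : Type) [RCLike 𝕜] (d : ℕ) (p r B : ℝ) (f : C(Torus d, 𝕜)),
  (∀ (e : Finset (Fin d)) (t : Fin d → ℝ),
      eLpNorm (mixedDiff 1 e t (f : Torus d → 𝕜)) (ENNReal.ofReal p) (μT d) ≤
        ENNReal.ofReal (B * ∏ j ∈ e, |t j| ^ r)) →
  (∀ g : C(Torus d, ℝ), (∀ x, g x = RCLike.re (f x)) → Good p r B g) ∧
  (∀ g : C(Torus d, ℝ), (∀ x, g x = RCLike.im (f x)) → Good p r B g)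

/-- BLK. The Haar blocks of a function. -/
def SpecBlk : Prop := ∀ (d : ℕ) (p r : ℝ), 1 ≤ p → 0 < r →
  ∃ C : ℝ, 0 < C ∧ ∀ g : C(Torus d, ℝ), Good p r 1 g → ∀ L, BlockBd p r C (cf (g : Torus d → ℝ) L)

/-- APP. Approximation by the averages over the cells. -/
def SpecApp : Prop := ∀ (d : ℕ) (p r : ℝ), 1 ≤ p → 1 / p < r →
  ∃ ε : ℕ → ℝ, Filter.Tendsto ε Filter.atTop (nhds 0) ∧ ∀ g : C(Torus d, ℝ), Good p r 1 g →
    ∀ (L : ℕ) (x : Torus d), |g x - fn (cf (g : Torus d → ℝ) L) (gx L x)| ≤ ε L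

/-- PARS. Parseval on the torus for grid functions. -/
def SpecPars : Prop := ∀ (d L : ℕ) (c : Gr d L → ℝ),
  Measurable (fun x : Torus d => fn c (gx L x)) ∧
  eLpNorm (fun x : Torus d => fn c (gx L x)) 2 (μT d) = ENNReal.ofReal (Real.sqrt (∑ k, c k ^ 2))

/-- PTS. The grid points on the torus. -/
def SpecPts : Prop := ∀ (d L : ℕ) (ω : Gr d L), ∃ x : Torus d, gx L x = ω

/-- CTS. Approximation of grid functions by continuous functions. -/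
def SpecCts : Prop := ∀ (d L : ℕ) (c : Gr d L → ℝ) (η : ℝ), 0 < η → ∃ ψ : C(Torus d, ℝ),
  eLpNorm (fun x : Torus d => fn c (gx L x) - ψ x) 2 (μT d) ≤ ENNReal.ofReal η

/-- UP. The upper bound. -/
def SpecUp : Prop := ∀ (𝕜 : Type) [RCLike 𝕜] (d l : ℕ) (p r : ℝ), 1 ≤ d → 1 ≤ l → 2 < p →
  1 / p < r → r < 1 / 2 → ∃ C : ℝ, 0 < C ∧ ∀ m : ℕ, 2 ≤ m →
    samplingNumber m (HClass 𝕜 d l r (ENNReal.ofReal p)) 2 ≤ ENNReal.ofReal (C * rate d r m)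

/-- LOW. The lower bound (numerical integration). -/
def SpecLow : Prop := ∀ (𝕜 : Type) [RCLike 𝕜] (d l : ℕ) (r : ℝ), 1 ≤ d → 0 < r → r < l →
  ∃ c : ℝ, 0 < c ∧ ∀ m : ℕ, 2 ≤ m → ∀ x : Fin m → Torus d,
    ∃ f ∈ HClass 𝕜 d l r ⊤, (∀ i, f (x i) = 0) ∧
      ENNReal.ofReal (c * rate d r m) ≤ eLpNorm (f : Torus d → 𝕜) 1 (μT d)

end

end Pool.Agent.MP_bc5265.S
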