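import Mathlib
import Pool.Agent.Lib.MP_bc5265_an.S.Defs

/-!
# BLK: the Haar blocks of a function with bounded mixed differences
-/

set_option linter.unusedSectionVars false

open MeasureTheory Finset
open scoped ENNReal fwdDiff

namespace Pool.Agent.MP_bc5265.S

noncomputable section

namespace BlkM

variable {d L : ℕ}

/-- Half of the dyadic step. -/
def st (b : ℕ) : ℝ := 2 * Real.pi / 2 ^ b

lemma E_shift (b κ : ℕ) (hκ : κ + 1 < 2 ^ b) (y : Circ) :
    E b y = κ + 1 ↔ E b (y - ((st b : ℝ) : Circ)) = κ := by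
  rw [E_eq_iff, E_eq_iff]
  induction y using QuotientAddGroup.induction_on with
  | H v =>
  have hT : (0 : ℝ) < 2 * Real.pi := Real.two_pi_pos
  have hb : (0 : ℝ) < 2 ^ b := by positivity
  have h1 : uc ((v : Circ) - ((st b : ℝ) : Circ)) =
      Int.fract (v / (2 * Real.pi) - 1 / 2 ^ b) := by
    have h2 : ((v : Circ) - ((st b : ℝ) : Circ)) = ((v - st b : ℝ) : Circ) := rfl
    rw [h2, uc_coe]
    congr 1
    unfold st
    field_simp
  have h3 : uc (v : Circ) = Int.fract (v / (2 * Real.pi)) := rfl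
  show (0 ≤ (2 : ℝ) ^ b * uc (v : Circ) - _ ∧ (2 : ℝ) ^ b * uc (v : Circ) - _ < 1) ↔
    (0 ≤ (2 : ℝ) ^ b * uc ((v : Circ) - ((st b : ℝ) : Circ)) - _ ∧
      (2 : ℝ) ^ b * uc ((v : Circ) - ((st b : ℝ) : Circ)) - _ < 1)
  rw [h1, h3]
  set u := v / (2 * Real.pi)
  have hκ' : (κ : ℝ) + 1 + 1 ≤ 2 ^ b := by exact_mod_cast hκ
  have hk0 : (0 : ℝ) ≤ κ := by positivity
  have hinv : (2 : ℝ) ^ b * (1 / 2 ^ b) = 1 := by field_simp
  have hpos : (0 : ℝ) < 1 / 2 ^ b := by positivity
  push_cast
  constructor
  · rintro ⟨h4, h5⟩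
    have h6 : Int.fract (u - 1 / 2 ^ b) = Int.fract u - 1 / 2 ^ b := by
      rw [Int.fract_eq_iff]
      refine ⟨?_, ?_, ⟨⌊u⌋, ?_⟩⟩
      · by_contra h
        push Not at h
        have : (2 : ℝ) ^ b * (Int.fract u - 1 / 2 ^ b) < 0 := mul_neg_of_pos_of_neg hb h
        rw [mul_sub, hinv] at this
        linarith
      · have := Int.fract_lt_one u
        linarith
      · unfold Int.fract
        ring
    rw [h6, mul_sub, hinv]
    constructor <;> linarith
  · rintro ⟨h4, h5⟩
    have h6 : Int.fract u = Int.fract (u - 1 / 2 ^ b) + 1 / 2 ^ b := by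
      rw [Int.fract_eq_iff]
      refine ⟨?_, ?_, ⟨⌊u - 1 / 2 ^ b⌋, ?_⟩⟩
      · have := Int.fract_nonneg (u - 1 / 2 ^ b)
        positivity
      · by_contra h
        push Not at h
        have : (2 : ℝ) ^ b * 1 ≤ (2 : ℝ) ^ b * (Int.fract (u - 1 / 2 ^ b) + 1 / 2 ^ b) :=
          mul_le_mul_of_nonneg_left h hb.le
        rw [mul_add, hinv] at this
        linarith
      · unfold Int.fract
        ring
    rw [h6, mul_add, hinv]
    constructor <;> linarith

/-- Haar function as a difference. -/
lemma Ha_eq (a i : ℕ) (hi : i < 2 ^ a) (y : Circ) :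
    Ha a i y = chi (a + 1) (2 * i) y - chi (a + 1) (2 * i) (y - ((st (a + 1) : ℝ) : Circ)) := by
  have h : 2 * i + 1 < 2 ^ (a + 1) := by rw [pow_succ]; omega
  unfold Ha chi
  have h2 := E_shift (a + 1) (2 * i) h y
  by_cases h3 : E (a + 1) y = 2 * i
  · have h4 : E (a + 1) (y - ((st (a + 1) : ℝ) : Circ)) ≠ 2 * i := by
      intro h5
      have := h2.2 h5
      omega
    simp [h3, h4]
  · by_cases h4 : E (a + 1) y = 2 * i + 1
    · have h5 := h2.1 h4
      simp [h4, h5]
    · have h5 : E (a + 1) (y - ((st (a + 1) : ℝ) : Circ)) ≠ 2 * i := by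
        intro h5
        exact h4 (h2.2 h5)
      simp [h3, h4, h5]

lemma hg_eq (k : Fin (2 ^ L)) (y : Circ) (hk : (k : ℕ) ≠ 0) :
    hg L k (E L y) = Real.sqrt (2 ^ Nat.log 2 k) * Ha (Nat.log 2 k) (k - 2 ^ Nat.log 2 k) y := by
  have hlog : Nat.log 2 k + 1 ≤ L := by
    have h1 : Nat.log 2 k < L := Nat.log_lt_of_lt_pow hk k.2
    omega
  have h2 := E_div (Nat.log 2 k + 1) (L - Nat.log 2 k - 1) y
  have h3 : Nat.log 2 k + 1 + (L - Nat.log 2 k - 1) = L := by omega
  rw [h3] at h2
  unfold hg Ha
  rw [if_neg hk, h2]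
  split_ifs <;> simp

lemma log_bd (k : Fin (2 ^ L)) :
    (k : ℕ) - 2 ^ Nat.log 2 k < 2 ^ Nat.log 2 k := by
  have h1 : (k : ℕ) < 2 ^ (Nat.log 2 k + 1) := Nat.lt_pow_succ_log_self (by norm_num) _
  rw [pow_succ] at h1
  omega

/-- One-dimensional weights. -/
def w (k : ℕ) (y : Circ) : ℝ :=
  if k = 0 then 1 else chi (Nat.log 2 k + 1) (2 * (k - 2 ^ Nat.log 2 k)) y

lemma w_nonneg (k : ℕ) (y : Circ) : 0 ≤ w k y := by
  unfold w
  split_ifs
  · norm_num
  · exact chi_nonneg _ _ _

lemma w_le_one (k : ℕ) (y : Circ) : w k y ≤ 1 := by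
  unfold w
  split_ifs
  · norm_num
  · exact chi_le_one _ _ _

lemma w_cases (k : ℕ) (y : Circ) : w k y = 0 ∨ w k y = 1 := by
  unfold w chi
  split_ifs <;> simp

lemma measurable_w (k : ℕ) : Measurable (w k) := by
  unfold w
  split_ifs
  · exact measurable_const
  · exact measurable_chi _ _

lemma hg_eq_w (k : Fin (2 ^ L)) (y : Circ) :
    hg L k (E L y) = Real.sqrt (2 ^ (lv k - 1)) *
      (if lv k = 0 then w k y else w k y - w k (y - ((st (lv k) : ℝ) : Circ))) := by
  by_cases hk : (k : ℕ) = 0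
  · have h1 : lv k = 0 := by unfold lv; rw [if_pos hk]
    rw [h1, if_pos rfl]
    unfold hg w
    rw [if_pos hk, if_pos hk]
    simp
  · have h1 : lv k = Nat.log 2 k + 1 := by unfold lv; rw [if_neg hk]
    rw [hg_eq k y hk, h1, if_neg (by omega), Ha_eq _ _ (log_bd k)]
    unfold w
    rw [if_neg hk, if_neg hk]
    simp

lemma integral_w (k : Fin (2 ^ L)) : ∫ y, w k y ∂ν = 1 / 2 ^ lv k := by
  unfold w
  by_cases hk : (k : ℕ) = 0
  · have h1 : lv k = 0 := by unfold lv; rw [if_pos hk]
    rw [h1]
    simp [hk]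
  · have h1 : lv k = Nat.log 2 k + 1 := by unfold lv; rw [if_neg hk]
    simp only [hk, if_false]
    rw [integral_chi, h1]
    have := log_bd k
    rw [pow_succ]
    omega

/-- Product of the weights. -/
def W (k : Gr d L) (x : Torus d) : ℝ := ∏ j, w (k j) (x j)

lemma W_nonneg (k : Gr d L) (x : Torus d) : 0 ≤ W k x := Finset.prod_nonneg fun _ _ => w_nonneg _ _

lemma W_cases (k : Gr d L) (x : Torus d) : W k x = 0 ∨ W k x = 1 := by
  unfold W
  by_cases h : ∀ j, w (k j) (x j) = 1
  · right
    exact Finset.prod_eq_one fun j _ => h j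
  · left
    push Not at h
    obtain ⟨j, hj⟩ := h
    exact Finset.prod_eq_zero (Finset.mem_univ j) ((w_cases _ _).resolve_right hj)

lemma measurable_W (k : Gr d L) : Measurable (W k) := by
  unfold W
  exact Finset.measurable_prod _ fun j _ => (measurable_w _).comp (measurable_pi_apply j)

lemma integral_W (k : Gr d L) : ∫ x, W k x ∂(μT d) = 1 / 2 ^ tot (lvs k) := by
  unfold W μT
  rw [integral_fintype_prod_eq_prod (fun j (y : Circ) => w (k j) y)]
  unfold tot lvs
  rw [← Finset.prod_pow_eq_pow_sum, one_div, ← Finset.prod_inv_distrib]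
  refine Finset.prod_congr rfl fun j _ => ?_
  rw [← one_div]
  exact integral_w _

/-- The weights of different indices of the same level have disjoint supports. -/
lemma W_disj (k k' : Gr d L) (hl : lvs k = lvs k') (x : Torus d) (h : W k x = 1)
    (h' : W k' x = 1) : k = k' := by
  funext j
  have h1 : ∀ (k : Gr d L), W k x = 1 → w (k j) (x j) = 1 := by
    intro k hk
    rcases w_cases (k j) (x j) with h0 | h1
    · exfalso
      have : W k x = 0 := Finset.prod_eq_zero (Finset.mem_univ j) h0
      rw [this] at hk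
      norm_num at hk
    · exact h1
  have e1 := h1 k h
  have e2 := h1 k' h'
  have hlj : lv (k j) = lv (k' j) := congrFun hl j
  apply Fin.ext
  unfold w at e1 e2
  unfold lv at hlj
  by_cases hk : (k j : ℕ) = 0
  · by_cases hk' : (k' j : ℕ) = 0
    · rw [hk, hk']
    · rw [if_pos hk, if_neg hk'] at hlj
      omega
  · by_cases hk' : (k' j : ℕ) = 0
    · rw [if_neg hk, if_pos hk'] at hlj
      omega
    · rw [if_neg hk] at e1
      rw [if_neg hk'] at e2
      rw [if_neg hk, if_neg hk'] at hlj
      have hlog : Nat.log 2 (k j) = Nat.log 2 (k' j) := by omega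
      unfold chi at e1 e2
      have e3 : E (Nat.log 2 (k j) + 1) (x j) = 2 * ((k j : ℕ) - 2 ^ Nat.log 2 (k j)) := by
        by_contra hcon
        rw [if_neg hcon] at e1
        norm_num at e1
      have e4 : E (Nat.log 2 (k' j) + 1) (x j) = 2 * ((k' j : ℕ) - 2 ^ Nat.log 2 (k' j)) := by
        by_contra hcon
        rw [if_neg hcon] at e2
        norm_num at e2
      rw [hlog] at e3
      have e5 : 2 ^ Nat.log 2 (k j) ≤ (k j : ℕ) := Nat.pow_log_le_self 2 hk
      have e6 : 2 ^ Nat.log 2 (k' j) ≤ (k' j : ℕ) := Nat.pow_log_le_self 2 hk'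
      rw [hlog] at e5
      omega

lemma sum_W_le (s : Fin d → ℕ) (x : Torus d) :
    ∑ k : Gr d L with lvs k = s, W k x ≤ 1 := by
  classical
  by_cases h : ∃ k : Gr d L, lvs k = s ∧ W k x = 1
  · obtain ⟨k, hk, hk1⟩ := h
    rw [Finset.sum_eq_single_of_mem k (Finset.mem_filter.2 ⟨Finset.mem_univ _, hk⟩)]
    · exact hk1.le
    · intro k' hk' hne
      rcases W_cases k' x with h0 | h1
      · exact h0
      · exact absurd (W_disj k' k ((Finset.mem_filter.1 hk').2.trans hk.symm) x h1 hk1) hne
  · push Not at h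
    rw [Finset.sum_eq_zero]
    · norm_num
    · intro k hk
      exact (W_cases k x).resolve_right (h k (Finset.mem_filter.1 hk).2)

/-! ### Summation by parts -/

lemma continuous_diff1 (j : Fin d) (t : ℝ) (f : Torus d → ℝ) (hf : Continuous f) :
    Continuous (diff 1 j t f) := by
  unfold diff
  rw [Function.iterate_one]
  exact (hf.comp (continuous_id.add continuous_const)).sub hf

lemma continuous_foldr (t : Fin d → ℝ) (f : Torus d → ℝ) (hf : Continuous f)
    (Ls : List (Fin d)) : Continuous (Ls.foldr (fun j g => diff 1 j (t j) g) f) := by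
  induction Ls with
  | nil => exact hf
  | cons j Ls ih => exact continuous_diff1 _ _ _ ih

lemma integrable_mul (f : Torus d → ℝ) (hf : Continuous f) (V : Torus d → ℝ) (hV : Measurable V)
    (M : ℝ) (hM : ∀ x, |V x| ≤ M) : Integrable (fun x => f x * V x) (μT d) := by
  obtain ⟨B, hB⟩ := isCompact_univ.exists_bound_of_continuousOn (f := f) hf.continuousOn
  have hM0 : 0 ≤ M := (abs_nonneg _).trans (hM 0)
  refine Integrable.of_bound (hf.measurable.mul hV).aestronglyMeasurable (B * M) ?_
  filter_upwards with x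
  rw [norm_mul]
  exact mul_le_mul (hB x (Set.mem_univ _)) (hM x) (norm_nonneg _)
    ((norm_nonneg _).trans (hB x (Set.mem_univ _)))

lemma prod_bd (v : Fin d → Circ → ℝ) (M : ℝ) (hv : ∀ j y, |v j y| ≤ M)
    (x : Torus d) : |∏ i, v i (x i)| ≤ M ^ d := by
  rw [Finset.abs_prod]
  refine (Finset.prod_le_prod (fun _ _ => abs_nonneg _) fun i _ => hv i (x i)).trans ?_
  simp

lemma ibp (t : Fin d → ℝ) (g : Torus d → ℝ) (hg : Continuous g) : ∀ (Ls : List (Fin d)),
    Ls.Nodup → ∀ (v : Fin d → Circ → ℝ), (∀ j, Measurable (v j)) →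
    (∃ M, 1 ≤ M ∧ ∀ j y, |v j y| ≤ M) →
    ∫ x, (Ls.foldr (fun j g => diff 1 j (t j) g) g) x * ∏ i, v i (x i) ∂(μT d) =
      (-1) ^ Ls.length * ∫ x, g x * ∏ i, (if i ∈ Ls then
        (fun y => v i y - v i (y - ((t i : ℝ) : Circ))) else v i) (x i) ∂(μT d) := by
  classical
  intro Ls
  induction Ls with
  | nil => intro _ v _ _; simp
  | cons j Ls ih =>
    intro hnd v hv hM
    rw [List.nodup_cons] at hnd
    obtain ⟨M, hM1, hM⟩ := hM
    set F := Ls.foldr (fun j g => diff 1 j (t j) g) g with hF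
    have hFc : Continuous F := continuous_foldr t g hg Ls
    let a : Torus d := Pi.single j ((t j : ℝ) : Circ)
    let v' : Fin d → Circ → ℝ := Function.update v j (fun y => v j y - v j (y - ((t j : ℝ) : Circ)))
    have hv'm : ∀ i, Measurable (v' i) := by
      intro i
      by_cases hij : i = j
      · subst hij
        simp only [v', Function.update_self]
        exact (hv i).sub ((hv i).comp (measurable_id.sub_const _))
      · simp only [v', Function.update_of_ne hij]
        exact hv i
    have hv'b : ∀ i y, |v' i y| ≤ 2 * M := by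
      intro i y
      by_cases hij : i = j
      · subst hij
        simp only [v', Function.update_self]
        refine (abs_sub _ _).trans ?_
        linarith [hM i y, hM i (y - ((t i : ℝ) : Circ))]
      · simp only [v', Function.update_of_ne hij]
        linarith [hM i y, abs_nonneg (v i y)]
    have hVm : ∀ v : Fin d → Circ → ℝ, (∀ i, Measurable (v i)) →
        Measurable (fun x : Torus d => ∏ i, v i (x i)) := fun v hv =>
      Finset.measurable_prod _ fun i _ => (hv i).comp (measurable_pi_apply i)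
    have h1 : ∫ x, (diff 1 j (t j) F) x * ∏ i, v i (x i) ∂(μT d) =
        - ∫ x, F x * ∏ i, v' i (x i) ∂(μT d) := by
      have e1 : ∫ x, F (x + a) * ∏ i, v i (x i) ∂(μT d) =
          ∫ x, F x * ∏ i, v i ((x - a) i) ∂(μT d) := by
        rw [← integral_sub_right_eq_self (μ := μT d)
          (fun x => F (x + a) * ∏ i, v i (x i)) a]
        simp only [sub_add_cancel]
      have e2 : ∀ x : Torus d, (diff 1 j (t j) F) x * ∏ i, v i (x i) =
          F (x + a) * ∏ i, v i (x i) - F x * ∏ i, v i (x i) := by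
        intro x
        unfold diff
        rw [Function.iterate_one, fwdDiff]
        ring
      have e3 : ∀ x : Torus d, F x * ∏ i, v' i (x i) =
          F x * ∏ i, v i (x i) - F x * ∏ i, v i ((x - a) i) := by
        intro x
        rw [← mul_sub]
        congr 1
        rw [← Finset.mul_prod_erase Finset.univ _ (Finset.mem_univ j),
          ← Finset.mul_prod_erase Finset.univ (fun i => v i (x i)) (Finset.mem_univ j),
          ← Finset.mul_prod_erase Finset.univ (fun i => v i ((x - a) i)) (Finset.mem_univ j)]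
        have h2 : ∏ i ∈ Finset.univ.erase j, v' i (x i) =
            ∏ i ∈ Finset.univ.erase j, v i (x i) := by
          refine Finset.prod_congr rfl fun i hi => ?_
          simp only [v', Function.update_of_ne (Finset.mem_erase.1 hi).1]
        have h3 : ∏ i ∈ Finset.univ.erase j, v i ((x - a) i) =
            ∏ i ∈ Finset.univ.erase j, v i (x i) := by
          refine Finset.prod_congr rfl fun i hi => ?_
          have : i ≠ j := (Finset.mem_erase.1 hi).1
          simp [a, this]
        rw [h2, h3]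
        simp only [v', Function.update_self, a, Pi.sub_apply, Pi.single_eq_same]
        ring
      simp only [e2, e3]
      rw [integral_sub, integral_sub, e1]
      · ring
      · exact integrable_mul F hFc _ (hVm v hv) (M ^ d) (prod_bd v M hM)
      · refine integrable_mul F hFc _ ?_ (M ^ d) (fun x => prod_bd v M hM (x - a))
        exact (hVm v hv).comp (measurable_id.sub_const a)
      · refine integrable_mul (fun x => F (x + a)) ?_ _ (hVm v hv) (M ^ d) (prod_bd v M hM)
        exact hFc.comp (continuous_id.add continuous_const)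
      · exact integrable_mul F hFc _ (hVm v hv) (M ^ d) (prod_bd v M hM)
    rw [List.foldr_cons, h1, ih hnd.2 v' hv'm ⟨2 * M, by linarith, hv'b⟩, List.length_cons]
    rw [pow_succ]
    have h4 : ∀ x : Torus d, (∏ i, (if i ∈ Ls then
        (fun y => v' i y - v' i (y - ((t i : ℝ) : Circ))) else v' i) (x i)) =
        ∏ i, (if i ∈ j :: Ls then
        (fun y => v i y - v i (y - ((t i : ℝ) : Circ))) else v i) (x i) := by
      intro x
      refine Finset.prod_congr rfl fun i _ => ?_
      by_cases hij : i = j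
      · subst hij
        simp [hnd.1, v']
      · simp [hij, v']
    simp only [h4]
    ring

/-! ### Hölder -/

lemma jensen {X : Type*} [MeasurableSpace X] (μ : Measure X) [IsFiniteMeasure μ] (p : ℝ)
    (hp : 1 ≤ p) (G : X → ℝ) (hG : Measurable G) (M : ℝ) (hM : ∀ x, |G x| ≤ M) :
    |∫ x, G x ∂μ| ^ p ≤ (μ.real Set.univ) ^ (p - 1) * ∫ x, |G x| ^ p ∂μ := by
  have hp0 : 0 < p := by linarith
  by_cases h0 : μ = 0
  · subst h0
    simp [Real.zero_rpow hp0.ne']
  · have : NeZero μ := ⟨h0⟩
    have hi1 : Integrable (fun x => |G x|) μ := by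
      refine Integrable.of_bound (measurable_norm.comp hG).aestronglyMeasurable M ?_
      filter_upwards with x
      simpa using hM x
    have hi2 : Integrable (fun x => |G x| ^ p) μ := by
      refine Integrable.of_bound ((measurable_norm.comp hG).pow_const p).aestronglyMeasurable
        (M ^ p) ?_
      filter_upwards with x
      rw [Real.norm_of_nonneg (by positivity)]
      exact Real.rpow_le_rpow (abs_nonneg _) (hM x) hp0.le
    have h1 := (convexOn_rpow hp).map_average_le (μ := μ) (f := fun x => |G x|)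
      (fun x _ => (Real.continuousAt_rpow_const _ _ (Or.inr hp0.le)).continuousWithinAt)
      isClosed_Ici (by filter_upwards with x; exact abs_nonneg (G x)) hi1 hi2
    rw [average_eq, average_eq, smul_eq_mul, smul_eq_mul] at h1
    have hm : 0 < μ.real Set.univ := by
      rw [measureReal_def]
      exact ENNReal.toReal_pos (by simpa using h0) (measure_ne_top _ _)
    set m := μ.real Set.univ
    have hI : 0 ≤ ∫ x, |G x| ∂μ := integral_nonneg fun x => abs_nonneg _
    rw [Real.mul_rpow (by positivity) hI] at h1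
    have h2 : |∫ x, G x ∂μ| ^ p ≤ (∫ x, |G x| ∂μ) ^ p :=
      Real.rpow_le_rpow (abs_nonneg _) (abs_integral_le_integral_abs) hp0.le
    refine h2.trans ?_
    have h3 : m ^ p * ((m⁻¹) ^ p * (∫ x, |G x| ∂μ) ^ p) = (∫ x, |G x| ∂μ) ^ p := by
      rw [← mul_assoc, ← Real.mul_rpow hm.le (by positivity), mul_inv_cancel₀ hm.ne',
        Real.one_rpow, one_mul]
    rw [← h3]
    refine (mul_le_mul_of_nonneg_left h1 (by positivity)).trans (le_of_eq ?_)
    rw [Real.rpow_sub hm, Real.rpow_one]
    field_simp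

lemma holder (p : ℝ) (hp : 1 ≤ p) (G : Torus d → ℝ) (hG : Measurable G) (M : ℝ)
    (hM : ∀ x, |G x| ≤ M) (k : Gr d L) :
    |∫ x, G x * W k x ∂(μT d)| ^ p ≤
      (1 / 2 ^ tot (lvs k)) ^ (p - 1) * ∫ x, |G x| ^ p * W k x ∂(μT d) := by
  let b : Set (Torus d) := W k ⁻¹' {1}
  have hb : MeasurableSet b := measurable_W k (measurableSet_singleton 1)
  have hind : ∀ F : Torus d → ℝ, ∫ x, F x * W k x ∂(μT d) = ∫ x in b, F x ∂(μT d) := by
    classical
    intro F
    rw [← integral_indicator hb]
    congr 1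
    funext x
    rw [Set.indicator_apply]
    split_ifs with h
    · have : W k x = 1 := h
      rw [this, mul_one]
    · rcases W_cases k x with h0 | h1
      · rw [h0, mul_zero]
      · exact absurd h1 h
  have h1 := jensen ((μT d).restrict b) p hp G hG M hM
  rw [hind, hind]
  have h2 : ((μT d).restrict b).real Set.univ = 1 / 2 ^ tot (lvs k) := by
    rw [← integral_W k]
    have h3 := hind (fun _ => 1)
    simp only [one_mul] at h3
    rw [h3]
    simp
  rw [h2] at h1
  exact h1

lemma cf_eq (g : C(Torus d, ℝ)) (k : Gr d L) :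
    Real.sqrt (Ns (lvs k)) * |cf (g : Torus d → ℝ) L k| =
      Ns (lvs k) * |∫ x, mixedDiff 1 (univ.filter fun j => lvs k j ≠ 0) (fun j => st (lvs k j))
        (g : Torus d → ℝ) x * W k x ∂(μT d)| := by
  have hN : (0 : ℝ) ≤ Ns (lvs k) := by positivity
  have h1 := ibp (fun j => st (lvs k j)) (g : Torus d → ℝ) g.continuous
    ((univ.filter fun j => lvs k j ≠ 0).sort (· ≤ ·)) (Finset.sort_nodup _ _)
    (fun j => w (k j)) (fun j => measurable_w _) ⟨1, le_rfl, fun j y => by
      rw [abs_of_nonneg (w_nonneg _ _)]; exact w_le_one _ _⟩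
  have h2 : ∫ x, mixedDiff 1 (univ.filter fun j => lvs k j ≠ 0) (fun j => st (lvs k j))
        (g : Torus d → ℝ) x * W k x ∂(μT d) =
      ∫ x, (((univ.filter fun j => lvs k j ≠ 0).sort (· ≤ ·)).foldr
        (fun j g => diff 1 j ((fun j => st (lvs k j)) j) g) (g : Torus d → ℝ)) x *
        ∏ i, (fun j => w (k j)) i (x i) ∂(μT d) := rfl
  rw [h2, h1, abs_mul, abs_pow, abs_neg, abs_one, one_pow, one_mul]
  have h3 : cf (g : Torus d → ℝ) L k = Real.sqrt (Ns (lvs k)) *
      ∫ x, g x * ∏ i, (if i ∈ (univ.filter fun j => lvs k j ≠ 0).sort (· ≤ ·) then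
        (fun y => (fun j => w (k j)) i y - (fun j => w (k j)) i
          (y - (((fun j => st (lvs k j)) i : ℝ) : Circ))) else (fun j => w (k j)) i) (x i)
        ∂(μT d) := by
    rw [← integral_const_mul]
    unfold cf
    congr 1
    funext x
    have h4 : hh k (gx L x) = Real.sqrt (Ns (lvs k)) *
        ∏ i, (if i ∈ (univ.filter fun j => lvs k j ≠ 0).sort (· ≤ ·) then
        (fun y => (fun j => w (k j)) i y - (fun j => w (k j)) i
          (y - (((fun j => st (lvs k j)) i : ℝ) : Circ))) else (fun j => w (k j)) i) (x i) := by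
      unfold hh
      have h5 : Real.sqrt (Ns (lvs k)) = ∏ j, Real.sqrt (2 ^ (lv (k j) - 1)) := by
        rw [← Real.sqrt_prod _ (fun _ _ => by positivity)]
        congr 1
        unfold Ns lvs
        push_cast
        rfl
      rw [h5, ← Finset.prod_mul_distrib]
      refine Finset.prod_congr rfl fun j _ => ?_
      have h6 : (gx L x j : ℕ) = E L (x j) := rfl
      rw [h6, hg_eq_w]
      congr 1
      simp only [Finset.mem_sort, Finset.mem_filter, Finset.mem_univ, true_and]
      unfold lvs
      by_cases hj : lv (k j) = 0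
      · simp [hj]
      · simp [hj]
    rw [h4]
    ring
  rw [h3, abs_mul, abs_of_nonneg (Real.sqrt_nonneg _), ← mul_assoc, Real.mul_self_sqrt hN]

end BlkM

open BlkM

theorem specBlk : SpecBlk := by
  intro d p r hp hr
  have hpi : (1 : ℝ) ≤ 2 * Real.pi := by linarith [Real.pi_gt_three]
  have hpi0 : (0 : ℝ) < 2 * Real.pi := by linarith
  have hp0 : 0 < p := by linarith
  refine ⟨((2 * Real.pi) ^ r) ^ d, by positivity, ?_⟩
  intro g hg L s
  classical
  set e : Finset (Fin d) := univ.filter fun j => s j ≠ 0 with he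
  set t : Fin d → ℝ := fun j => st (s j) with ht
  set G : Torus d → ℝ := mixedDiff 1 e t (g : Torus d → ℝ) with hG
  have hGc : Continuous G := by
    rw [hG]
    unfold mixedDiff
    exact continuous_foldr t _ g.continuous _
  obtain ⟨M, hM⟩ := isCompact_univ.exists_bound_of_continuousOn (f := G) hGc.continuousOn
  have hM' : ∀ x, |G x| ≤ M := fun x => hM x (Set.mem_univ _)
  have hM0 : 0 ≤ M := (abs_nonneg _).trans (hM' 0)
  set N : ℝ := (Ns s : ℝ) with hN
  have hNpos : 0 < N := by
    rw [hN]
    have : 0 < Ns s := Finset.prod_pos fun _ _ => by positivity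
    exact_mod_cast this
  have hN2 : 1 / (2 : ℝ) ^ tot s ≤ 1 / N := by
    refine one_div_le_one_div_of_le hNpos ?_
    rw [hN]
    unfold Ns tot
    push_cast
    rw [← Finset.prod_pow_eq_pow_sum]
    refine Finset.prod_le_prod (fun _ _ => by positivity) fun j _ => ?_
    exact pow_le_pow_right₀ (by norm_num) (Nat.sub_le _ _)
  -- one coefficient
  have h1 : ∀ k : Gr d L, lvs k = s → (Real.sqrt (Ns s) * |cf (g : Torus d → ℝ) L k|) ^ p ≤
      N * ∫ x, |G x| ^ p * W k x ∂(μT d) := by
    intro k hk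
    have h2 := cf_eq g k
    rw [hk] at h2
    have h3 : mixedDiff 1 (univ.filter fun j => s j ≠ 0) (fun j => st (s j))
        (g : Torus d → ℝ) = G := rfl
    rw [h3] at h2
    rw [h2, Real.mul_rpow hNpos.le (abs_nonneg _)]
    have h4 := holder p hp G hGc.measurable M hM' k
    rw [hk] at h4
    have hI0 : 0 ≤ ∫ x, |G x| ^ p * W k x ∂(μT d) :=
      integral_nonneg fun x => mul_nonneg (by positivity) (W_nonneg _ _)
    have h5 : ((1 : ℝ) / 2 ^ tot s) ^ (p - 1) ≤ (1 / N) ^ (p - 1) :=
      Real.rpow_le_rpow (by positivity) hN2 (by linarith)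
    calc N ^ p * |∫ x, G x * W k x ∂(μT d)| ^ p
        ≤ N ^ p * ((1 / N) ^ (p - 1) * ∫ x, |G x| ^ p * W k x ∂(μT d)) := by
          refine mul_le_mul_of_nonneg_left ?_ (by positivity)
          exact h4.trans (mul_le_mul_of_nonneg_right h5 hI0)
      _ = (N ^ p * (1 / N) ^ (p - 1)) * ∫ x, |G x| ^ p * W k x ∂(μT d) := by ring
      _ = N * ∫ x, |G x| ^ p * W k x ∂(μT d) := by
          congr 1
          rw [one_div, Real.inv_rpow hNpos.le, ← Real.rpow_neg hNpos.le, ← Real.rpow_add hNpos]
          have : p + -(p - 1) = 1 := by ring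
          rw [this, Real.rpow_one]
  -- sum over the indices of level s
  have hint : ∀ k : Gr d L, Integrable (fun x => |G x| ^ p * W k x) (μT d) := by
    intro k
    refine Integrable.of_bound (((measurable_norm.comp hGc.measurable).pow_const p).mul
      (measurable_W k)).aestronglyMeasurable (M ^ p) ?_
    filter_upwards with x
    rw [Real.norm_of_nonneg (mul_nonneg (by positivity) (W_nonneg _ _))]
    have hw1 : W k x ≤ 1 := by rcases W_cases k x with h | h <;> (rw [h]; try norm_num)
    exact (mul_le_of_le_one_right (by positivity) hw1).trans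
      (Real.rpow_le_rpow (abs_nonneg _) (hM' x) hp0.le)
  have hintG : Integrable (fun x => |G x| ^ p) (μT d) := by
    refine Integrable.of_bound ((measurable_norm.comp hGc.measurable).pow_const
      p).aestronglyMeasurable (M ^ p) ?_
    filter_upwards with x
    rw [Real.norm_of_nonneg (by positivity)]
    exact Real.rpow_le_rpow (abs_nonneg _) (hM' x) hp0.le
  have h2 : ∑ k : Gr d L with lvs k = s, (Real.sqrt (Ns s) * |cf (g : Torus d → ℝ) L k|) ^ p ≤
      N * ∫ x, |G x| ^ p ∂(μT d) := by
    calc ∑ k : Gr d L with lvs k = s, (Real.sqrt (Ns s) * |cf (g : Torus d → ℝ) L k|) ^ p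
        ≤ ∑ k : Gr d L with lvs k = s, N * ∫ x, |G x| ^ p * W k x ∂(μT d) :=
          Finset.sum_le_sum fun k hk => h1 k (Finset.mem_filter.1 hk).2
      _ = N * ∫ x, ∑ k : Gr d L with lvs k = s, |G x| ^ p * W k x ∂(μT d) := by
          rw [← Finset.mul_sum, integral_finsetSum _ fun k _ => hint k]
      _ ≤ N * ∫ x, |G x| ^ p ∂(μT d) := by
          refine mul_le_mul_of_nonneg_left ?_ hNpos.le
          refine integral_mono (integrable_finsetSum _ fun k _ => hint k) hintG fun x => ?_
          simp only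
          rw [← Finset.mul_sum]
          exact mul_le_of_le_one_right (by positivity) (sum_W_le s x)
  refine h2.trans (mul_le_mul_of_nonneg_left ?_ hNpos.le)
  -- the norm
  have hmem : MemLp G (ENNReal.ofReal p) (μT d) := by
    refine MemLp.of_bound hGc.aestronglyMeasurable M ?_
    filter_upwards with x
    exact hM' x
  have h3 := hg e t
  have h4 : eLpNorm G (ENNReal.ofReal p) (μT d) = ENNReal.ofReal
      ((∫ x, |G x| ^ p ∂(μT d)) ^ (p⁻¹)) := by
    rw [hmem.eLpNorm_eq_integral_rpow_norm (by simpa using hp0) ENNReal.ofReal_ne_top,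
      ENNReal.toReal_ofReal hp0.le]
    rfl
  have hprod : ∏ j ∈ e, |t j| ^ r ≤ ((2 * Real.pi) ^ r) ^ d * 2 ^ (-(r * tot s)) := by
    have e1 : ∀ j, |t j| ^ r = (2 * Real.pi) ^ r * (2 : ℝ) ^ (-(r * s j)) := by
      intro j
      have e2 : t j = 2 * Real.pi * (2 : ℝ) ^ (-(s j : ℝ)) := by
        rw [ht]
        simp only [st]
        rw [Real.rpow_neg (by norm_num), Real.rpow_natCast]
        rfl
      rw [e2, abs_of_nonneg (by positivity), Real.mul_rpow hpi0.le (by positivity),
        ← Real.rpow_mul (by norm_num)]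
      congr 2
      ring
    have e3 : (2 : ℝ) ^ (-(r * tot s)) = ∏ j, (2 : ℝ) ^ (-(r * s j)) := by
      rw [← Real.rpow_sum_of_pos (by norm_num : (0 : ℝ) < 2)]
      congr 1
      unfold tot
      push_cast
      rw [Finset.mul_sum, Finset.sum_neg_distrib]
    have e4 : ((2 * Real.pi) ^ r) ^ d * (2 : ℝ) ^ (-(r * tot s)) =
        ∏ j, ((2 * Real.pi) ^ r * (2 : ℝ) ^ (-(r * s j))) := by
      rw [Finset.prod_mul_distrib, ← e3]
      simp
    rw [e4, he, Finset.prod_filter]
    refine Finset.prod_le_prod (fun j _ => ?_) fun j _ => ?_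
    · split_ifs <;> positivity
    · split_ifs with hj
      · exact (e1 j).le
      · have : s j = 0 := by simpa using hj
        rw [this]
        simp only [Nat.cast_zero, mul_zero, neg_zero, Real.rpow_zero, mul_one]
        exact Real.one_le_rpow hpi hr.le
  have hI0 : 0 ≤ ∫ x, |G x| ^ p ∂(μT d) := integral_nonneg fun x => by positivity
  have h5 : (∫ x, |G x| ^ p ∂(μT d)) ^ (p⁻¹) ≤ ((2 * Real.pi) ^ r) ^ d * 2 ^ (-(r * tot s)) := by
    have h6 : ENNReal.ofReal ((∫ x, |G x| ^ p ∂(μT d)) ^ (p⁻¹)) ≤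
        ENNReal.ofReal (((2 * Real.pi) ^ r) ^ d * 2 ^ (-(r * tot s))) := by
      rw [← h4]
      refine h3.trans (ENNReal.ofReal_le_ofReal ?_)
      rw [one_mul]
      exact hprod
    exact (ENNReal.ofReal_le_ofReal_iff (by positivity)).1 h6
  have h7 := Real.rpow_le_rpow (by positivity) h5 hp0.le
  rwa [← Real.rpow_mul hI0, inv_mul_cancel₀ hp0.ne', Real.rpow_one] at h7

end

end Pool.Agent.MP_bc5265.S
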