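import Pool.Agent.Lib.MP_bc5265_an.S.Defs
import Mathlib

section
/-!
# BL: from LAYER with the weights `wt` to `bl`
-/
open Finset

namespace Pool.Agent.MP_bc5265.S

theorem specBl : SpecBl := by
  intro d m l p r hd hm hp
  have hm0 : (0 : ℝ) < m := by exact_mod_cast hm
  have hp0 : 0 < p := by linarith
  set K : ℝ := ((l : ℝ) + 1) ^ (d - 1) with hK
  have hK1 : 1 ≤ K := by
    rw [hK]; exact one_le_pow₀ (by linarith [Nat.cast_nonneg (α := ℝ) l])
  set w : ℝ := 1 + |(l : ℝ) - Nat.log 2 m| with hw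
  have hw1 : 1 ≤ w := by rw [hw]; linarith [abs_nonneg ((l : ℝ) - Nat.log 2 m)]
  set E : ℝ := (2 : ℝ) ^ (-(r * l)) with hE
  have hE0 : 0 < E := by positivity
  have hwt : wt d m l = m / (16 * (K * 2 ^ l * w ^ 2)) := rfl
  have hwt0 : 0 < wt d m l := by rw [hwt]; positivity
  constructor
  · intro hl
    have hbl : bl d p r m l = 12 * (K * w) * (Real.sqrt (2 ^ l / m) * E) := by
      unfold bl; rw [if_pos hl]
    rw [hbl, hwt]
    have hs : Real.sqrt (2 ^ l / m) ^ 2 = 2 ^ l / m := Real.sq_sqrt (by positivity)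
    have e1 : 8 * (m : ℝ) * (K * E ^ 2 / (m / (16 * (K * 2 ^ l * w ^ 2)))) =
        128 * (K ^ 2 * w ^ 2 * E ^ 2 * 2 ^ l) := by
      field_simp
      ring
    have e2 : (m : ℝ) * (12 * (K * w) * (Real.sqrt (2 ^ l / m) * E)) ^ 2 =
        144 * (K ^ 2 * w ^ 2 * E ^ 2 * 2 ^ l) := by
      have : (m : ℝ) * (12 * (K * w) * (Real.sqrt (2 ^ l / m) * E)) ^ 2 =
        144 * (K ^ 2 * w ^ 2 * E ^ 2) * (m * Real.sqrt (2 ^ l / m) ^ 2) := by ring
      rw [this, hs]
      field_simp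
    rw [e1, e2]
    have : 0 ≤ K ^ 2 * w ^ 2 * E ^ 2 * 2 ^ l := by positivity
    linarith
  · intro hl
    have hbl : bl d p r m l = 17 * (K * w) * (E * (2 : ℝ) ^ (((l : ℝ) - Nat.log 2 m) / p)) := by
      unfold bl; rw [if_neg (by omega)]
    set u : ℝ := (l : ℝ) - Nat.log 2 m with hu
    set G : ℝ := (2 : ℝ) ^ (u / p) with hG
    have hG0 : 0 < G := by positivity
    refine ⟨E * G, by positivity, ?_⟩
    rw [hbl, hwt]
    -- `2^l / m ≤ 2^u`
    have h2 : (2 : ℝ) ^ l / m ≤ (2 : ℝ) ^ u := by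
      rw [div_le_iff₀ hm0, hu, Real.rpow_sub two_pos, Real.rpow_natCast, Real.rpow_natCast,
        div_mul_eq_mul_div, le_div_iff₀ (by positivity)]
      have : (2 : ℝ) ^ Nat.log 2 m ≤ m := by exact_mod_cast Nat.pow_log_le_self 2 (by omega)
      gcongr
    have hGp : G ^ (2 - p) * (2 : ℝ) ^ u = G ^ 2 := by
      rw [hG, ← Real.rpow_mul two_pos.le, ← Real.rpow_natCast ((2 : ℝ) ^ (u / p)) 2,
        ← Real.rpow_mul two_pos.le, ← Real.rpow_add two_pos]
      congr 1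
      push_cast
      field_simp
      ring
    have hEp : (E * G) ^ (2 - p) * E ^ p = E ^ 2 * G ^ (2 - p) := by
      rw [Real.mul_rpow hE0.le hG0.le]
      have : E ^ (2 - p) * E ^ p = E ^ 2 := by
        rw [← Real.rpow_add hE0, sub_add_cancel]
        exact_mod_cast Real.rpow_natCast E 2
      calc E ^ (2 - p) * G ^ (2 - p) * E ^ p = (E ^ (2 - p) * E ^ p) * G ^ (2 - p) := by ring
        _ = _ := by rw [this]
    have hGq : 0 ≤ G ^ (2 - p) := Real.rpow_nonneg hG0.le _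
    have h3 : K * ((E * G) ^ (2 - p) * E ^ p) / (m / (16 * (K * 2 ^ l * w ^ 2))) ≤
        16 * (K ^ 2 * w ^ 2 * E ^ 2 * G ^ 2) := by
      rw [hEp]
      calc K * (E ^ 2 * G ^ (2 - p)) / (m / (16 * (K * 2 ^ l * w ^ 2)))
          = 16 * (K ^ 2 * w ^ 2 * E ^ 2) * (G ^ (2 - p) * (2 ^ l / m)) := by
            field_simp
        _ ≤ 16 * (K ^ 2 * w ^ 2 * E ^ 2) * (G ^ (2 - p) * (2 : ℝ) ^ u) := by gcongr
        _ = _ := by rw [hGp]; ring
    have h4 : (K * (E * G)) ^ 2 ≤ K ^ 2 * w ^ 2 * E ^ 2 * G ^ 2 := by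
      have : 1 ≤ w ^ 2 := one_le_pow₀ hw1
      calc (K * (E * G)) ^ 2 = (K ^ 2 * E ^ 2 * G ^ 2) * 1 := by ring
        _ ≤ (K ^ 2 * E ^ 2 * G ^ 2) * w ^ 2 := by gcongr
        _ = _ := by ring
    have h5 : 0 ≤ K ^ 2 * w ^ 2 * E ^ 2 * G ^ 2 := by positivity
    calc 16 * (m : ℝ) * ((K * (E * G)) ^ 2 + K * ((E * G) ^ (2 - p) * E ^ p) /
          (m / (16 * (K * 2 ^ l * w ^ 2))))
        ≤ 16 * (m : ℝ) * (K ^ 2 * w ^ 2 * E ^ 2 * G ^ 2 +
            16 * (K ^ 2 * w ^ 2 * E ^ 2 * G ^ 2)) := by gcongr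
      _ = m * (272 * (K ^ 2 * w ^ 2 * E ^ 2 * G ^ 2)) := by ring
      _ ≤ m * (289 * (K ^ 2 * w ^ 2 * E ^ 2 * G ^ 2)) := by
          gcongr
          norm_num
      _ = _ := by ring

end Pool.Agent.MP_bc5265.S
end

section
/-!
# BSS: the two-potential barrier argument
-/
open Finset Matrix
open scoped MatrixOrder

set_option linter.unusedSectionVars false

namespace Pool.Agent.MP_bc5265.S.BssM

variable {n : Type} [Fintype n] [DecidableEq n]

/-- Real symmetric matrices. -/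
lemma herm_transpose {M : Matrix n n ℝ} (h : M.IsHermitian) : Mᵀ = M := by
  have h1 : Mᴴ = M := h
  rwa [conjTranspose_eq_transpose_of_trivial] at h1

lemma dot_mulVec_comm {M : Matrix n n ℝ} (h : M.IsHermitian) (x y : n → ℝ) :
    x ⬝ᵥ (M *ᵥ y) = y ⬝ᵥ (M *ᵥ x) := by
  rw [dotProduct_mulVec, ← mulVec_transpose, herm_transpose h, dotProduct_comm]

lemma posSemidef_quad {M : Matrix n n ℝ} (h : M.PosSemidef) (x : n → ℝ) :
    0 ≤ x ⬝ᵥ (M *ᵥ x) := by
  have := h.dotProduct_mulVec_nonneg x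
  simpa using this

lemma posDef_quad {M : Matrix n n ℝ} (h : M.PosDef) {x : n → ℝ} (hx : x ≠ 0) :
    0 < x ⬝ᵥ (M *ᵥ x) := by
  have := h.dotProduct_mulVec_pos hx
  simpa using this

lemma posDef_of_quad {M : Matrix n n ℝ} (h1 : M.IsHermitian)
    (h : ∀ x : n → ℝ, x ≠ 0 → 0 < x ⬝ᵥ (M *ᵥ x)) : M.PosDef := by
  refine PosDef.of_dotProduct_mulVec_pos h1 fun x hx => ?_
  simpa using h x hx

/-- Traces of products of positive semidefinite matrices. -/
lemma trace_mul_nonneg {P Q : Matrix n n ℝ} (hP : P.PosSemidef) (hQ : Q.PosSemidef) :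
    0 ≤ (P * Q).trace := by
  obtain ⟨B, rfl⟩ := CStarAlgebra.nonneg_iff_eq_star_mul_self.mp hP.nonneg
  rw [Matrix.mul_assoc, trace_mul_comm]
  have h := (hQ.mul_mul_conjTranspose_same B).trace_nonneg
  exact h

lemma inv_mul_self' {M : Matrix n n ℝ} (h : M.PosDef) : M⁻¹ * M = 1 :=
  Matrix.nonsing_inv_mul M ((Matrix.isUnit_iff_isUnit_det M).1 h.isUnit)

lemma mul_inv_self' {M : Matrix n n ℝ} (h : M.PosDef) : M * M⁻¹ = 1 :=
  Matrix.mul_nonsing_inv M ((Matrix.isUnit_iff_isUnit_det M).1 h.isUnit)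

/-- Cauchy-Schwarz. -/
lemma cs {M : Matrix n n ℝ} (h : M.PosDef) (v x : n → ℝ) :
    (v ⬝ᵥ x) ^ 2 ≤ (v ⬝ᵥ (M⁻¹ *ᵥ v)) * (x ⬝ᵥ (M *ᵥ x)) := by
  set ρ := v ⬝ᵥ (M⁻¹ *ᵥ v) with hρ
  have hR : (M⁻¹).PosDef := h.inv
  by_cases hv : v = 0
  · subst hv
    simp [hρ]
  have hρ0 : 0 < ρ := posDef_quad hR hv
  have key : ∀ c : ℝ, 0 ≤ x ⬝ᵥ (M *ᵥ x) - 2 * c * (v ⬝ᵥ x) + c ^ 2 * ρ := by
    intro c
    have h1 := posSemidef_quad h.posSemidef (x - c • (M⁻¹ *ᵥ v))
    have h2 : M *ᵥ (M⁻¹ *ᵥ v) = v := by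
      rw [mulVec_mulVec, mul_inv_self' h, one_mulVec]
    have h3 : (M⁻¹ *ᵥ v) ⬝ᵥ (M *ᵥ x) = v ⬝ᵥ x := by
      rw [dot_mulVec_comm h.1, h2, dotProduct_comm]
    have h4 : (x - c • (M⁻¹ *ᵥ v)) ⬝ᵥ (M *ᵥ (x - c • (M⁻¹ *ᵥ v))) =
        x ⬝ᵥ (M *ᵥ x) - 2 * c * (v ⬝ᵥ x) + c ^ 2 * ρ := by
      rw [mulVec_sub, mulVec_smul, h2]
      simp only [sub_dotProduct, dotProduct_sub, smul_dotProduct, dotProduct_smul, smul_eq_mul, h3]
      rw [dotProduct_comm x v, dotProduct_comm (M⁻¹ *ᵥ v) v, ← hρ]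
      ring
    linarith
  have h5 := key ((v ⬝ᵥ x) / ρ)
  have h6 : x ⬝ᵥ (M *ᵥ x) - 2 * ((v ⬝ᵥ x) / ρ) * (v ⬝ᵥ x) + ((v ⬝ᵥ x) / ρ) ^ 2 * ρ =
      x ⬝ᵥ (M *ᵥ x) - (v ⬝ᵥ x) ^ 2 / ρ := by
    field_simp
    ring
  rw [h6] at h5
  have h7 : (v ⬝ᵥ x) ^ 2 / ρ ≤ x ⬝ᵥ (M *ᵥ x) := by linarith
  rw [div_le_iff₀ hρ0] at h7
  linarith

/-- Rank one updates. -/
lemma rank_one {M : Matrix n n ℝ} (h : M.PosDef) (v : n → ℝ) (s : ℝ)
    (hs : 0 < 1 + s * (v ⬝ᵥ (M⁻¹ *ᵥ v))) (Q : Matrix n n ℝ) :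
    (M + s • vecMulVec v v).PosDef ∧
    (Q * (M + s • vecMulVec v v)⁻¹).trace = (Q * M⁻¹).trace -
      s / (1 + s * (v ⬝ᵥ (M⁻¹ *ᵥ v))) * ((M⁻¹ *ᵥ v) ⬝ᵥ (Q *ᵥ (M⁻¹ *ᵥ v))) := by
  set ρ := v ⬝ᵥ (M⁻¹ *ᵥ v) with hρ
  set w := M⁻¹ *ᵥ v with hw
  have hR : (M⁻¹).PosDef := h.inv
  have hvv : ∀ x : n → ℝ, x ⬝ᵥ (vecMulVec v v *ᵥ x) = (v ⬝ᵥ x) ^ 2 := by
    intro x
    rw [vecMulVec_mulVec]
    simp only [dotProduct_smul, op_smul_eq_mul]
    rw [dotProduct_comm x v]
    ring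
  have hpd : (M + s • vecMulVec v v).PosDef := by
    refine posDef_of_quad ?_ ?_
    · refine h.1.add ?_
      show (s • vecMulVec v v)ᴴ = s • vecMulVec v v
      rw [conjTranspose_eq_transpose_of_trivial, transpose_smul, transpose_vecMulVec]
    · intro x hx
      rw [add_mulVec, smul_mulVec, dotProduct_add, dotProduct_smul, hvv, smul_eq_mul]
      have h1 := posDef_quad h hx
      have h2 := cs h v x
      rw [← hρ] at h2
      rcases le_or_gt 0 s with h3 | h3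
      · have := mul_nonneg h3 (sq_nonneg (v ⬝ᵥ x))
        linarith
      · have h4 : s * (ρ * (x ⬝ᵥ (M *ᵥ x))) ≤ s * (v ⬝ᵥ x) ^ 2 :=
          mul_le_mul_of_nonpos_left h2 h3.le
        have h5 : 0 < (1 + s * ρ) * (x ⬝ᵥ (M *ᵥ x)) := mul_pos hs h1
        nlinarith
  refine ⟨hpd, ?_⟩
  have hinv : (M + s • vecMulVec v v)⁻¹ = M⁻¹ - (s / (1 + s * ρ)) • vecMulVec w w := by
    refine Matrix.inv_eq_right_inv ?_
    have h1 : M *ᵥ w = v := by rw [hw, mulVec_mulVec, mul_inv_self' h, one_mulVec]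
    have h2 : vecMulVec v v * M⁻¹ = vecMulVec v w := by
      rw [vecMulVec_mul, ← mulVec_transpose, herm_transpose hR.1]
    have h3 : M * vecMulVec w w = vecMulVec v w := by
      rw [mul_vecMulVec, h1]
    have h4 : vecMulVec v v * vecMulVec w w = ρ • vecMulVec v w := by
      rw [vecMulVec_mul_vecMulVec]
      rw [← hρ]
      ext i j
      simp [vecMulVec_apply, smul_eq_mul]
      ring
    rw [mul_sub, add_mul, add_mul, mul_inv_self' h, smul_mul_assoc, h2, mul_smul_comm, h3,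
      smul_mul_assoc, mul_smul_comm, h4]
    have h5 : (s / (1 + s * ρ)) • vecMulVec v w + s • (s / (1 + s * ρ)) • ρ • vecMulVec v w =
        s • vecMulVec v w := by
      rw [smul_smul, smul_smul, ← add_smul]
      congr 1
      field_simp
    rw [h5]
    abel
  rw [hinv, mul_sub, trace_sub, mul_smul_comm, trace_smul, smul_eq_mul, mul_vecMulVec,
    trace_vecMulVec, dotProduct_comm]

/-- Shifts. -/
lemma shift {M : Matrix n n ℝ} (h : M.PosDef) (δ : ℝ) (hδ : 0 < δ) :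
    (M + δ • (1 : Matrix n n ℝ)).PosDef ∧
    M⁻¹ - (M + δ • (1 : Matrix n n ℝ))⁻¹ = δ • (M⁻¹ * (M + δ • (1 : Matrix n n ℝ))⁻¹) ∧
    M⁻¹ - (M + δ • (1 : Matrix n n ℝ))⁻¹ = δ • ((M + δ • (1 : Matrix n n ℝ))⁻¹ * M⁻¹) := by
  have h1 : (M + δ • (1 : Matrix n n ℝ)).PosDef := by
    refine h.add_posSemidef ?_
    exact PosSemidef.one.smul hδ.le
  set M' := M + δ • (1 : Matrix n n ℝ) with hM'
  refine ⟨h1, ?_, ?_⟩
  · have h2 : M⁻¹ * (M' - M) * M'⁻¹ = M⁻¹ - M'⁻¹ := by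
      rw [mul_sub, sub_mul, mul_assoc, mul_inv_self' h1, mul_one, inv_mul_self' h, one_mul]
    rw [← h2, hM', add_sub_cancel_left, mul_smul_comm, mul_one, smul_mul_assoc]
  · have h2 : M'⁻¹ * (M' - M) * M⁻¹ = M⁻¹ - M'⁻¹ := by
      rw [mul_sub, sub_mul, inv_mul_self' h1, one_mul, mul_assoc, mul_inv_self' h, mul_one]
    rw [← h2, hM', add_sub_cancel_left, mul_smul_comm, mul_one, smul_mul_assoc]

/-! ### The upper potential -/

lemma upper {M Q : Matrix n n ℝ} (h : M.PosDef) (hQ : Q.PosSemidef) (hQ1 : (1 - Q).PosSemidef) :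
    (Q * (M + (5 : ℝ) • (1 : Matrix n n ℝ))⁻¹).trace ≤ (Q * M⁻¹).trace ∧
    5 * (Q * (M + (5 : ℝ) • (1 : Matrix n n ℝ))⁻¹ * Q *
      (M + (5 : ℝ) • (1 : Matrix n n ℝ))⁻¹).trace ≤
      (Q * M⁻¹).trace - (Q * (M + (5 : ℝ) • (1 : Matrix n n ℝ))⁻¹).trace := by
  obtain ⟨h1, h2, h3⟩ := shift h 5 (by norm_num)
  set R := (M + (5 : ℝ) • (1 : Matrix n n ℝ))⁻¹ with hR
  have hRpd : R.PosDef := h1.inv
  have hRM : (M⁻¹).PosDef := h.inv
  have e1 : (Q * M⁻¹).trace - (Q * R).trace = 5 * (Q * (M⁻¹ * R)).trace := by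
    rw [← trace_sub, ← mul_sub, h2, mul_smul_comm, trace_smul, smul_eq_mul]
  -- `M⁻¹ R - R R = 5 R M⁻¹ R`
  have e2 : M⁻¹ * R - R * R = (5 : ℝ) • (R * M⁻¹ * R) := by
    rw [← sub_mul, h3, smul_mul_assoc]
  have e3 : 0 ≤ (Q * (R * M⁻¹ * R)).trace := by
    refine trace_mul_nonneg hQ ?_
    have := hRM.posSemidef.conjTranspose_mul_mul_same R
    rwa [show Rᴴ = R from hRpd.1] at this
  have e4 : (Q * (R * R)).trace ≤ (Q * (M⁻¹ * R)).trace := by
    have : (Q * (M⁻¹ * R)).trace - (Q * (R * R)).trace = 5 * (Q * (R * M⁻¹ * R)).trace := by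
      rw [← trace_sub, ← mul_sub, e2, mul_smul_comm, trace_smul, smul_eq_mul]
    linarith
  have e5 : 0 ≤ (Q * (R * (1 - Q) * R)).trace := by
    refine trace_mul_nonneg hQ ?_
    have := hQ1.conjTranspose_mul_mul_same R
    rwa [show Rᴴ = R from hRpd.1] at this
  have e6 : (Q * (R * (1 - Q) * R)).trace = (Q * (R * R)).trace - (Q * R * Q * R).trace := by
    rw [← trace_sub]
    congr 1
    noncomm_ring
  have e7 : 0 ≤ (Q * (R * R)).trace := by
    refine trace_mul_nonneg hQ ?_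
    have := (PosSemidef.one (n := n) (R := ℝ)).conjTranspose_mul_mul_same R
    rw [mul_one, show Rᴴ = R from hRpd.1] at this
    exact this
  constructor
  · linarith
  · linarith

/-! ### The lower potential -/

lemma le_of_trace {M : Matrix n n ℝ} (h : M.PosDef) (ht : (M⁻¹).trace ≤ 1 / 2) (x : n → ℝ) :
    2 * (x ⬝ᵥ x) ≤ x ⬝ᵥ (M *ᵥ x) := by
  have hR : (M⁻¹).PosDef := h.inv
  -- `x R x ≤ tr R |x|^2`
  have h1 : x ⬝ᵥ (M⁻¹ *ᵥ x) ≤ (M⁻¹).trace * (x ⬝ᵥ x) := by
    have h2 : ((x ⬝ᵥ x) • (1 : Matrix n n ℝ) - vecMulVec x x).PosSemidef := by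
      refine PosSemidef.of_dotProduct_mulVec_nonneg ?_ fun y => ?_
      · show ((x ⬝ᵥ x) • (1 : Matrix n n ℝ) - vecMulVec x x)ᴴ = _
        rw [conjTranspose_eq_transpose_of_trivial, transpose_sub, transpose_smul,
          transpose_one, transpose_vecMulVec]
      · have h3 : (x ⬝ᵥ y) ^ 2 ≤ (x ⬝ᵥ x) * (y ⬝ᵥ y) := by
          simp only [dotProduct]
          have := Finset.sum_mul_sq_le_sq_mul_sq univ x y
          simpa [pow_two] using this
        rw [sub_mulVec, smul_mulVec, one_mulVec, vecMulVec_mulVec]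
        simp only [star_trivial, dotProduct_sub, dotProduct_smul, smul_eq_mul, op_smul_eq_mul]
        rw [dotProduct_comm y x]
        nlinarith
    have h3 := trace_mul_nonneg hR.posSemidef h2
    rw [mul_sub, trace_sub, mul_smul_comm, mul_one, trace_smul, smul_eq_mul, mul_vecMulVec,
      trace_vecMulVec] at h3
    rw [dotProduct_comm (M⁻¹ *ᵥ x) x] at h3
    linarith
  have h2 := cs h x x
  have h3 : 0 ≤ x ⬝ᵥ (M *ᵥ x) := posSemidef_quad h.posSemidef x
  have h4 : 0 ≤ x ⬝ᵥ x := by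
    simp only [dotProduct]
    exact Finset.sum_nonneg fun i _ => mul_self_nonneg _
  by_cases h5 : x ⬝ᵥ x = 0
  · rw [h5]; simpa using h3
  have h6 : 0 < x ⬝ᵥ x := lt_of_le_of_ne h4 (Ne.symm h5)
  have h7 : (x ⬝ᵥ x) ^ 2 ≤ (1 / 2 * (x ⬝ᵥ x)) * (x ⬝ᵥ (M *ᵥ x)) := by
    refine h2.trans (mul_le_mul_of_nonneg_right ?_ h3)
    exact h1.trans (mul_le_mul_of_nonneg_right ht h4)
  nlinarith

lemma lower [Nonempty n] {M : Matrix n n ℝ} (h : M.PosDef) (ht : (M⁻¹).trace ≤ 1 / 2) :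
    (M - (1 : Matrix n n ℝ)).PosDef ∧
    0 < ((M - (1 : Matrix n n ℝ))⁻¹).trace - (M⁻¹).trace ∧
    (1 + (((M - (1 : Matrix n n ℝ))⁻¹).trace - (M⁻¹).trace)) *
      (((M - (1 : Matrix n n ℝ))⁻¹).trace - (M⁻¹).trace) ≤
      ((M - (1 : Matrix n n ℝ))⁻¹ * (M - (1 : Matrix n n ℝ))⁻¹).trace := by
  have h1 : (M - (1 : Matrix n n ℝ)).PosDef := by
    refine posDef_of_quad (h.1.sub isHermitian_one) fun x hx => ?_
    rw [sub_mulVec, one_mulVec, dotProduct_sub]
    have h2 := le_of_trace h ht x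
    have h3 : 0 < x ⬝ᵥ x := by
      have h4 := posDef_quad (PosDef.one (n := n) (R := ℝ)) hx
      rwa [one_mulVec] at h4
    linarith
  obtain ⟨h2, h3, h4⟩ := shift h1 1 one_pos
  rw [one_smul, sub_add_cancel] at h2 h3 h4
  rw [one_smul] at h3 h4
  set S' := (M - (1 : Matrix n n ℝ))⁻¹ with hS'
  set S := M⁻¹ with hS
  have hSpd : S.PosDef := h.inv
  have hS'pd : S'.PosDef := h1.inv
  have e1 : S'.trace - S.trace = (S' * S).trace := by rw [← trace_sub, h3]
  have hcomm : S' * S = S * S' := by rw [← h3, ← h4]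
  -- positivity of `tr S' S`
  have htS : 0 < S.trace := hSpd.trace_pos
  have e2 : (S' * S').trace - (S' * S).trace = (S' * S * S').trace := by
    rw [← trace_sub, ← mul_sub, h4, mul_assoc]
  have key : ∀ c : ℝ, 0 ≤ (S' * S * S').trace - 2 * c * (S' * S).trace + c ^ 2 * S.trace := by
    intro c
    have h5 := hSpd.posSemidef.mul_mul_conjTranspose_same (S' - c • (1 : Matrix n n ℝ))
    have h6 := h5.trace_nonneg
    have h7 : (S' - c • (1 : Matrix n n ℝ))ᴴ = S' - c • (1 : Matrix n n ℝ) := by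
      rw [conjTranspose_sub, show S'ᴴ = S' from hS'pd.1, conjTranspose_smul, conjTranspose_one]
      simp
    rw [h7] at h6
    have h8 : (S' - c • (1 : Matrix n n ℝ)) * S * (S' - c • (1 : Matrix n n ℝ)) =
        S' * S * S' - c • (S' * S) - c • (S * S') + (c ^ 2) • S := by
      rw [sub_mul, sub_mul, mul_sub, mul_sub, smul_mul_assoc, one_mul, mul_smul_comm, mul_one,
        mul_smul_comm, mul_one, smul_mul_assoc, smul_smul, pow_two]
      abel
    rw [h8, ← hcomm, trace_add, trace_sub, trace_sub, trace_smul, trace_smul, smul_eq_mul,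
      smul_eq_mul] at h6
    linarith
  have h9 := key ((S' * S).trace / S.trace)
  have h10 : (S' * S * S').trace - 2 * ((S' * S).trace / S.trace) * (S' * S).trace +
      ((S' * S).trace / S.trace) ^ 2 * S.trace =
      (S' * S * S').trace - (S' * S).trace ^ 2 / S.trace := by
    field_simp
    ring
  rw [h10] at h9
  have h11 : (S' * S).trace ^ 2 ≤ (S' * S).trace ^ 2 / S.trace := by
    rw [le_div_iff₀ htS]
    have := sq_nonneg ((S' * S).trace)
    nlinarith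
  have hpos : 0 < (S' * S).trace := by
    -- `S' S = S + S' S S'...`: use `S' S = S' - S` and `S' S ≥ S S`
    have h12 : S' * S = S * S + S * S' * S := by
      have : (S' - S) * S = S * S' * S := by rw [h4]
      rw [sub_mul] at this
      rw [← this]
      abel
    rw [h12, trace_add]
    have h13 : 0 ≤ (S * S' * S).trace := by
      have := hS'pd.posSemidef.conjTranspose_mul_mul_same S
      rw [show Sᴴ = S from hSpd.1] at this
      exact this.trace_nonneg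
    have h14 : 0 < (S * S).trace := by
      have := (PosDef.one (n := n) (R := ℝ)).conjTranspose_mul_mul_same
        (B := S) ?_
      · rw [show Sᴴ = S from hSpd.1, mul_one] at this
        exact this.trace_pos
      · exact Matrix.mulVec_injective_of_isUnit hSpd.isUnit
    linarith
  refine ⟨h1, ?_, ?_⟩
  · rw [e1]; exact hpos
  · rw [e1]
    nlinarith

/-! ### Averages -/

lemma avg_quad {Ω : Type} [Fintype Ω] (y : Ω → n → ℝ) (a : n → ℝ) (N : ℝ)
    (hy : ∀ i j, ∑ ω, y ω i * y ω j = if i = j then N * a i else 0) (P : Matrix n n ℝ) :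
    ∑ ω, y ω ⬝ᵥ (P *ᵥ y ω) = N * (Matrix.diagonal a * P).trace := by
  have h1 : ∀ ω, y ω ⬝ᵥ (P *ᵥ y ω) = ∑ i, ∑ j, P i j * (y ω i * y ω j) := by
    intro ω
    simp only [dotProduct, mulVec, Finset.mul_sum]
    refine Finset.sum_congr rfl fun i _ => Finset.sum_congr rfl fun j _ => ?_
    ring
  simp only [h1]
  rw [Finset.sum_comm]
  have h2 : ∀ i, ∑ ω, ∑ j, P i j * (y ω i * y ω j) = N * (a i * P i i) := by
    intro i
    rw [Finset.sum_comm]
    simp only [← Finset.mul_sum, hy]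
    rw [Finset.sum_eq_single i]
    · simp; ring
    · intro j _ hj
      rw [if_neg (Ne.symm hj), mul_zero]
    · intro h; exact absurd (Finset.mem_univ i) h
  simp only [h2]
  rw [← Finset.mul_sum, Matrix.trace]
  congr 1
  refine Finset.sum_congr rfl fun i _ => ?_
  simp [Matrix.diagonal_mul]

/-! ### One step -/

variable {k : Type} [Fintype k] [DecidableEq k]

lemma step [Nonempty n] {Ω : Type} [Fintype Ω] [Nonempty Ω] (y : Ω → n → ℝ) (z : Ω → k → ℝ)
    (a : k → ℝ)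
    (hy : ∀ i j, ∑ ω, y ω i * y ω j = if i = j then (Fintype.card Ω : ℝ) else 0)
    (hz : ∀ i j, ∑ ω, z ω i * z ω j = if i = j then (Fintype.card Ω : ℝ) * a i else 0)
    (ha0 : ∀ i, 0 ≤ a i) (ha1 : ∀ i, a i ≤ 1)
    {A : Matrix n n ℝ} {B : Matrix k k ℝ} (hA : A.PosDef) (hB : B.PosDef)
    (htA : (A⁻¹).trace ≤ 1 / 2) (htB : (Matrix.diagonal a * B⁻¹).trace ≤ 1 / 4) :
    ∃ (ω : Ω) (t : ℝ), 0 < t ∧
      (A - 1 + t • vecMulVec (y ω) (y ω)).PosDef ∧
      ((A - 1 + t • vecMulVec (y ω) (y ω))⁻¹).trace ≤ (A⁻¹).trace ∧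
      (B + (5 : ℝ) • (1 : Matrix k k ℝ) - t • vecMulVec (z ω) (z ω)).PosDef ∧
      (Matrix.diagonal a * (B + (5 : ℝ) • (1 : Matrix k k ℝ) -
        t • vecMulVec (z ω) (z ω))⁻¹).trace ≤ (Matrix.diagonal a * B⁻¹).trace := by
  set Q := Matrix.diagonal a with hQ
  have hQp : Q.PosSemidef := PosSemidef.diagonal ha0
  have hQ1 : (1 - Q).PosSemidef := by
    have : (1 : Matrix k k ℝ) - Q = Matrix.diagonal (fun i => 1 - a i) := by
      rw [← Matrix.diagonal_one, hQ, Matrix.diagonal_sub]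
    rw [this]
    exact PosSemidef.diagonal fun i => by simpa using ha1 i
  obtain ⟨hA', hD', hlow⟩ := lower hA htA
  obtain ⟨hup1, hup2⟩ := upper hB hQp hQ1
  obtain ⟨hB', -, -⟩ := shift hB 5 (by norm_num)
  set S := (A - 1)⁻¹ with hS
  set R := (B + (5 : ℝ) • (1 : Matrix k k ℝ))⁻¹ with hR
  set D' := S.trace - (A⁻¹).trace with hD'def
  set D := (Q * B⁻¹).trace - (Q * R).trace with hDdef
  have hSpd : S.PosDef := hA'.inv
  have hRpd : R.PosDef := hB'.inv
  have hD0 : 0 ≤ D := by rw [hDdef]; linarith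
  -- the two functions
  let U : Ω → ℝ := fun ω => z ω ⬝ᵥ (R *ᵥ z ω) + (R *ᵥ z ω) ⬝ᵥ (Q *ᵥ (R *ᵥ z ω)) / D
  let Lo : Ω → ℝ := fun ω => (S *ᵥ y ω) ⬝ᵥ ((1 : Matrix n n ℝ) *ᵥ (S *ᵥ y ω)) / D' -
    y ω ⬝ᵥ (S *ᵥ y ω)
  set N : ℝ := (Fintype.card Ω : ℝ) with hN
  have hN0 : 0 < N := by rw [hN]; exact_mod_cast Fintype.card_pos
  have hy' : ∀ i j, ∑ ω, y ω i * y ω j = if i = j then N * (fun _ : n => (1 : ℝ)) i else 0 := by
    intro i j
    rw [hy]
    simp [hN]
  have hdiag1 : Matrix.diagonal (fun _ : n => (1 : ℝ)) = 1 := Matrix.diagonal_one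
  -- rewriting of the quadratic forms
  have hQR : ∀ v : k → ℝ, (R *ᵥ v) ⬝ᵥ (Q *ᵥ (R *ᵥ v)) = v ⬝ᵥ ((R * Q * R) *ᵥ v) := by
    intro v
    rw [← mulVec_mulVec, ← mulVec_mulVec, dot_mulVec_comm hRpd.1 v (Q *ᵥ (R *ᵥ v)),
      dotProduct_comm]
  have hSS : ∀ v : n → ℝ, (S *ᵥ v) ⬝ᵥ ((1 : Matrix n n ℝ) *ᵥ (S *ᵥ v)) = v ⬝ᵥ ((S * S) *ᵥ v) := by
    intro v
    rw [one_mulVec, ← mulVec_mulVec, dot_mulVec_comm hSpd.1 v (S *ᵥ v)]
  have hsumU : ∑ ω, U ω ≤ N * (1 / 4 + 1 / 5) := by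
    simp only [U, hQR]
    rw [Finset.sum_add_distrib, ← Finset.sum_div, avg_quad z a N hz, avg_quad z a N hz]
    rw [← hQ]
    have e1 : (Q * (R * Q * R)).trace = (Q * R * Q * R).trace := by
      congr 1; noncomm_ring
    rw [e1]
    have e2 : N * (Q * R * Q * R).trace / D ≤ N * (1 / 5) := by
      rcases hD0.eq_or_lt with h0 | h0
      · rw [← h0, div_zero]; positivity
      · rw [div_le_iff₀ h0]
        have : (Q * R * Q * R).trace ≤ 1 / 5 * D := by linarith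
        calc N * (Q * R * Q * R).trace ≤ N * (1 / 5 * D) := mul_le_mul_of_nonneg_left this hN0.le
          _ = _ := by ring
    have e3 : N * (Q * R).trace ≤ N * (1 / 4) :=
      mul_le_mul_of_nonneg_left (hup1.trans htB) hN0.le
    calc _ ≤ N * (1 / 4) + N * (1 / 5) := add_le_add e3 e2
      _ = _ := by ring
  have hsumL : N * (1 / 2) ≤ ∑ ω, Lo ω := by
    simp only [Lo, hSS]
    rw [Finset.sum_sub_distrib, ← Finset.sum_div, avg_quad y _ N hy', avg_quad y _ N hy', hdiag1,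
      one_mul, one_mul]
    have e1 : N * (1 + D') ≤ N * (S * S).trace / D' := by
      rw [le_div_iff₀ hD', mul_assoc]
      exact mul_le_mul_of_nonneg_left hlow hN0.le
    have e2 : N * (1 + D') - N * S.trace = N * (1 - (A⁻¹).trace) := by rw [hD'def]; ring
    have e3 : N * (1 / 2) ≤ N * (1 - (A⁻¹).trace) :=
      mul_le_mul_of_nonneg_left (by linarith) hN0.le
    linarith
  obtain ⟨ω, hω⟩ : ∃ ω, U ω < Lo ω := by
    by_contra hcon
    push Not at hcon
    have h1 := Finset.sum_le_sum fun ω (_ : ω ∈ univ) => hcon ω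
    have h2 : N * (1 / 4 + 1 / 5) < N * (1 / 2) := mul_lt_mul_of_pos_left (by norm_num) hN0
    linarith
  have hq1 : 0 ≤ z ω ⬝ᵥ (R *ᵥ z ω) := posSemidef_quad hRpd.posSemidef _
  have hq2 : 0 ≤ (R *ᵥ z ω) ⬝ᵥ (Q *ᵥ (R *ᵥ z ω)) := posSemidef_quad hQp _
  have hU0 : z ω ⬝ᵥ (R *ᵥ z ω) ≤ U ω := by
    simp only [U]
    have := div_nonneg hq2 hD0
    linarith
  obtain ⟨u, hu1, hu2⟩ := exists_between hω
  have hu0 : 0 < u := by linarith
  have hy0 : 0 ≤ y ω ⬝ᵥ (S *ᵥ y ω) := posSemidef_quad hSpd.posSemidef _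
  refine ⟨ω, 1 / u, by positivity, ?_⟩
  have hs1 : 0 < 1 + (1 / u) * (y ω ⬝ᵥ (S *ᵥ y ω)) := by
    have : 0 ≤ (1 / u) * (y ω ⬝ᵥ (S *ᵥ y ω)) := by positivity
    linarith
  obtain ⟨r1, r2⟩ := rank_one hA' (y ω) (1 / u) hs1 1
  have hs2 : 0 < 1 + (-(1 / u)) * (z ω ⬝ᵥ (R *ᵥ z ω)) := by
    have : (1 / u) * (z ω ⬝ᵥ (R *ᵥ z ω)) < 1 := by
      rw [one_div_mul_eq_div, div_lt_one hu0]
      linarith
    linarith
  obtain ⟨r3, r4⟩ := rank_one hB' (z ω) (-(1 / u)) hs2 Q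
  have e5 : B + (5 : ℝ) • (1 : Matrix k k ℝ) + (-(1 / u)) • vecMulVec (z ω) (z ω) =
      B + (5 : ℝ) • (1 : Matrix k k ℝ) - (1 / u) • vecMulVec (z ω) (z ω) := by
    rw [neg_smul, sub_eq_add_neg]
  rw [e5] at r3 r4
  rw [one_mul, one_mul] at r2
  refine ⟨r1, ?_, r3, ?_⟩
  · rw [r2, ← hS]
    simp only [Lo] at hu2
    set g := (S *ᵥ y ω) ⬝ᵥ ((1 : Matrix n n ℝ) *ᵥ (S *ᵥ y ω)) with hg
    set ρ := y ω ⬝ᵥ (S *ᵥ y ω) with hρ
    have h1 : D' * (u + ρ) ≤ g := by
      have h2 : u + ρ ≤ g / D' := by linarith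
      rw [le_div_iff₀ hD'] at h2
      linarith
    have h2 : 1 / u / (1 + 1 / u * ρ) * g = g / (u + ρ) := by
      field_simp
    rw [h2]
    have h3 : D' ≤ g / (u + ρ) := by
      rw [le_div_iff₀ (by linarith)]
      linarith
    rw [hD'def] at h3
    linarith
  · rw [r4, ← hR]
    simp only [U] at hu1
    set g := (R *ᵥ z ω) ⬝ᵥ (Q *ᵥ (R *ᵥ z ω)) with hg
    set ρ := z ω ⬝ᵥ (R *ᵥ z ω) with hρ
    have h0 : 0 < u - ρ := by
      have := div_nonneg hq2 hD0
      linarith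
    have h2 : -(1 / u) / (1 + -(1 / u) * ρ) * g = -(g / (u - ρ)) := by
      have h1 : 1 + -(1 / u) * ρ = (u - ρ) / u := by
        field_simp
        ring
      have h0' : u - ρ ≠ 0 := h0.ne'
      rw [h1]
      field_simp
    rw [h2]
    have h3 : g / (u - ρ) ≤ D := by
      rcases hD0.eq_or_lt with hD00 | hD00
      · -- `D = 0`: then the forms vanish
        have h5 : (Q * R * Q * R).trace ≤ 0 := by
          rw [← hD00] at hup2
          linarith
        have h6 : ∑ ω, (R *ᵥ z ω) ⬝ᵥ (Q *ᵥ (R *ᵥ z ω)) = N * (Q * R * Q * R).trace := by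
          simp only [hQR]
          rw [avg_quad z a N hz, ← hQ]
          congr 2
          noncomm_ring
        have h7 : g ≤ ∑ ω, (R *ᵥ z ω) ⬝ᵥ (Q *ᵥ (R *ᵥ z ω)) :=
          Finset.single_le_sum (f := fun ω => (R *ᵥ z ω) ⬝ᵥ (Q *ᵥ (R *ᵥ z ω)))
            (fun ω _ => posSemidef_quad hQp _) (Finset.mem_univ ω)
        have h8 : N * (Q * R * Q * R).trace ≤ 0 := mul_nonpos_of_nonneg_of_nonpos hN0.le h5
        have h9 : g = 0 := le_antisymm (by linarith) hq2
        rw [h9, zero_div]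
        exact hD0
      · rw [div_le_iff₀ h0]
        have h4 : g / D < u - ρ := by linarith
        rw [div_lt_iff₀ hD00] at h4
        linarith
    rw [hDdef] at h3
    linarith

/-! ### Iteration -/

lemma iterate [Nonempty n] {Ω : Type} [Fintype Ω] [Nonempty Ω] (y : Ω → n → ℝ) (z : Ω → k → ℝ)
    (a : k → ℝ)
    (hy : ∀ i j, ∑ ω, y ω i * y ω j = if i = j then (Fintype.card Ω : ℝ) else 0)
    (hz : ∀ i j, ∑ ω, z ω i * z ω j = if i = j then (Fintype.card Ω : ℝ) * a i else 0)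
    (ha0 : ∀ i, 0 ≤ a i) (ha1 : ∀ i, a i ≤ 1) (l0 u0 : ℝ) (hl0 : 0 < l0) (hu0 : 0 < u0)
    (hl : (Fintype.card n : ℝ) / l0 ≤ 1 / 2) (hu : (∑ i, a i) / u0 ≤ 1 / 4) (m : ℕ) :
    ∃ (ω : Fin m → Ω) (t : Fin m → ℝ), (∀ i, 0 < t i) ∧
      ((∑ i, t i • vecMulVec (y (ω i)) (y (ω i))) + (l0 - m) • (1 : Matrix n n ℝ)).PosDef ∧
      (((∑ i, t i • vecMulVec (y (ω i)) (y (ω i))) + (l0 - m) • (1 : Matrix n n ℝ))⁻¹).trace
        ≤ 1 / 2 ∧
      ((u0 + 5 * m) • (1 : Matrix k k ℝ) - ∑ i, t i • vecMulVec (z (ω i)) (z (ω i))).PosDef ∧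
      (Matrix.diagonal a * ((u0 + 5 * m) • (1 : Matrix k k ℝ) -
        ∑ i, t i • vecMulVec (z (ω i)) (z (ω i)))⁻¹).trace ≤ 1 / 4 := by
  induction m with
  | zero =>
    refine ⟨fun i => i.elim0, fun i => i.elim0, fun i => i.elim0, ?_, ?_, ?_, ?_⟩
    · simp only [Finset.univ_eq_empty, Finset.sum_empty, zero_add, CharP.cast_eq_zero, sub_zero]
      exact PosDef.one.smul hl0
    · simp only [Finset.univ_eq_empty, Finset.sum_empty, zero_add, CharP.cast_eq_zero, sub_zero]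
      have h1 : (l0 • (1 : Matrix n n ℝ))⁻¹ = l0⁻¹ • (1 : Matrix n n ℝ) := by
        refine Matrix.inv_eq_right_inv ?_
        rw [smul_mul_smul_comm, mul_one, mul_inv_cancel₀ hl0.ne', one_smul]
      rw [h1, trace_smul, trace_one, smul_eq_mul, mul_comm, ← div_eq_mul_inv]
      exact hl
    · simp only [Finset.univ_eq_empty, Finset.sum_empty, CharP.cast_eq_zero, sub_zero, mul_zero,
        add_zero]
      exact PosDef.one.smul hu0
    · simp only [Finset.univ_eq_empty, Finset.sum_empty, CharP.cast_eq_zero, sub_zero, mul_zero,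
        add_zero]
      have h1 : (u0 • (1 : Matrix k k ℝ))⁻¹ = u0⁻¹ • (1 : Matrix k k ℝ) := by
        refine Matrix.inv_eq_right_inv ?_
        rw [smul_mul_smul_comm, mul_one, mul_inv_cancel₀ hu0.ne', one_smul]
      rw [h1, mul_smul_comm, mul_one, trace_smul, trace_diagonal, smul_eq_mul, mul_comm,
        ← div_eq_mul_inv]
      exact hu
  | succ m ih =>
    obtain ⟨ω, t, ht, h1, h2, h3, h4⟩ := ih
    obtain ⟨w, s, hs, g1, g2, g3, g4⟩ := step y z a hy hz ha0 ha1 h1 h3 h2 h4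
    refine ⟨Fin.snoc ω w, Fin.snoc t s, ?_, ?_⟩
    · intro i
      refine Fin.lastCases ?_ (fun i => ?_) i
      · simpa using hs
      · simpa using ht i
    have e1 : ∀ {q : Type} [Fintype q] [DecidableEq q] (v : Ω → q → ℝ),
        ∑ i : Fin (m + 1), (Fin.snoc t s : Fin (m + 1) → ℝ) i •
          vecMulVec (v ((Fin.snoc ω w : Fin (m + 1) → Ω) i)) (v ((Fin.snoc ω w : Fin (m + 1) → Ω) i)) =
        (∑ i, t i • vecMulVec (v (ω i)) (v (ω i))) + s • vecMulVec (v w) (v w) := by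
      intro q _ _ v
      rw [Fin.sum_univ_castSucc]
      simp
    rw [e1 y, e1 z]
    have e2 : (∑ i, t i • vecMulVec (y (ω i)) (y (ω i))) + (l0 - m) • (1 : Matrix n n ℝ) - 1 +
        s • vecMulVec (y w) (y w) =
        (∑ i, t i • vecMulVec (y (ω i)) (y (ω i))) + s • vecMulVec (y w) (y w) +
          (l0 - ((m + 1 : ℕ) : ℝ)) • (1 : Matrix n n ℝ) := by
      push_cast
      rw [sub_smul, sub_smul, add_smul, one_smul]
      abel
    have e3 : (u0 + 5 * m) • (1 : Matrix k k ℝ) - ∑ i, t i • vecMulVec (z (ω i)) (z (ω i)) +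
        (5 : ℝ) • (1 : Matrix k k ℝ) - s • vecMulVec (z w) (z w) =
        (u0 + 5 * ((m + 1 : ℕ) : ℝ)) • (1 : Matrix k k ℝ) -
          ((∑ i, t i • vecMulVec (z (ω i)) (z (ω i))) + s • vecMulVec (z w) (z w)) := by
      push_cast
      rw [mul_add, mul_one, add_smul, add_smul, add_smul]
      abel
    rw [e2] at g1 g2
    rw [e3] at g3 g4
    exact ⟨g1, g2.trans h2, g3, g4.trans h4⟩

/-- The quadratic form of `∑ t vvᵀ`. -/
lemma quad_sum {m : ℕ} (v : Fin m → n → ℝ) (t : Fin m → ℝ) (c : n → ℝ) :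
    c ⬝ᵥ ((∑ i, t i • vecMulVec (v i) (v i)) *ᵥ c) = ∑ i, t i * (∑ j, c j * v i j) ^ 2 := by
  rw [Matrix.sum_mulVec, dotProduct_sum]
  refine Finset.sum_congr rfl fun i _ => ?_
  rw [smul_mulVec, vecMulVec_mulVec, dotProduct_smul, smul_eq_mul, dotProduct_smul,
    op_smul_eq_mul]
  have h1 : v i ⬝ᵥ c = ∑ j, c j * v i j := by
    simp only [dotProduct]
    exact Finset.sum_congr rfl fun j _ => mul_comm _ _
  have h2 : c ⬝ᵥ v i = ∑ j, c j * v i j := rfl
  rw [h1, h2]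
  ring

end Pool.Agent.MP_bc5265.S.BssM

namespace Pool.Agent.MP_bc5265.S

open BssM

theorem specBSS : SpecBSS := by
  intro Ω ι κ _ _ _ _ _ _ y z a τ m hy hz ha0 ha1 hτ hcard hm
  have hm0 : (0 : ℝ) < m := by exact_mod_cast hm
  have hτ0 : 0 ≤ τ := (Finset.sum_nonneg fun i _ => ha0 i).trans hτ
  rcases isEmpty_or_nonempty ι with hι | hι
  · -- no lower bound
    obtain ⟨ω0⟩ := (inferInstance : Nonempty Ω)
    set Z : ℝ := ∑ j, z ω0 j ^ 2 with hZ
    have hZ0 : 0 ≤ Z := Finset.sum_nonneg fun j _ => sq_nonneg _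
    refine ⟨fun _ => ω0, fun _ => 1 / (1 + Z), fun _ => by positivity, fun c => ?_, fun c => ?_⟩
    · simp
    · have h1 : (∑ j, c j * z ω0 j) ^ 2 ≤ (∑ j, c j ^ 2) * Z :=
        Finset.sum_mul_sq_le_sq_mul_sq univ c (z ω0)
      have hc0 : 0 ≤ ∑ j, c j ^ 2 := Finset.sum_nonneg fun j _ => sq_nonneg _
      rw [Finset.sum_const, Finset.card_univ, Fintype.card_fin, nsmul_eq_mul]
      have h2 : 1 / (1 + Z) * (∑ j, c j * z ω0 j) ^ 2 ≤ ∑ j, c j ^ 2 := by
        rw [one_div_mul_eq_div, div_le_iff₀ (by positivity)]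
        nlinarith
      calc (m : ℝ) * (1 / (1 + Z) * (∑ j, c j * z ω0 j) ^ 2) ≤ m * ∑ j, c j ^ 2 :=
            mul_le_mul_of_nonneg_left h2 hm0.le
        _ ≤ (4 * τ + 1 + 5 * m) * ∑ j, c j ^ 2 := by
            refine mul_le_mul_of_nonneg_right ?_ hc0
            linarith
  · have hc : (4 * Fintype.card ι : ℝ) ≤ m := by exact_mod_cast hcard
    obtain ⟨ω, t, ht, h1, -, h3, -⟩ := iterate y z a hy hz ha0 ha1 (m / 2) (4 * τ + 1)
      (by positivity) (by positivity) (by rw [div_le_iff₀ (by positivity)]; linarith)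
      (by rw [div_le_iff₀ (by positivity)]; linarith) m
    refine ⟨ω, t, ht, fun c => ?_, fun c => ?_⟩
    · have h5 := posSemidef_quad h1.posSemidef c
      rw [add_mulVec, dotProduct_add, quad_sum, smul_mulVec, one_mulVec, dotProduct_smul,
        smul_eq_mul] at h5
      have h6 : c ⬝ᵥ c = ∑ i, c i ^ 2 := by
        simp only [dotProduct, pow_two]
      rw [h6] at h5
      nlinarith
    · have h5 := posSemidef_quad h3.posSemidef c
      rw [sub_mulVec, dotProduct_sub, quad_sum, smul_mulVec, one_mulVec, dotProduct_smul,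
        smul_eq_mul] at h5
      have h6 : c ⬝ᵥ c = ∑ i, c i ^ 2 := by
        simp only [dotProduct, pow_two]
      rw [h6] at h5
      linarith

end Pool.Agent.MP_bc5265.S
end

section
/-!
# CORE: the estimate for functions on the grid
-/
open Finset

namespace Pool.Agent.MP_bc5265.S

namespace CorM

variable {d L : ℕ}

lemma lv_le (k : ℕ) (hk : k < 2 ^ L) : lv k ≤ L := by
  unfold lv
  split_ifs with h
  · omega
  · exact Nat.log_lt_of_lt_pow h hk

lemma tot_le (k : Gr d L) : tot (lvs k) ≤ d * L := by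
  unfold tot lvs
  calc ∑ j, lv (k j) ≤ ∑ _j : Fin d, L := Finset.sum_le_sum fun j _ => lv_le _ (k j).2
    _ = d * L := by simp

lemma rate_nonneg (d : ℕ) (r : ℝ) (m : ℕ) : 0 ≤ rate d r m := by
  unfold rate
  have : 0 ≤ Real.log m := Real.log_natCast_nonneg m
  positivity

/-- Minkowski inequality in a weighted `l_2`. -/
lemma mink {m : ℕ} (t : Fin m → ℝ) (ht : ∀ i, 0 < t i) (S : Finset ℕ) (f : ℕ → Fin m → ℝ) :
    Real.sqrt (∑ i, t i * (∑ l ∈ S, f l i) ^ 2) ≤ ∑ l ∈ S, Real.sqrt (∑ i, t i * f l i ^ 2) := by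
  have h1 : ∀ g : Fin m → ℝ, Real.sqrt (∑ i, t i * g i ^ 2) =
      ‖(WithLp.toLp 2 (fun i => Real.sqrt (t i) * g i) : EuclideanSpace ℝ (Fin m))‖ := by
    intro g
    rw [EuclideanSpace.norm_eq]
    congr 1
    refine Finset.sum_congr rfl fun i _ => ?_
    simp only [Real.norm_eq_abs, sq_abs]
    rw [mul_pow, Real.sq_sqrt (ht i).le]
  rw [h1]
  have h2 : (WithLp.toLp 2 (fun i => Real.sqrt (t i) * ∑ l ∈ S, f l i) :
      EuclideanSpace ℝ (Fin m)) =
      ∑ l ∈ S, (WithLp.toLp 2 (fun i => Real.sqrt (t i) * f l i) : EuclideanSpace ℝ (Fin m)) := by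
    ext i
    simp [Finset.mul_sum]
  rw [h2]
  refine (norm_sum_le _ _).trans (le_of_eq ?_)
  exact Finset.sum_congr rfl fun l _ => (h1 (f l)).symm

lemma fn_sum (S : Finset ℕ) (c : ℕ → Gr d L → ℝ) (y : Gr d L) :
    fn (fun k => ∑ l ∈ S, c l k) y = ∑ l ∈ S, fn (c l) y := by
  unfold fn
  rw [Finset.sum_comm]
  refine Finset.sum_congr rfl fun k _ => ?_
  rw [Finset.sum_mul]

lemma fn_add (u v : Gr d L → ℝ) (x : Gr d L) : fn (fun k => u k + v k) x = fn u x + fn v x := by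
  unfold fn
  rw [← Finset.sum_add_distrib]
  exact Finset.sum_congr rfl fun k _ => by ring

/-- high part -/
def cT (n : ℕ) (c : Gr d L → ℝ) : Gr d L → ℝ := fun k => if n < tot (lvs k) then c k else 0

/-- low part -/
def cV (n : ℕ) (c : Gr d L → ℝ) : Gr d L → ℝ := fun k => if n < tot (lvs k) then 0 else c k

lemma cT_eq (n : ℕ) (c : Gr d L → ℝ) (k : Gr d L) :
    cT n c k = ∑ l ∈ Ioc n (d * L), part l c k := by
  unfold cT part
  rw [Finset.sum_ite_eq]
  have := tot_le k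
  by_cases h : n < tot (lvs k)
  · rw [if_pos h, if_pos (mem_Ioc.2 ⟨h, this⟩)]
  · rw [if_neg h, if_neg (fun h' => h (mem_Ioc.1 h').1)]

lemma c_eq (n : ℕ) (c : Gr d L → ℝ) (k : Gr d L) : c k = cV n c k + cT n c k := by
  unfold cV cT
  split_ifs <;> simp

/-- sum over the indices of total level `l`, by levels -/
lemma sum_tot (hC : SpecCnt) (hd : 1 ≤ d) (l : ℕ) (f : Gr d L → ℝ) :
    (∑ k, if tot (lvs k) = l then f k else 0) = ∑ s ∈ Lay d l, ∑ k with lvs k = s, f k := by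
  rw [← Finset.sum_filter]
  have hmem : ∀ k ∈ univ.filter (fun k : Gr d L => tot (lvs k) = l), lvs k ∈ Lay d l := by
    intro k hk
    rw [(hC d l hd).2.1]
    exact (mem_filter.1 hk).2
  rw [← Finset.sum_fiberwise_of_maps_to hmem]
  refine Finset.sum_congr rfl fun s hs => Finset.sum_congr ?_ fun _ _ => rfl
  ext k
  simp only [mem_filter, mem_univ, true_and]
  constructor
  · rintro ⟨_, h⟩; exact h
  · intro h
    exact ⟨by rw [h]; exact ((hC d l hd).2.1 s).1 hs, h⟩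

lemma wt_pos (d m l : ℕ) (hm : 1 ≤ m) : 0 < wt d m l := by
  have : (0 : ℝ) < m := by exact_mod_cast hm
  unfold wt
  have : 0 ≤ |(l : ℝ) - Nat.log 2 m| := abs_nonneg _
  positivity

lemma bl_nonneg (d : ℕ) (p r : ℝ) (m l : ℕ) : 0 ≤ bl d p r m l := by
  unfold bl
  split_ifs <;> positivity

end CorM

open CorM

theorem specCore (hC : SpecCnt) (hHol : SpecHol) (hSel : SpecSel) (hLay : SpecLayer)
    (hBl : SpecBl) (hNum : SpecNum) : SpecCore := by
  intro d p r hd hp hpr hr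
  obtain ⟨C₀, hC₀, hnum⟩ := hNum d p r hd hp hpr hr
  refine ⟨2 * C₀ + 4, by positivity, ?_⟩
  intro m L hm
  obtain ⟨n, hn1, hn2, hn3, hn4, hn5⟩ := hnum m hm
  have hm1 : 1 ≤ m := by omega
  have hm0 : (0 : ℝ) < m := by exact_mod_cast hm1
  obtain ⟨x, t, A, ht, hts, hsel, hA0, hA1, hA2⟩ := hSel d L m n (wt d m) hd hm hn1
    (fun l => wt_pos d m l hm1) hn2 hn3
  have hR := rate_nonneg d r m
  refine ⟨x, A, ?_, ?_⟩
  · intro c hc
    -- values of the high part
    set v : Fin m → ℝ := fun i => fn (cT n c) (x i) with hv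
    have hv' : ∀ i, v i = ∑ l ∈ Ioc n (d * L), fn (part l c) (x i) := by
      intro i
      rw [hv]
      simp only
      rw [← fn_sum]
      congr 1
      funext k
      exact cT_eq n c k
    have hval : ∀ k, c k - ∑ i, fn c (x i) * A i k = cT n c k - ∑ i, v i * A i k := by
      intro k
      have h1 : ∀ i, fn c (x i) = fn (cV n c) (x i) + v i := by
        intro i
        rw [hv]
        simp only
        rw [← fn_add]
        congr 1
        funext k'
        exact c_eq n c k'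
      have h2 : ∑ i, fn c (x i) * A i k = cV n c k + ∑ i, v i * A i k := by
        rw [← hA1 (cV n c) (fun k' hk' => by unfold cV; rw [if_pos hk']) k,
          ← Finset.sum_add_distrib]
        refine Finset.sum_congr rfl fun i _ => ?_
        rw [h1 i]; ring
      rw [h2, c_eq n c k]
      ring
    have hT : ∑ k, cT n c k ^ 2 ≤ (C₀ * rate d r m) ^ 2 := by
      refine le_trans ?_ (hn5 (d * L))
      have h1 : ∑ k, cT n c k ^ 2 =
          ∑ l ∈ Ioc n (d * L), ∑ k : Gr d L, if tot (lvs k) = l then c k ^ 2 else 0 := by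
        rw [Finset.sum_comm]
        refine Finset.sum_congr rfl fun k _ => ?_
        rw [Finset.sum_ite_eq]
        have := tot_le k
        unfold cT
        by_cases h : n < tot (lvs k)
        · rw [if_pos h, if_pos (mem_Ioc.2 ⟨h, this⟩)]
        · rw [if_neg h, if_neg (fun h' => h (mem_Ioc.1 h').1)]; simp
      rw [h1]
      refine Finset.sum_le_sum fun l _ => ?_
      rw [sum_tot hC hd]
      calc ∑ s ∈ Lay d l, ∑ k : Gr d L with lvs k = s, c k ^ 2
          ≤ ∑ s ∈ Lay d l, ((2 : ℝ) ^ (-(r * l))) ^ 2 := by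
            refine Finset.sum_le_sum fun s hs => ?_
            have := (hHol d L p r hp c hc s).1
            rwa [((hC d l hd).2.1 s).1 hs] at this
        _ = ((Lay d l).card : ℝ) * ((2 : ℝ) ^ (-(r * l))) ^ 2 := by
            rw [Finset.sum_const, nsmul_eq_mul]
        _ ≤ _ := by
            have : ((Lay d l).card : ℝ) ≤ ((l : ℝ) + 1) ^ (d - 1) := by
              exact_mod_cast (hC d l hd).1
            gcongr
    have hlayer : ∀ l ∈ Ioc n (d * L), Real.sqrt (∑ i, t i * fn (part l c) (x i) ^ 2) ≤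
        Real.sqrt m * bl d p r m l := by
      intro l hl
      have hl' := (mem_Ioc.1 hl).1
      have h := hLay d L m n l (wt d m) p r x t hd hm1 hp hl' (fun l => wt_pos d m l hm1) ht hts
        hsel c hc
      have hb := bl_nonneg d p r m l
      have key : ∑ i, t i * fn (part l c) (x i) ^ 2 ≤ m * bl d p r m l ^ 2 := by
        by_cases hlm : l ≤ Nat.log 2 m
        · exact h.1.trans ((hBl d m l p r hd hm1 hp).1 hlm)
        · obtain ⟨lam, hlam, hle⟩ := (hBl d m l p r hd hm1 hp).2 (by omega)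
          exact (h.2 lam hlam).trans hle
      calc Real.sqrt (∑ i, t i * fn (part l c) (x i) ^ 2)
          ≤ Real.sqrt (m * bl d p r m l ^ 2) := Real.sqrt_le_sqrt key
        _ = Real.sqrt m * bl d p r m l := by
            rw [Real.sqrt_mul hm0.le, Real.sqrt_sq hb]
    have hvt : Real.sqrt (∑ i, t i * v i ^ 2) ≤ Real.sqrt m * (C₀ * rate d r m) := by
      calc Real.sqrt (∑ i, t i * v i ^ 2)
          = Real.sqrt (∑ i, t i * (∑ l ∈ Ioc n (d * L), fn (part l c) (x i)) ^ 2) := by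
            congr 1
            exact Finset.sum_congr rfl fun i _ => by rw [hv' i]
        _ ≤ ∑ l ∈ Ioc n (d * L), Real.sqrt (∑ i, t i * fn (part l c) (x i) ^ 2) :=
            mink t ht _ (fun l i => fn (part l c) (x i))
        _ ≤ ∑ l ∈ Ioc n (d * L), Real.sqrt m * bl d p r m l := Finset.sum_le_sum hlayer
        _ = Real.sqrt m * ∑ l ∈ Ioc n (d * L), bl d p r m l := by rw [Finset.mul_sum]
        _ ≤ _ := by
            have := hn4 (d * L)
            gcongr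
    have hvt2 : ∑ i, t i * v i ^ 2 ≤ m * (C₀ * rate d r m) ^ 2 := by
      have h0 : 0 ≤ ∑ i, t i * v i ^ 2 :=
        Finset.sum_nonneg fun i _ => mul_nonneg (ht i).le (sq_nonneg _)
      have h1 := Real.sqrt_nonneg (∑ i, t i * v i ^ 2)
      calc ∑ i, t i * v i ^ 2 = Real.sqrt (∑ i, t i * v i ^ 2) ^ 2 := (Real.sq_sqrt h0).symm
        _ ≤ (Real.sqrt m * (C₀ * rate d r m)) ^ 2 := by gcongr
        _ = _ := by rw [mul_pow, Real.sq_sqrt hm0.le]
    have hW : ∑ k, (∑ i, v i * A i k) ^ 2 ≤ 2 * (C₀ * rate d r m) ^ 2 := by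
      have h1 := (hA2 v).trans hvt2
      have h2 : (m / 2 : ℝ) * ∑ k, (∑ i, v i * A i k) ^ 2 ≤
          (m / 2 : ℝ) * (2 * (C₀ * rate d r m) ^ 2) := by
        refine h1.trans (le_of_eq ?_)
        ring
      exact le_of_mul_le_mul_left h2 (by positivity)
    have hsum : ∑ k, (c k - ∑ i, fn c (x i) * A i k) ^ 2 ≤ 3 * (C₀ * rate d r m) ^ 2 := by
      have h1 : ∀ k, (c k - ∑ i, fn c (x i) * A i k) ^ 2 =
          cT n c k ^ 2 + (∑ i, v i * A i k) ^ 2 := by
        intro k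
        rw [hval k]
        by_cases h : n < tot (lvs k)
        · have : ∑ i, v i * A i k = 0 := by
            refine Finset.sum_eq_zero fun i _ => ?_
            rw [hA0 i k h, mul_zero]
          rw [this]; ring
        · have : cT n c k = 0 := by unfold cT; rw [if_neg h]
          rw [this]; ring
      calc ∑ k, (c k - ∑ i, fn c (x i) * A i k) ^ 2
          = ∑ k, cT n c k ^ 2 + ∑ k, (∑ i, v i * A i k) ^ 2 := by
            rw [← Finset.sum_add_distrib]
            exact Finset.sum_congr rfl fun k _ => h1 k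
        _ ≤ (C₀ * rate d r m) ^ 2 + 2 * (C₀ * rate d r m) ^ 2 := add_le_add hT hW
        _ = _ := by ring
    have hCR : 0 ≤ C₀ * rate d r m := by positivity
    calc Real.sqrt (∑ k, (c k - ∑ i, fn c (x i) * A i k) ^ 2)
        ≤ Real.sqrt ((2 * (C₀ * rate d r m)) ^ 2) := by
          refine Real.sqrt_le_sqrt (hsum.trans ?_)
          nlinarith [sq_nonneg (C₀ * rate d r m)]
      _ = 2 * (C₀ * rate d r m) := Real.sqrt_sq (by positivity)
      _ ≤ (2 * C₀ + 4) * rate d r m := by nlinarith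
  · intro v M hv
    have hM : 0 ≤ M := (abs_nonneg _).trans (hv ⟨0, by omega⟩)
    have h1 : ∑ i, t i * v i ^ 2 ≤ 8 * m * M ^ 2 := by
      calc ∑ i, t i * v i ^ 2 ≤ ∑ i, t i * M ^ 2 := by
            refine Finset.sum_le_sum fun i _ => mul_le_mul_of_nonneg_left ?_ (ht i).le
            exact sq_le_sq' (abs_le.1 (hv i)).1 (abs_le.1 (hv i)).2
        _ = (∑ i, t i) * M ^ 2 := by rw [Finset.sum_mul]
        _ ≤ _ := by gcongr
    have h2 : ∑ k, (∑ i, v i * A i k) ^ 2 ≤ (4 * M) ^ 2 := by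
      have h3 : (m / 2 : ℝ) * ∑ k, (∑ i, v i * A i k) ^ 2 ≤ (m / 2 : ℝ) * (4 * M) ^ 2 := by
        refine ((hA2 v).trans h1).trans (le_of_eq ?_)
        ring
      exact le_of_mul_le_mul_left h3 (by positivity)
    calc Real.sqrt (∑ k, (∑ i, v i * A i k) ^ 2) ≤ Real.sqrt ((4 * M) ^ 2) :=
          Real.sqrt_le_sqrt h2
      _ = 4 * M := Real.sqrt_sq (by positivity)
      _ ≤ (2 * C₀ + 4) * M := by nlinarith

end Pool.Agent.MP_bc5265.S
end

section
/-!
# HOL: Hoelder inequalities for one block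
-/
open Finset

namespace Pool.Agent.MP_bc5265.S

namespace HolM

variable {d L : ℕ}

lemma Ns_pos (s : Fin d → ℕ) : (1 : ℝ) ≤ Ns s := by
  have : 1 ≤ Ns s := by
    unfold Ns
    exact Nat.one_le_iff_ne_zero.2 (Finset.prod_ne_zero_iff.2 fun j _ => by positivity)
  exact_mod_cast this

lemma young (p x : ℝ) (hp : 2 < p) (hx : 0 ≤ x) : x ^ 2 ≤ 2 / p * x ^ p + (1 - 2 / p) := by
  have hp0 : 0 < p := by linarith
  have h1 : 0 ≤ 2 / p := by positivity
  have h2 : 0 ≤ 1 - 2 / p := by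
    rw [sub_nonneg, div_le_one hp0]; exact hp.le
  have h := Real.geom_mean_le_arith_mean2_weighted h1 h2 (Real.rpow_nonneg hx p) zero_le_one
    (by ring)
  rw [Real.one_rpow, mul_one, mul_one, ← Real.rpow_mul hx,
    show p * (2 / p) = 2 by field_simp] at h
  have e : x ^ (2 : ℝ) = x ^ 2 := by exact_mod_cast Real.rpow_natCast x 2
  rw [e] at h
  exact h

end HolM

open HolM

theorem specHol (hH : SpecHaar) : SpecHol := by
  intro d L p r hp c hc s
  have hp0 : 0 < p := by linarith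
  have hN : (1 : ℝ) ≤ Ns s := Ns_pos s
  have hN0 : (0 : ℝ) < Ns s := by linarith
  set E : ℝ := (2 : ℝ) ^ (-(r * tot s)) with hE
  have hE0 : 0 < E := by positivity
  have hB := hc s
  rw [one_mul, ← hE] at hB
  have hsq : ∀ k : Gr d L, (Real.sqrt (Ns s) * |c k|) ^ 2 = Ns s * c k ^ 2 := by
    intro k
    rw [mul_pow, Real.sq_sqrt hN0.le, sq_abs]
  have hb0 : ∀ k : Gr d L, 0 ≤ Real.sqrt (Ns s) * |c k| := fun k => by positivity
  constructor
  · have h1 : ∀ k : Gr d L, c k ^ 2 ≤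
        (Ns s : ℝ)⁻¹ * (2 / p * (E ^ 2 / E ^ p) * (Real.sqrt (Ns s) * |c k|) ^ p +
          (1 - 2 / p) * E ^ 2) := by
      intro k
      have hy := young p (Real.sqrt (Ns s) * |c k| / E) hp (div_nonneg (hb0 k) hE0.le)
      rw [Real.div_rpow (hb0 k) hE0.le, div_pow, hsq] at hy
      have hEp : 0 < E ^ p := Real.rpow_pos_of_pos hE0 p
      rw [inv_mul_eq_div, le_div_iff₀ hN0]
      have h3 : (Ns s : ℝ) * c k ^ 2 ≤
          (2 / p * ((Real.sqrt (Ns s) * |c k|) ^ p / E ^ p) + (1 - 2 / p)) * E ^ 2 := by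
        rwa [div_le_iff₀ (by positivity)] at hy
      calc c k ^ 2 * Ns s = Ns s * c k ^ 2 := by ring
        _ ≤ _ := h3
        _ = _ := by ring
    have hcard : ((univ.filter fun k : Gr d L => lvs k = s).card : ℝ) ≤ Ns s := by
      exact_mod_cast (hH d L).2.2.2 s
    have h2p : 0 ≤ 1 - 2 / p := by
      rw [sub_nonneg, div_le_one hp0]; exact hp.le
    have hEp : 0 < E ^ p := Real.rpow_pos_of_pos hE0 p
    calc ∑ k with lvs k = s, c k ^ 2
        ≤ ∑ k with lvs k = s, (Ns s : ℝ)⁻¹ *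
            (2 / p * (E ^ 2 / E ^ p) * (Real.sqrt (Ns s) * |c k|) ^ p + (1 - 2 / p) * E ^ 2) :=
          Finset.sum_le_sum fun k _ => h1 k
      _ = (Ns s : ℝ)⁻¹ * (2 / p * (E ^ 2 / E ^ p) *
            (∑ k with lvs k = s, (Real.sqrt (Ns s) * |c k|) ^ p) +
            ((univ.filter fun k : Gr d L => lvs k = s).card : ℝ) * ((1 - 2 / p) * E ^ 2)) := by
          rw [← Finset.mul_sum, Finset.sum_add_distrib, ← Finset.mul_sum, Finset.sum_const,
            nsmul_eq_mul]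
      _ ≤ (Ns s : ℝ)⁻¹ * (2 / p * (E ^ 2 / E ^ p) * (Ns s * E ^ p) +
            Ns s * ((1 - 2 / p) * E ^ 2)) := by
          gcongr
      _ = E ^ 2 := by
          field_simp
          ring
  · intro lam hlam
    have h1 : ∀ k : Gr d L, (if lam < Real.sqrt (Ns s) * |c k| then c k ^ 2 else 0) ≤
        (Ns s : ℝ)⁻¹ * lam ^ (2 - p) * (Real.sqrt (Ns s) * |c k|) ^ p := by
      intro k
      split_ifs with hk
      · set b := Real.sqrt (Ns s) * |c k| with hb
        have hbpos : 0 < b := lt_trans hlam hk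
        have h2 : b ^ 2 ≤ lam ^ (2 - p) * b ^ p := by
          have h3 : b ^ (2 - p) ≤ lam ^ (2 - p) :=
            Real.rpow_le_rpow_of_nonpos hlam hk.le (by linarith)
          calc b ^ 2 = b ^ (2 - p) * b ^ p := by
                rw [← Real.rpow_add hbpos, sub_add_cancel]
                exact_mod_cast (Real.rpow_natCast b 2).symm
            _ ≤ _ := by gcongr
        have h4 : c k ^ 2 = (Ns s : ℝ)⁻¹ * b ^ 2 := by
          rw [hb, hsq]; field_simp
        rw [h4, mul_assoc]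
        gcongr
      · positivity
    calc ∑ k with lvs k = s, (if lam < Real.sqrt (Ns s) * |c k| then c k ^ 2 else 0)
        ≤ ∑ k with lvs k = s, (Ns s : ℝ)⁻¹ * lam ^ (2 - p) * (Real.sqrt (Ns s) * |c k|) ^ p :=
          Finset.sum_le_sum fun k _ => h1 k
      _ = (Ns s : ℝ)⁻¹ * lam ^ (2 - p) * ∑ k with lvs k = s, (Real.sqrt (Ns s) * |c k|) ^ p := by
          rw [Finset.mul_sum]
      _ ≤ (Ns s : ℝ)⁻¹ * lam ^ (2 - p) * (Ns s * E ^ p) := by gcongr
      _ = lam ^ (2 - p) * E ^ p := by field_simp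

end Pool.Agent.MP_bc5265.S
end

section
/-!
# LAYER: estimates for one layer
-/
open Finset

namespace Pool.Agent.MP_bc5265.S

namespace LayerM

variable {d L : ℕ}

/-- sum over the indices of total level `l`, by levels -/
lemma sum_tot (hC : SpecCnt) (hd : 1 ≤ d) (l : ℕ) (f : Gr d L → ℝ) :
    (∑ k, if tot (lvs k) = l then f k else 0) = ∑ s ∈ Lay d l, ∑ k with lvs k = s, f k := by
  rw [← Finset.sum_filter]
  have hmem : ∀ k ∈ univ.filter (fun k : Gr d L => tot (lvs k) = l), lvs k ∈ Lay d l := by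
    intro k hk
    rw [(hC d l hd).2.1]
    exact (mem_filter.1 hk).2
  rw [← Finset.sum_fiberwise_of_maps_to hmem]
  refine Finset.sum_congr rfl fun s hs => Finset.sum_congr ?_ fun _ _ => rfl
  ext k
  simp only [mem_filter, mem_univ, true_and]
  constructor
  · rintro ⟨_, h⟩; exact h
  · intro h
    exact ⟨by rw [h]; exact ((hC d l hd).2.1 s).1 hs, h⟩

lemma fn_part (hC : SpecCnt) (hd : 1 ≤ d) (l : ℕ) (c : Gr d L → ℝ) (x : Gr d L) :
    fn (part l c) x = ∑ s ∈ Lay d l, ∑ k with lvs k = s, c k * hh k x := by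
  rw [← sum_tot hC hd l (fun k => c k * hh k x)]
  unfold fn part
  refine Finset.sum_congr rfl fun k _ => ?_
  split_ifs <;> simp

lemma card_Lay (hC : SpecCnt) (hd : 1 ≤ d) (l : ℕ) :
    ((Lay d l).card : ℝ) ≤ ((l : ℝ) + 1) ^ (d - 1) := by
  exact_mod_cast (hC d l hd).1

lemma part_zero (n l : ℕ) (hl : n < l) (c : Gr d L → ℝ) :
    ∀ k, tot (lvs k) ≤ n → part l c k = 0 := by
  intro k hk
  unfold part
  rw [if_neg (by omega)]

lemma sum_part (a : ℕ → ℝ) (l : ℕ) (c : Gr d L → ℝ) :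
    ∑ k, part l c k ^ 2 / a (tot (lvs k)) =
      (∑ k, if tot (lvs k) = l then c k ^ 2 else 0) / a l := by
  rw [Finset.sum_div]
  refine Finset.sum_congr rfl fun k _ => ?_
  unfold part
  split_ifs with h
  · rw [h]
  · simp

/-- the part of `c` above the height `lam` -/
noncomputable def hi (lam : ℝ) (c : Gr d L → ℝ) : Gr d L → ℝ :=
  fun k => if lam < Real.sqrt (Ns (lvs k)) * |c k| then c k else 0

/-- the part of `c` below the height `lam` -/
noncomputable def lo (lam : ℝ) (c : Gr d L → ℝ) : Gr d L → ℝ :=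
  fun k => if lam < Real.sqrt (Ns (lvs k)) * |c k| then 0 else c k

lemma fn_add (u v : Gr d L → ℝ) (x : Gr d L) : fn (fun k => u k + v k) x = fn u x + fn v x := by
  unfold fn
  rw [← Finset.sum_add_distrib]
  exact Finset.sum_congr rfl fun k _ => by ring

end LayerM

open LayerM

theorem specLayer (hH : SpecHaar) (hC : SpecCnt) (hHol : SpecHol) : SpecLayer := by
  intro d L m n l a p r x t hd hm hp hl ha ht hts hsel c hc
  have hK0 : 0 ≤ ((l : ℝ) + 1) ^ (d - 1) := by positivity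
  have hK := card_Lay hC hd l
  constructor
  · refine (hsel (part l c) (part_zero n l hl c)).trans ?_
    rw [sum_part, sum_tot hC hd]
    have h1 : ∑ s ∈ Lay d l, ∑ k : Gr d L with lvs k = s, c k ^ 2 ≤
        ((l : ℝ) + 1) ^ (d - 1) * ((2 : ℝ) ^ (-(r * l))) ^ 2 := by
      calc ∑ s ∈ Lay d l, ∑ k : Gr d L with lvs k = s, c k ^ 2
          ≤ ∑ s ∈ Lay d l, ((2 : ℝ) ^ (-(r * l))) ^ 2 := by
            refine Finset.sum_le_sum fun s hs => ?_
            have := (hHol d L p r hp c hc s).1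
            rwa [((hC d l hd).2.1 s).1 hs] at this
        _ = ((Lay d l).card : ℝ) * ((2 : ℝ) ^ (-(r * l))) ^ 2 := by
            rw [Finset.sum_const, nsmul_eq_mul]
        _ ≤ _ := by gcongr
    have hal := ha l
    gcongr
  · intro lam hlam
    have hsplit : ∀ y : Gr d L, fn (part l c) y = fn (part l (lo lam c)) y +
        fn (part l (hi lam c)) y := by
      intro y
      rw [← fn_add]
      congr 1
      funext k
      unfold part lo hi
      split_ifs <;> simp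
    have hlo : ∀ y : Gr d L, |fn (part l (lo lam c)) y| ≤ ((l : ℝ) + 1) ^ (d - 1) * lam := by
      intro y
      rw [fn_part hC hd]
      calc |∑ s ∈ Lay d l, ∑ k with lvs k = s, lo lam c k * hh k y|
          ≤ ∑ s ∈ Lay d l, |∑ k with lvs k = s, lo lam c k * hh k y| :=
            Finset.abs_sum_le_sum_abs _ _
        _ ≤ ∑ s ∈ Lay d l, lam := by
            refine Finset.sum_le_sum fun s _ => ?_
            refine (hH d L).2.2.1 s y (lo lam c) lam hlam.le fun k hk => ?_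
            unfold lo
            rw [hk]
            split_ifs with h
            · simpa using hlam.le
            · exact not_lt.1 h
        _ = ((Lay d l).card : ℝ) * lam := by rw [Finset.sum_const, nsmul_eq_mul]
        _ ≤ _ := by gcongr
    have hhi : ∑ i, t i * fn (part l (hi lam c)) (x i) ^ 2 ≤
        8 * m * (((l : ℝ) + 1) ^ (d - 1) * (lam ^ (2 - p) * ((2 : ℝ) ^ (-(r * l))) ^ p) / a l) := by
      refine (hsel (part l (hi lam c)) (part_zero n l hl _)).trans ?_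
      rw [sum_part, sum_tot hC hd]
      have h1 : ∑ s ∈ Lay d l, ∑ k : Gr d L with lvs k = s, hi lam c k ^ 2 ≤
          ((l : ℝ) + 1) ^ (d - 1) * (lam ^ (2 - p) * ((2 : ℝ) ^ (-(r * l))) ^ p) := by
        calc ∑ s ∈ Lay d l, ∑ k : Gr d L with lvs k = s, hi lam c k ^ 2
            ≤ ∑ s ∈ Lay d l, lam ^ (2 - p) * ((2 : ℝ) ^ (-(r * l))) ^ p := by
              refine Finset.sum_le_sum fun s hs => ?_
              have := (hHol d L p r hp c hc s).2 lam hlam
              rw [((hC d l hd).2.1 s).1 hs] at this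
              refine le_trans (le_of_eq ?_) this
              refine Finset.sum_congr rfl fun k hk => ?_
              have hk' : lvs k = s := (mem_filter.1 hk).2
              unfold hi
              rw [hk']
              split_ifs <;> simp
          _ = ((Lay d l).card : ℝ) * (lam ^ (2 - p) * ((2 : ℝ) ^ (-(r * l))) ^ p) := by
              rw [Finset.sum_const, nsmul_eq_mul]
          _ ≤ _ := by gcongr
      have hal := ha l
      gcongr
    have hlo2 : ∑ i, t i * fn (part l (lo lam c)) (x i) ^ 2 ≤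
        8 * m * (((l : ℝ) + 1) ^ (d - 1) * lam) ^ 2 := by
      calc ∑ i, t i * fn (part l (lo lam c)) (x i) ^ 2
          ≤ ∑ i, t i * (((l : ℝ) + 1) ^ (d - 1) * lam) ^ 2 := by
            refine Finset.sum_le_sum fun i _ => mul_le_mul_of_nonneg_left ?_ (ht i).le
            exact sq_le_sq' (abs_le.1 (hlo (x i))).1 (abs_le.1 (hlo (x i))).2
        _ = (∑ i, t i) * (((l : ℝ) + 1) ^ (d - 1) * lam) ^ 2 := by rw [Finset.sum_mul]
        _ ≤ _ := by gcongr
    calc ∑ i, t i * fn (part l c) (x i) ^ 2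
        ≤ ∑ i, (2 * (t i * fn (part l (lo lam c)) (x i) ^ 2) +
            2 * (t i * fn (part l (hi lam c)) (x i) ^ 2)) := by
          refine Finset.sum_le_sum fun i _ => ?_
          rw [hsplit]
          nlinarith [mul_nonneg (ht i).le (sq_nonneg (fn (part l (lo lam c)) (x i) -
            fn (part l (hi lam c)) (x i)))]
      _ = 2 * ∑ i, t i * fn (part l (lo lam c)) (x i) ^ 2 +
            2 * ∑ i, t i * fn (part l (hi lam c)) (x i) ^ 2 := by
          rw [Finset.sum_add_distrib, ← Finset.mul_sum, ← Finset.mul_sum]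
      _ ≤ 2 * (8 * m * (((l : ℝ) + 1) ^ (d - 1) * lam) ^ 2) +
            2 * (8 * m * (((l : ℝ) + 1) ^ (d - 1) *
              (lam ^ (2 - p) * ((2 : ℝ) ^ (-(r * l))) ^ p) / a l)) := by
          gcongr
      _ = _ := by ring

end Pool.Agent.MP_bc5265.S
end

section
/-! Weighted least squares. -/
set_option autoImplicit false

open Finset

namespace Pool.Agent.MP_bc5265.S

namespace LsM

variable {ι : Type} [Fintype ι] {m : ℕ}

/-- The operator of the normal equations. -/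
noncomputable def T (y : Fin m → ι → ℝ) (t : Fin m → ℝ) : (ι → ℝ) →ₗ[ℝ] (ι → ℝ) where
  toFun c := ∑ i, (t i * ∑ j, c j * y i j) • y i
  map_add' a c := by
    rw [← sum_add_distrib]
    refine sum_congr rfl fun i _ => ?_
    rw [← add_smul]
    congr 1
    rw [← mul_add, ← sum_add_distrib]
    congr 1
    exact sum_congr rfl fun j _ => by simp only [Pi.add_apply]; ring
  map_smul' r c := by
    simp only [RingHom.id_apply]
    rw [smul_sum]
    refine sum_congr rfl fun i _ => ?_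
    rw [smul_smul]
    congr 1
    rw [mul_left_comm]
    congr 1
    rw [mul_sum]
    exact sum_congr rfl fun j _ => by simp only [Pi.smul_apply, smul_eq_mul]; ring

theorem T_apply (y : Fin m → ι → ℝ) (t : Fin m → ℝ) (c : ι → ℝ) :
    T y t c = ∑ i, (t i * ∑ j, c j * y i j) • y i := rfl

/-- The quadratic form. -/
theorem quad (y : Fin m → ι → ℝ) (t : Fin m → ℝ) (c : ι → ℝ) :
    ∑ k, c k * T y t c k = ∑ i, t i * (∑ j, c j * y i j) ^ 2 := by
  have h1 : ∀ k, c k * T y t c k = ∑ i, t i * (∑ j, c j * y i j) * (c k * y i k) := by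
    intro k
    rw [T_apply, Finset.sum_apply, mul_sum]
    refine sum_congr rfl fun i _ => ?_
    simp only [Pi.smul_apply, smul_eq_mul]
    ring
  simp_rw [h1]
  rw [sum_comm]
  refine sum_congr rfl fun i _ => ?_
  rw [← mul_sum, sq, mul_assoc]

end LsM

open LsM in
theorem specLS : SpecLS := by
  intro ι _ m y t b hb ht hB
  have hinj : Function.Injective (T y t) := by
    rw [← LinearMap.ker_eq_bot, LinearMap.ker_eq_bot']
    intro c hc
    have h1 := hB c
    rw [← quad, hc] at h1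
    simp only [Pi.zero_apply, mul_zero, sum_const_zero] at h1
    have h2 : ∑ j, c j ^ 2 ≤ 0 := by
      by_contra h
      push Not at h
      have := mul_pos hb h
      linarith
    have h3 : ∑ j, c j ^ 2 = 0 := le_antisymm h2 (sum_nonneg fun j _ => sq_nonneg _)
    rw [sum_eq_zero_iff_of_nonneg fun j _ => sq_nonneg _] at h3
    funext j
    exact pow_eq_zero_iff (two_ne_zero) |>.1 (h3 j (mem_univ j))
  let S := LinearEquiv.ofInjectiveEndo (T y t) hinj
  have hS : ∀ c, S c = T y t c := fun c => rfl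
  have hS' : ∀ c, S.symm (T y t c) = c := fun c => by
    rw [← hS, LinearEquiv.symm_apply_apply]
  have hS'' : ∀ c, T y t (S.symm c) = c := fun c => by
    rw [← hS, LinearEquiv.apply_symm_apply]
  refine ⟨fun i => S.symm (t i • y i), ?_, ?_⟩
  · intro c k
    have h1 : ∑ i, (∑ j, c j * y i j) • S.symm (t i • y i) = c := by
      have h0 : ∑ i, (∑ j, c j * y i j) • S.symm (t i • y i) = S.symm (T y t c) := by
        simp_rw [← map_smul, ← map_sum]
        congr 1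
        rw [T_apply]
        refine sum_congr rfl fun i _ => ?_
        rw [smul_smul, mul_comm]
      rw [h0, hS']
    have h2 := congrFun h1 k
    rw [Finset.sum_apply] at h2
    simpa only [Pi.smul_apply, smul_eq_mul] using h2
  · intro v
    set w : ι → ℝ := ∑ i, v i • S.symm (t i • y i) with hw
    have hwk : ∀ k, ∑ i, v i * S.symm (t i • y i) k = w k := by
      intro k
      rw [hw, Finset.sum_apply]
      simp only [Pi.smul_apply, smul_eq_mul]
    simp_rw [hwk]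
    have hTw : T y t w = ∑ i, (v i * t i) • y i := by
      rw [hw]
      simp_rw [← map_smul, ← map_sum]
      rw [hS'']
      exact sum_congr rfl fun i _ => by rw [smul_smul]
    have hQ1 := quad y t w
    have hQ2 : ∑ k, w k * T y t w k = ∑ i, t i * v i * (∑ j, w j * y i j) := by
      have h1 : ∀ k, w k * T y t w k = ∑ i, t i * v i * (w k * y i k) := by
        intro k
        rw [hTw, Finset.sum_apply, mul_sum]
        refine sum_congr rfl fun i _ => ?_
        simp only [Pi.smul_apply, smul_eq_mul]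
        ring
      simp_rw [h1]
      rw [sum_comm]
      refine sum_congr rfl fun i _ => ?_
      rw [← mul_sum]
    have h3 : 0 ≤ ∑ i, t i * (v i - ∑ j, w j * y i j) ^ 2 :=
      sum_nonneg fun i _ => mul_nonneg (ht i).le (sq_nonneg _)
    have h4 : ∑ i, t i * (v i - ∑ j, w j * y i j) ^ 2 =
        ∑ i, t i * v i ^ 2 - 2 * ∑ i, t i * v i * (∑ j, w j * y i j) +
          ∑ i, t i * (∑ j, w j * y i j) ^ 2 := by
      rw [mul_sum, ← sum_sub_distrib, ← sum_add_distrib]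
      exact sum_congr rfl fun i _ => by ring
    have h5 := hB w
    rw [h4, ← hQ2, ← hQ1] at h3
    rw [← hQ1] at h5
    linarith

end Pool.Agent.MP_bc5265.S
end

section
/-!
# NUM: choice of `n` and summation over the layers
-/
open Finset

namespace Pool.Agent.MP_bc5265.S

namespace NumM

/-- splitting a sum at `N` -/
lemma split (F : ℕ → ℝ) (hF : ∀ l, 0 ≤ F l) (N n L' : ℕ) :
    ∑ l ∈ Ioc n L', F l ≤ ∑ j ∈ range (N + 1), F (N - j) + ∑ j ∈ range L', F (N + 1 + j) := by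
  have h1 : Ioc n L' ⊆ range (N + 1 + L') := by
    intro l hl
    have := mem_Ioc.1 hl
    exact mem_range.2 (by omega)
  refine (Finset.sum_le_sum_of_subset_of_nonneg h1 fun l _ _ => hF l).trans (le_of_eq ?_)
  rw [Finset.sum_range_add, ← Finset.sum_range_reflect F (N + 1)]
  congr 1

/-- splitting off the start -/
lemma shift (F : ℕ → ℝ) (hF : ∀ l, 0 ≤ F l) (n L' : ℕ) :
    ∑ l ∈ Ioc n L', F l ≤ ∑ j ∈ range L', F (n + 1 + j) := by
  have h1 : Ioc n L' ⊆ (range L').image (fun j => n + 1 + j) := by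
    intro l hl
    have := mem_Ioc.1 hl
    exact mem_image.2 ⟨l - (n + 1), mem_range.2 (by omega), by omega⟩
  refine (Finset.sum_le_sum_of_subset_of_nonneg h1 fun l _ _ => hF l).trans (le_of_eq ?_)
  rw [Finset.sum_image]
  intro a _ b _ hab
  simp only at hab
  omega

lemma inv_sq (n : ℕ) : ∑ j ∈ range (n + 1), 1 / ((j : ℝ) + 1) ^ 2 ≤ 2 - 1 / ((n : ℝ) + 1) := by
  induction n with
  | zero => norm_num
  | succ n ih =>
    rw [Finset.sum_range_succ]
    have h : 1 / (((n + 1 : ℕ) : ℝ) + 1) ^ 2 ≤ 1 / ((n : ℝ) + 1) - 1 / (((n + 1 : ℕ) : ℝ) + 1) := by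
      push_cast
      have h1 : (0 : ℝ) < (n : ℝ) + 1 := by positivity
      rw [div_sub_div _ _ (by positivity) (by positivity), div_le_div_iff₀ (by positivity)
        (by positivity)]
      nlinarith [h1]
    linarith

lemma inv_sq' (n : ℕ) : ∑ j ∈ range n, 1 / ((j : ℝ) + 1) ^ 2 ≤ 2 := by
  cases n with
  | zero => simp
  | succ n =>
    have := inv_sq n
    have h : 0 ≤ 1 / ((n : ℝ) + 1) := by positivity
    linarith

/-- the series `∑ (j+1)^k q^j` and `∑ (j+2)^k q^(j+1)` -/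
lemma series (k : ℕ) (q : ℝ) (hq : 0 < q) (hq1 : q < 1) : ∃ S : ℝ, 0 < S ∧
    (∀ M : ℕ, ∑ j ∈ range M, ((j : ℝ) + 1) ^ k * q ^ j ≤ S) ∧
    (∀ M : ℕ, ∑ j ∈ range M, ((j : ℝ) + 2) ^ k * q ^ (j + 1) ≤ S) := by
  have hs : Summable (fun n : ℕ => (n : ℝ) ^ k * q ^ n) :=
    summable_pow_mul_geometric_of_norm_lt_one k (by rw [Real.norm_eq_abs, abs_of_pos hq]; exact hq1)
  have hf : ∀ n : ℕ, 0 ≤ (n : ℝ) ^ k * q ^ n := fun n => by positivity
  have hT : 0 ≤ ∑' n : ℕ, (n : ℝ) ^ k * q ^ n := tsum_nonneg hf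
  refine ⟨1 / q * (∑' n : ℕ, (n : ℝ) ^ k * q ^ n) + 1, by positivity, ?_, ?_⟩
  · intro M
    have h1 : ∑ j ∈ range M, ((j : ℝ) + 1) ^ k * q ^ j =
        1 / q * ∑ i ∈ ((range M).image (fun j : ℕ => j + 1) : Finset ℕ), ((i : ℕ) : ℝ) ^ k * q ^ i := by
      rw [Finset.sum_image (by intro a _ b _ hab; simp only at hab; omega), Finset.mul_sum]
      refine Finset.sum_congr rfl fun j _ => ?_
      push_cast
      field_simp
      ring
    rw [h1]
    have := hs.sum_le_tsum ((range M).image (fun j => j + 1)) (fun i _ => hf i)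
    have hq' : 0 ≤ 1 / q := by positivity
    nlinarith [mul_le_mul_of_nonneg_left this hq']
  · intro M
    have h1 : ∑ j ∈ range M, ((j : ℝ) + 2) ^ k * q ^ (j + 1) =
        1 / q * ∑ i ∈ ((range M).image (fun j : ℕ => j + 2) : Finset ℕ), ((i : ℕ) : ℝ) ^ k * q ^ i := by
      rw [Finset.sum_image (by intro a _ b _ hab; simp only at hab; omega), Finset.mul_sum]
      refine Finset.sum_congr rfl fun j _ => ?_
      push_cast
      field_simp
      ring
    rw [h1]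
    have := hs.sum_le_tsum ((range M).image (fun j => j + 2)) (fun i _ => hf i)
    have hq' : 0 ≤ 1 / q := by positivity
    nlinarith [mul_le_mul_of_nonneg_left this hq']

lemma q_lt_one (s : ℝ) (hs : 0 < s) : (2 : ℝ) ^ (-s) < 1 :=
  Real.rpow_lt_one_of_one_lt_of_neg one_lt_two (by linarith)

lemma wt_pos (d m l : ℕ) (hm : 1 ≤ m) : 0 < wt d m l := by
  have : (0 : ℝ) < m := by exact_mod_cast hm
  unfold wt
  have : 0 ≤ |(l : ℝ) - Nat.log 2 m| := abs_nonneg _
  positivity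

lemma bl_nonneg (d : ℕ) (p r : ℝ) (m l : ℕ) : 0 ≤ bl d p r m l := by
  unfold bl
  split_ifs <;> positivity

/-- the layers below `N` -/
lemma blo (d m j : ℕ) (p r : ℝ) (hm : 1 ≤ m) (hr : r < 1 / 2) (hj : j ≤ Nat.log 2 m) :
    bl d p r m (Nat.log 2 m - j) ≤ 12 * (((Nat.log 2 m : ℕ) : ℝ) + 1) ^ (d - 1) * (m : ℝ) ^ (-r) *
      (((j : ℝ) + 1) ^ 1 * ((2 : ℝ) ^ (-(1 / 2 - r))) ^ j) := by
  set N := Nat.log 2 m with hN
  have hm0 : (0 : ℝ) < m := by exact_mod_cast hm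
  have h2N : (2 : ℝ) ^ N ≤ m := by exact_mod_cast Nat.pow_log_le_self 2 (by omega)
  have hcast : ((N - j : ℕ) : ℝ) = (N : ℝ) - j := by push_cast [Nat.cast_sub hj]; ring
  unfold bl
  rw [if_pos (Nat.sub_le _ _), ← hN, hcast]
  have habs : |(N : ℝ) - j - N| = j := by
    rw [show (N : ℝ) - j - N = -(j : ℝ) by ring, abs_neg, abs_of_nonneg (Nat.cast_nonneg j)]
  rw [habs]
  have hK : ((N : ℝ) - j + 1) ^ (d - 1) ≤ ((N : ℝ) + 1) ^ (d - 1) := by
    have h1 : (0 : ℝ) ≤ (N : ℝ) - j := by rw [← hcast]; positivity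
    have h2 : (0 : ℝ) ≤ j := Nat.cast_nonneg j
    gcongr
    linarith
  have hE : Real.sqrt (2 ^ (N - j) / m) * (2 : ℝ) ^ (-(r * ((N : ℝ) - j))) ≤
      (m : ℝ) ^ (-r) * ((2 : ℝ) ^ (-(1 / 2 - r))) ^ j := by
    have e1 : Real.sqrt (2 ^ (N - j) / m) = (2 : ℝ) ^ (((N : ℝ) - j) * (1 / 2)) *
        (m : ℝ) ^ (-(1 / 2 : ℝ)) := by
      rw [Real.sqrt_eq_rpow, Real.div_rpow (by positivity) hm0.le, ← Real.rpow_natCast,
        ← Real.rpow_mul two_pos.le, hcast, Real.rpow_neg hm0.le, div_eq_mul_inv]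
    have e2 : (2 : ℝ) ^ (((N : ℝ) - j) * (1 / 2)) * (2 : ℝ) ^ (-(r * ((N : ℝ) - j))) =
        ((2 : ℝ) ^ (-(1 / 2 - r))) ^ j * ((2 : ℝ) ^ N) ^ (1 / 2 - r) := by
      rw [← Real.rpow_natCast ((2 : ℝ) ^ (-(1 / 2 - r))) j, ← Real.rpow_mul two_pos.le,
        ← Real.rpow_natCast 2 N, ← Real.rpow_mul two_pos.le, ← Real.rpow_add two_pos,
        ← Real.rpow_add two_pos]
      congr 1
      ring
    have h3 : ((2 : ℝ) ^ N) ^ (1 / 2 - r) ≤ (m : ℝ) ^ (1 / 2 - r) :=
      Real.rpow_le_rpow (by positivity) h2N (by linarith)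
    calc Real.sqrt (2 ^ (N - j) / m) * (2 : ℝ) ^ (-(r * ((N : ℝ) - j)))
        = (((2 : ℝ) ^ (((N : ℝ) - j) * (1 / 2))) * (2 : ℝ) ^ (-(r * ((N : ℝ) - j)))) *
            (m : ℝ) ^ (-(1 / 2 : ℝ)) := by rw [e1]; ring
      _ = ((2 : ℝ) ^ (-(1 / 2 - r))) ^ j * ((2 : ℝ) ^ N) ^ (1 / 2 - r) *
            (m : ℝ) ^ (-(1 / 2 : ℝ)) := by rw [e2]
      _ ≤ ((2 : ℝ) ^ (-(1 / 2 - r))) ^ j * (m : ℝ) ^ (1 / 2 - r) *
            (m : ℝ) ^ (-(1 / 2 : ℝ)) := by gcongr
      _ = ((2 : ℝ) ^ (-(1 / 2 - r))) ^ j * ((m : ℝ) ^ (1 / 2 - r) *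
            (m : ℝ) ^ (-(1 / 2 : ℝ))) := by ring
      _ = _ := by
          rw [← Real.rpow_add hm0, mul_comm]
          congr 2
          ring
  calc 12 * (((N : ℝ) - j + 1) ^ (d - 1) * (1 + (j : ℝ))) *
        (Real.sqrt (2 ^ (N - j) / m) * (2 : ℝ) ^ (-(r * ((N : ℝ) - j))))
      ≤ 12 * (((N : ℝ) + 1) ^ (d - 1) * (1 + (j : ℝ))) *
        ((m : ℝ) ^ (-r) * ((2 : ℝ) ^ (-(1 / 2 - r))) ^ j) := by gcongr
    _ = _ := by ring

/-- the layers above `N` -/
lemma bhi (d m j : ℕ) (p r : ℝ) (hd : 1 ≤ d) (hm : 1 ≤ m) (hr : 0 < r) :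
    bl d p r m (Nat.log 2 m + 1 + j) ≤
      17 * (((Nat.log 2 m : ℕ) : ℝ) + 1) ^ (d - 1) * ((2 : ℝ) ^ r * (m : ℝ) ^ (-r)) *
      (((j : ℝ) + 2) ^ d * ((2 : ℝ) ^ (-(r - 1 / p))) ^ (j + 1)) := by
  set N := Nat.log 2 m with hN
  have hm0 : (0 : ℝ) < m := by exact_mod_cast hm
  have h2N : (m : ℝ) ≤ (2 : ℝ) ^ (N + 1) := by
    exact_mod_cast (Nat.lt_pow_succ_log_self one_lt_two m).le
  unfold bl
  rw [if_neg (by omega), ← hN]
  have hcast : ((N + 1 + j : ℕ) : ℝ) = (N : ℝ) + 1 + j := by push_cast; ring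
  rw [hcast]
  have habs : |(N : ℝ) + 1 + j - N| = (j : ℝ) + 1 := by
    rw [show (N : ℝ) + 1 + j - N = (j : ℝ) + 1 by ring, abs_of_nonneg (by positivity)]
  rw [habs]
  have hK : ((N : ℝ) + 1 + j + 1) ^ (d - 1) ≤ (((N : ℝ) + 1) * ((j : ℝ) + 2)) ^ (d - 1) := by
    have h1 : (0 : ℝ) ≤ N := Nat.cast_nonneg N
    have h2 : (0 : ℝ) ≤ j := Nat.cast_nonneg j
    gcongr
    nlinarith [mul_nonneg h1 h2]
  have hE : (2 : ℝ) ^ (-(r * ((N : ℝ) + 1 + j))) * (2 : ℝ) ^ (((N : ℝ) + 1 + j - N) / p) ≤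
      (2 : ℝ) ^ r * (m : ℝ) ^ (-r) * ((2 : ℝ) ^ (-(r - 1 / p))) ^ (j + 1) := by
    have e1 : (2 : ℝ) ^ (-(r * ((N : ℝ) + 1 + j))) * (2 : ℝ) ^ (((N : ℝ) + 1 + j - N) / p) =
        (2 : ℝ) ^ r * ((2 : ℝ) ^ (N + 1)) ^ (-r) * ((2 : ℝ) ^ (-(r - 1 / p))) ^ (j + 1) := by
      rw [← Real.rpow_natCast ((2 : ℝ) ^ (-(r - 1 / p))) (j + 1), ← Real.rpow_mul two_pos.le,
        ← Real.rpow_natCast 2 (N + 1), ← Real.rpow_mul two_pos.le, ← Real.rpow_add two_pos,
        ← Real.rpow_add two_pos, ← Real.rpow_add two_pos]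
      congr 1
      push_cast
      ring
    have h3 : ((2 : ℝ) ^ (N + 1)) ^ (-r) ≤ (m : ℝ) ^ (-r) :=
      Real.rpow_le_rpow_of_nonpos hm0 h2N (by linarith)
    rw [e1]
    gcongr
  have hdd : (((j : ℝ) + 2) ^ (d - 1)) * ((j : ℝ) + 2) = ((j : ℝ) + 2) ^ d := by
    rw [← pow_succ, Nat.sub_add_cancel hd]
  calc 17 * (((N : ℝ) + 1 + j + 1) ^ (d - 1) * (1 + ((j : ℝ) + 1))) *
        ((2 : ℝ) ^ (-(r * ((N : ℝ) + 1 + j))) * (2 : ℝ) ^ (((N : ℝ) + 1 + j - N) / p))
      ≤ 17 * ((((N : ℝ) + 1) * ((j : ℝ) + 2)) ^ (d - 1) * (1 + ((j : ℝ) + 1))) *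
        ((2 : ℝ) ^ r * (m : ℝ) ^ (-r) * ((2 : ℝ) ^ (-(r - 1 / p))) ^ (j + 1)) := by gcongr
    _ = 17 * ((N : ℝ) + 1) ^ (d - 1) * ((2 : ℝ) ^ r * (m : ℝ) ^ (-r)) *
        ((((j : ℝ) + 2) ^ (d - 1) * ((j : ℝ) + 2)) * ((2 : ℝ) ^ (-(r - 1 / p))) ^ (j + 1)) := by
        rw [mul_pow]; ring
    _ = _ := by rw [hdd]

lemma log_bound (m : ℕ) (hm : 8 ≤ m) : ((Nat.log 2 m : ℕ) : ℝ) + 1 ≤ 4 * Real.log m := by
  have hm0 : (0 : ℝ) < m := by
    have : 0 < m := by omega
    exact_mod_cast this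
  have h3 : 3 ≤ Nat.log 2 m := Nat.le_log_of_pow_le one_lt_two (by norm_num; exact hm)
  have h3' : (3 : ℝ) ≤ (Nat.log 2 m : ℕ) := by exact_mod_cast h3
  have h2N : (2 : ℝ) ^ (Nat.log 2 m) ≤ m := by exact_mod_cast Nat.pow_log_le_self 2 (by omega)
  have h4 : (Nat.log 2 m : ℝ) * Real.log 2 ≤ Real.log m := by
    rw [← Real.log_pow]
    exact Real.log_le_log (by positivity) h2N
  have h5 := Real.log_two_gt_d9
  nlinarith

end NumM

open NumM

theorem specNum : SpecNum := by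
  intro d p r hd hp hpr hr
  have hp0 : 0 < p := by linarith
  have hr0 : 0 < r := lt_trans (by positivity) hpr
  obtain ⟨S₁, hS₁, hs1, -⟩ := series 1 ((2 : ℝ) ^ (-(1 / 2 - r))) (by positivity)
    (q_lt_one _ (by linarith))
  obtain ⟨S₂, hS₂, -, hs2⟩ := series d ((2 : ℝ) ^ (-(r - 1 / p))) (by positivity)
    (q_lt_one _ (by linarith))
  obtain ⟨S₃, hS₃, -, hs3⟩ := series (d - 1) ((2 : ℝ) ^ (-(2 * r))) (by positivity)
    (q_lt_one _ (by linarith))
  refine ⟨4 ^ (d - 1) * (12 * S₁ + 17 * (2 : ℝ) ^ r * S₂ + 4 * (1 + S₃)), by positivity, ?_⟩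
  intro m hm
  have hm1 : 1 ≤ m := by omega
  have hm0 : (0 : ℝ) < m := by exact_mod_cast hm1
  set N := Nat.log 2 m with hN
  have hlog : (N : ℝ) + 1 ≤ 4 * Real.log m := log_bound m hm
  have hlog0 : 0 ≤ Real.log m := Real.log_natCast_nonneg m
  have hKN : ((N : ℝ) + 1) ^ (d - 1) ≤ 4 ^ (d - 1) * Real.log m ^ (d - 1) := by
    rw [← mul_pow]
    gcongr
  -- choice of `n`
  obtain ⟨n, hn1, hn2, hn3⟩ : ∃ n : ℕ, 8 * (n + 1) ^ (d - 1) * 2 ^ n ≤ m ∧
      m < 8 * (n + 2) ^ (d - 1) * 2 ^ (n + 1) ∧ n + 3 ≤ N := by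
    set n := Nat.findGreatest (fun n => 8 * (n + 1) ^ (d - 1) * 2 ^ n ≤ m) m with hn
    have hP : 8 * (n + 1) ^ (d - 1) * 2 ^ n ≤ m :=
      Nat.findGreatest_spec (P := fun n => 8 * (n + 1) ^ (d - 1) * 2 ^ n ≤ m) (m := 0)
        (Nat.zero_le m) (by simpa using hm)
    have h3 : n + 3 ≤ N := by
      refine Nat.le_log_of_pow_le one_lt_two ?_
      calc 2 ^ (n + 3) = 8 * 1 * 2 ^ n := by ring
        _ ≤ 8 * (n + 1) ^ (d - 1) * 2 ^ n := by
          gcongr
          exact Nat.one_le_pow _ _ (by omega)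
        _ ≤ m := hP
    have hNm : N ≤ m := Nat.log_le_self 2 m
    refine ⟨n, hP, ?_, h3⟩
    have := Nat.findGreatest_is_greatest (P := fun n => 8 * (n + 1) ^ (d - 1) * 2 ^ n ≤ m)
      (n := m) (k := n + 1) (by omega) (by omega)
    simpa using this
  refine ⟨n, ?_, ?_, ?_, ?_, ?_⟩
  · -- (a)
    have h1 : ∑ l ∈ range (n + 1), (l + 1) ^ (d - 1) * 2 ^ l ≤
        (n + 1) ^ (d - 1) * ∑ l ∈ range (n + 1), 2 ^ l := by
      rw [Finset.mul_sum]
      refine Finset.sum_le_sum fun l hl => ?_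
      have := mem_range.1 hl
      gcongr
      omega
    have h2 : ∑ l ∈ range (n + 1), 2 ^ l ≤ 2 ^ (n + 1) := by
      have := Nat.geomSum_eq (m := 2) (le_refl 2) (n + 1)
      rw [this]
      simp
    calc 4 * ∑ l ∈ range (n + 1), (l + 1) ^ (d - 1) * 2 ^ l
        ≤ 4 * ((n + 1) ^ (d - 1) * ∑ l ∈ range (n + 1), 2 ^ l) := by gcongr
      _ ≤ 4 * ((n + 1) ^ (d - 1) * 2 ^ (n + 1)) := by gcongr
      _ = 8 * (n + 1) ^ (d - 1) * 2 ^ n := by ring
      _ ≤ m := hn1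
  · -- (b)
    intro l hl
    unfold wt
    set u : ℝ := 1 + |(l : ℝ) - Nat.log 2 m| with hu
    have hu1 : 1 ≤ u := by rw [hu]; linarith [abs_nonneg ((l : ℝ) - Nat.log 2 m)]
    have h1 : (m : ℝ) ≤ 8 * (((l : ℝ) + 1) ^ (d - 1) * 2 ^ l) := by
      have : m ≤ 8 * ((l + 1) ^ (d - 1) * 2 ^ l) := by
        calc m ≤ 8 * (n + 2) ^ (d - 1) * 2 ^ (n + 1) := hn2.le
          _ = 8 * ((n + 2) ^ (d - 1) * 2 ^ (n + 1)) := by ring
          _ ≤ 8 * ((l + 1) ^ (d - 1) * 2 ^ l) := by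
            have h5 : n + 2 ≤ l + 1 := by omega
            have h6 : n + 1 ≤ l := by omega
            gcongr
            norm_num
      exact_mod_cast this
    rw [div_le_one (by positivity)]
    have h2 : 1 ≤ u ^ 2 := one_le_pow₀ hu1
    have h3 : 0 ≤ ((l : ℝ) + 1) ^ (d - 1) * 2 ^ l := by positivity
    nlinarith [mul_le_mul_of_nonneg_left h2 h3]
  · -- (c)
    intro L'
    have h1 : ∀ l : ℕ, wt d m l * ((l : ℝ) + 1) ^ (d - 1) * 2 ^ l =
        m / 16 * (1 / (1 + |(l : ℝ) - N|) ^ 2) := by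
      intro l
      unfold wt
      have : 0 ≤ |(l : ℝ) - Nat.log 2 m| := abs_nonneg _
      rw [← hN] at *
      field_simp
    rw [Finset.sum_congr rfl fun l _ => h1 l, ← Finset.mul_sum]
    have h2 : ∑ l ∈ Ioc n L', 1 / (1 + |(l : ℝ) - N|) ^ 2 ≤ 4 := by
      refine (split (fun l => 1 / (1 + |(l : ℝ) - N|) ^ 2) (fun l => by positivity) N n L').trans ?_
      have e1 : ∑ j ∈ range (N + 1), (fun l : ℕ => 1 / (1 + |(l : ℝ) - N|) ^ 2) (N - j) =
          ∑ j ∈ range (N + 1), 1 / ((j : ℝ) + 1) ^ 2 := by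
        refine Finset.sum_congr rfl fun j hj => ?_
        have hj' : j ≤ N := by have := mem_range.1 hj; omega
        simp only
        rw [Nat.cast_sub hj', show (N : ℝ) - j - N = -(j : ℝ) by ring, abs_neg,
          abs_of_nonneg (Nat.cast_nonneg j), add_comm]
      have e2 : ∑ j ∈ range L', (fun l : ℕ => 1 / (1 + |(l : ℝ) - N|) ^ 2) (N + 1 + j) ≤
          ∑ j ∈ range L', 1 / ((j : ℝ) + 1) ^ 2 := by
        refine Finset.sum_le_sum fun j _ => ?_
        simp only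
        push_cast
        rw [show (N : ℝ) + 1 + j - N = (j : ℝ) + 1 by ring, abs_of_nonneg (by positivity)]
        exact one_div_le_one_div_of_le (by positivity)
          (pow_le_pow_left₀ (by positivity) (by linarith) 2)
      rw [e1]
      have := inv_sq' (N + 1)
      have := inv_sq' L'
      linarith
    nlinarith
  · -- (d)
    intro L'
    refine (split (fun l => bl d p r m l) (bl_nonneg d p r m) N n L').trans ?_
    have hB0 : 0 ≤ (m : ℝ) ^ (-r) := by positivity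
    have h1 : ∑ j ∈ range (N + 1), (fun l => bl d p r m l) (N - j) ≤
        12 * ((N : ℝ) + 1) ^ (d - 1) * (m : ℝ) ^ (-r) * S₁ := by
      calc ∑ j ∈ range (N + 1), (fun l => bl d p r m l) (N - j)
          ≤ ∑ j ∈ range (N + 1), 12 * ((N : ℝ) + 1) ^ (d - 1) * (m : ℝ) ^ (-r) *
              (((j : ℝ) + 1) ^ 1 * ((2 : ℝ) ^ (-(1 / 2 - r))) ^ j) := by
            refine Finset.sum_le_sum fun j hj => ?_
            have hj' : j ≤ N := by have := mem_range.1 hj; omega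
            exact blo d m j p r hm1 hr hj'
        _ = 12 * ((N : ℝ) + 1) ^ (d - 1) * (m : ℝ) ^ (-r) *
              ∑ j ∈ range (N + 1), ((j : ℝ) + 1) ^ 1 * ((2 : ℝ) ^ (-(1 / 2 - r))) ^ j := by
            rw [Finset.mul_sum]
        _ ≤ _ := by
            have := hs1 (N + 1)
            gcongr
    have h2 : ∑ j ∈ range L', (fun l => bl d p r m l) (N + 1 + j) ≤
        17 * ((N : ℝ) + 1) ^ (d - 1) * ((2 : ℝ) ^ r * (m : ℝ) ^ (-r)) * S₂ := by
      calc ∑ j ∈ range L', (fun l => bl d p r m l) (N + 1 + j)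
          ≤ ∑ j ∈ range L', 17 * ((N : ℝ) + 1) ^ (d - 1) * ((2 : ℝ) ^ r * (m : ℝ) ^ (-r)) *
              (((j : ℝ) + 2) ^ d * ((2 : ℝ) ^ (-(r - 1 / p))) ^ (j + 1)) := by
            refine Finset.sum_le_sum fun j _ => ?_
            exact bhi d m j p r hd hm1 hr0
        _ = 17 * ((N : ℝ) + 1) ^ (d - 1) * ((2 : ℝ) ^ r * (m : ℝ) ^ (-r)) *
              ∑ j ∈ range L', ((j : ℝ) + 2) ^ d * ((2 : ℝ) ^ (-(r - 1 / p))) ^ (j + 1) := by
            rw [Finset.mul_sum]
        _ ≤ _ := by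
            have := hs2 L'
            gcongr
    have h3 : 12 * ((N : ℝ) + 1) ^ (d - 1) * (m : ℝ) ^ (-r) * S₁ +
        17 * ((N : ℝ) + 1) ^ (d - 1) * ((2 : ℝ) ^ r * (m : ℝ) ^ (-r)) * S₂ =
        ((N : ℝ) + 1) ^ (d - 1) * ((m : ℝ) ^ (-r) * (12 * S₁ + 17 * (2 : ℝ) ^ r * S₂)) := by ring
    refine (add_le_add h1 h2).trans ?_
    rw [h3]
    calc ((N : ℝ) + 1) ^ (d - 1) * ((m : ℝ) ^ (-r) * (12 * S₁ + 17 * (2 : ℝ) ^ r * S₂))
        ≤ (4 ^ (d - 1) * Real.log m ^ (d - 1)) *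
            ((m : ℝ) ^ (-r) * (12 * S₁ + 17 * (2 : ℝ) ^ r * S₂ + 4 * (1 + S₃))) := by
          have h4 : 12 * S₁ + 17 * (2 : ℝ) ^ r * S₂ ≤
              12 * S₁ + 17 * (2 : ℝ) ^ r * S₂ + 4 * (1 + S₃) := by linarith
          exact mul_le_mul hKN (mul_le_mul_of_nonneg_left h4 hB0) (by positivity) (by positivity)
      _ = _ := by unfold rate; ring
  · -- (e)
    intro L'
    have hF : ∀ l : ℕ, 0 ≤ ((l : ℝ) + 1) ^ (d - 1) * ((2 : ℝ) ^ (-(r * l))) ^ 2 :=
      fun l => by positivity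
    refine (shift _ hF n L').trans ?_
    -- the common factor
    set G : ℝ := ((n : ℝ) + 1) ^ (d - 1) * (2 : ℝ) ^ (-(2 * r * n)) with hG
    have hG0 : 0 ≤ G := by positivity
    have h1 : ∑ j ∈ range L', (((n + 1 + j : ℕ) : ℝ) + 1) ^ (d - 1) *
        ((2 : ℝ) ^ (-(r * ((n + 1 + j : ℕ) : ℝ)))) ^ 2 ≤ G * S₃ := by
      calc ∑ j ∈ range L', (((n + 1 + j : ℕ) : ℝ) + 1) ^ (d - 1) *
            ((2 : ℝ) ^ (-(r * ((n + 1 + j : ℕ) : ℝ)))) ^ 2
          ≤ ∑ j ∈ range L', G * (((j : ℝ) + 2) ^ (d - 1) *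
              ((2 : ℝ) ^ (-(2 * r))) ^ (j + 1)) := by
            refine Finset.sum_le_sum fun j _ => ?_
            have e1 : ((2 : ℝ) ^ (-(r * ((n + 1 + j : ℕ) : ℝ)))) ^ 2 =
                (2 : ℝ) ^ (-(2 * r * n)) * ((2 : ℝ) ^ (-(2 * r))) ^ (j + 1) := by
              rw [← Real.rpow_natCast _ 2, ← Real.rpow_mul two_pos.le,
                ← Real.rpow_natCast ((2 : ℝ) ^ (-(2 * r))) (j + 1), ← Real.rpow_mul two_pos.le,
                ← Real.rpow_add two_pos]
              congr 1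
              push_cast
              ring
            have e2 : (((n + 1 + j : ℕ) : ℝ) + 1) ^ (d - 1) ≤
                ((n : ℝ) + 1) ^ (d - 1) * ((j : ℝ) + 2) ^ (d - 1) := by
              rw [← mul_pow]
              have h1 : (0 : ℝ) ≤ n := Nat.cast_nonneg n
              have h2 : (0 : ℝ) ≤ j := Nat.cast_nonneg j
              gcongr
              push_cast
              nlinarith [mul_nonneg h1 h2]
            rw [e1, hG]
            calc (((n + 1 + j : ℕ) : ℝ) + 1) ^ (d - 1) *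
                  ((2 : ℝ) ^ (-(2 * r * n)) * ((2 : ℝ) ^ (-(2 * r))) ^ (j + 1))
                ≤ (((n : ℝ) + 1) ^ (d - 1) * ((j : ℝ) + 2) ^ (d - 1)) *
                  ((2 : ℝ) ^ (-(2 * r * n)) * ((2 : ℝ) ^ (-(2 * r))) ^ (j + 1)) := by gcongr
              _ = _ := by ring
        _ = G * ∑ j ∈ range L', ((j : ℝ) + 2) ^ (d - 1) * ((2 : ℝ) ^ (-(2 * r))) ^ (j + 1) := by
            rw [Finset.mul_sum]
        _ ≤ _ := by
            have := hs3 L'
            gcongr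
    -- bound for the common factor
    have hn2' : (m : ℝ) ≤ 16 * (((n : ℝ) + 2) ^ (d - 1) * 2 ^ n) := by
      have : m ≤ 16 * ((n + 2) ^ (d - 1) * 2 ^ n) := by
        calc m ≤ 8 * (n + 2) ^ (d - 1) * 2 ^ (n + 1) := hn2.le
          _ = _ := by ring
      exact_mod_cast this
    have hN2 : (n : ℝ) + 2 ≤ (N : ℝ) + 1 := by
      have : n + 2 ≤ N + 1 := by omega
      exact_mod_cast this
    have hQ1 : (1 : ℝ) ≤ 16 * ((n : ℝ) + 2) ^ (d - 1) := by
      have : (1 : ℝ) ≤ ((n : ℝ) + 2) ^ (d - 1) :=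
        one_le_pow₀ (by linarith [Nat.cast_nonneg (α := ℝ) n])
      linarith
    have h2 : (2 : ℝ) ^ (-(2 * r * n)) ≤ 16 * ((n : ℝ) + 2) ^ (d - 1) * ((m : ℝ) ^ (-r)) ^ 2 := by
      have e1 : (2 : ℝ) ^ (-(2 * r * n)) = ((2 : ℝ) ^ n) ^ (-(2 * r)) := by
        rw [← Real.rpow_natCast 2 n, ← Real.rpow_mul two_pos.le]
        congr 1
        ring
      have e2 : ((m : ℝ) ^ (-r)) ^ 2 = (m : ℝ) ^ (-(2 * r)) := by
        rw [← Real.rpow_natCast _ 2, ← Real.rpow_mul hm0.le]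
        congr 1
        push_cast
        ring
      have hX : 0 < 16 * ((n : ℝ) + 2) ^ (d - 1) := by positivity
      have e3 : ((2 : ℝ) ^ n) ^ (-(2 * r)) ≤ (m / (16 * ((n : ℝ) + 2) ^ (d - 1))) ^ (-(2 * r)) := by
        refine Real.rpow_le_rpow_of_nonpos (by positivity) ?_ (by linarith)
        rw [div_le_iff₀ hX]
        linarith
      have e4 : (m / (16 * ((n : ℝ) + 2) ^ (d - 1))) ^ (-(2 * r)) =
          (m : ℝ) ^ (-(2 * r)) * (16 * ((n : ℝ) + 2) ^ (d - 1)) ^ (2 * r) := by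
        rw [Real.div_rpow hm0.le hX.le, Real.rpow_neg hX.le, div_inv_eq_mul]
      have e5 : (16 * ((n : ℝ) + 2) ^ (d - 1)) ^ (2 * r) ≤ 16 * ((n : ℝ) + 2) ^ (d - 1) := by
        calc (16 * ((n : ℝ) + 2) ^ (d - 1)) ^ (2 * r)
            ≤ (16 * ((n : ℝ) + 2) ^ (d - 1)) ^ (1 : ℝ) :=
              Real.rpow_le_rpow_of_exponent_le hQ1 (by linarith)
          _ = _ := Real.rpow_one _
      rw [e1, e2]
      refine e3.trans ?_
      rw [e4, mul_comm]
      gcongr
    have h3 : G ≤ 16 * (((N : ℝ) + 1) ^ (d - 1)) ^ 2 * ((m : ℝ) ^ (-r)) ^ 2 := by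
      rw [hG]
      calc ((n : ℝ) + 1) ^ (d - 1) * (2 : ℝ) ^ (-(2 * r * n))
          ≤ ((N : ℝ) + 1) ^ (d - 1) *
              (16 * ((N : ℝ) + 1) ^ (d - 1) * ((m : ℝ) ^ (-r)) ^ 2) := by
            gcongr
            · linarith
            · refine h2.trans ?_
              gcongr
        _ = _ := by ring
    have h4 : 16 * (((N : ℝ) + 1) ^ (d - 1)) ^ 2 * ((m : ℝ) ^ (-r)) ^ 2 * S₃ ≤
        (4 ^ (d - 1) * (12 * S₁ + 17 * (2 : ℝ) ^ r * S₂ + 4 * (1 + S₃)) * rate d r m) ^ 2 := by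
      have h5 : 16 * S₃ ≤ (12 * S₁ + 17 * (2 : ℝ) ^ r * S₂ + 4 * (1 + S₃)) ^ 2 := by
        have h6 : 4 * (1 + S₃) ≤ 12 * S₁ + 17 * (2 : ℝ) ^ r * S₂ + 4 * (1 + S₃) := by
          have : 0 ≤ 12 * S₁ + 17 * (2 : ℝ) ^ r * S₂ := by positivity
          linarith
        calc 16 * S₃ ≤ (4 * (1 + S₃)) ^ 2 := by nlinarith
          _ ≤ _ := by gcongr
      calc 16 * (((N : ℝ) + 1) ^ (d - 1)) ^ 2 * ((m : ℝ) ^ (-r)) ^ 2 * S₃
          = (16 * S₃) * ((((N : ℝ) + 1) ^ (d - 1)) ^ 2 * ((m : ℝ) ^ (-r)) ^ 2) := by ring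
        _ ≤ (12 * S₁ + 17 * (2 : ℝ) ^ r * S₂ + 4 * (1 + S₃)) ^ 2 *
              ((4 ^ (d - 1) * Real.log m ^ (d - 1)) ^ 2 * ((m : ℝ) ^ (-r)) ^ 2) := by gcongr
        _ = _ := by unfold rate; ring
    calc _ ≤ G * S₃ := h1
      _ ≤ 16 * (((N : ℝ) + 1) ^ (d - 1)) ^ 2 * ((m : ℝ) ^ (-r)) ^ 2 * S₃ := by gcongr
      _ ≤ _ := h4

end Pool.Agent.MP_bc5265.S
end

section
/-!
# SEL: choice of the points and of the least squares method
-/
open Finset

namespace Pool.Agent.MP_bc5265.S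

namespace SelM

variable {d L : ℕ}

lemma lv_le (k : ℕ) (hk : k < 2 ^ L) : lv k ≤ L := by
  unfold lv
  split_ifs with h
  · omega
  · exact Nat.log_lt_of_lt_pow h hk

lemma tot_le (k : Gr d L) : tot (lvs k) ≤ d * L := by
  unfold tot lvs
  calc ∑ j, lv (k j) ≤ ∑ _j : Fin d, L := Finset.sum_le_sum fun j _ => lv_le _ (k j).2
    _ = d * L := by simp

/-- number of indices of total level `l` -/
lemma card_tot (hH : SpecHaar) (hC : SpecCnt) (hd : 1 ≤ d) (l : ℕ) :
    (univ.filter fun k : Gr d L => tot (lvs k) = l).card ≤ (l + 1) ^ (d - 1) * 2 ^ l := by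
  have hmem : ∀ k ∈ univ.filter (fun k : Gr d L => tot (lvs k) = l), lvs k ∈ Lay d l := by
    intro k hk
    rw [(hC d l hd).2.1]
    exact (mem_filter.1 hk).2
  rw [Finset.card_eq_sum_card_fiberwise hmem]
  calc ∑ s ∈ Lay d l, ((univ.filter fun k : Gr d L => tot (lvs k) = l).filter
        fun k => lvs k = s).card
      ≤ ∑ s ∈ Lay d l, 2 ^ l := by
        refine Finset.sum_le_sum fun s hs => ?_
        have h1 : tot s = l := ((hC d l hd).2.1 s).1 hs
        calc _ ≤ (univ.filter fun k : Gr d L => lvs k = s).card := by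
              refine Finset.card_le_card fun k hk => ?_
              simp only [mem_filter, mem_univ, true_and] at hk ⊢
              exact hk.2
          _ ≤ Ns s := (hH d L).2.2.2 s
          _ ≤ 2 ^ tot s := (hC d l hd).2.2 s
          _ = 2 ^ l := by rw [h1]
    _ = (Lay d l).card * 2 ^ l := by rw [Finset.sum_const, smul_eq_mul]
    _ ≤ _ := Nat.mul_le_mul_right _ (hC d l hd).1

lemma sum_sub (P : Gr d L → Prop) [DecidablePred P] (f : Gr d L → ℝ) (hf : ∀ k, ¬ P k → f k = 0) :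
    ∑ k, f k = ∑ j : {k : Gr d L // P k}, f j.1 := by
  rw [← Finset.sum_subtype (univ.filter P) (by simp) f, Finset.sum_filter_of_ne]
  intro k _ hk
  by_contra h
  exact hk (hf k h)

/-- the weights -/
noncomputable def ww (n : ℕ) (a : ℕ → ℝ) (k : Gr d L) : ℝ :=
  if tot (lvs k) = 0 then 1 else if tot (lvs k) ≤ n then 0 else a (tot (lvs k))

lemma lvs_zero (k : Gr d L) (hk : ∀ j, ((k j : Fin (2 ^ L)) : ℕ) = 0) : tot (lvs k) = 0 := by
  unfold tot lvs
  refine Finset.sum_eq_zero fun j _ => ?_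
  rw [hk j]
  rfl

end SelM

open SelM

theorem specSel (hBSS : SpecBSS) (hLS : SpecLS) (hH : SpecHaar) (hC : SpecCnt) : SpecSel := by
  intro d L m n a hd hm hn ha ha1 hsum
  have hm0 : (0 : ℝ) < m := by
    have : 0 < m := by omega
    exact_mod_cast this
  have hm8 : (8 : ℝ) ≤ m := by exact_mod_cast hm
  set w : Gr d L → ℝ := ww n a with hw
  have hw0 : ∀ k, 0 ≤ w k := by
    intro k; rw [hw]; unfold ww
    split_ifs
    · exact zero_le_one
    · exact le_refl _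
    · exact (ha _).le
  have hw1 : ∀ k, w k ≤ 1 := by
    intro k; rw [hw]; unfold ww
    split_ifs with h1 h2
    · exact le_refl _
    · exact zero_le_one
    · exact ha1 _ (by omega)
  have hwT : ∀ k, n < tot (lvs k) → w k = a (tot (lvs k)) := by
    intro k hk; rw [hw]; unfold ww
    rw [if_neg (by omega), if_neg (by omega)]
  have : Nonempty (Gr d L) := ⟨fun _ => ⟨0, by positivity⟩⟩
  have hcard : (Fintype.card (Gr d L) : ℝ) = (2 : ℝ) ^ (d * L) := by
    simp only [Fintype.card_pi, Fintype.card_fin, Finset.prod_const, Finset.card_univ]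
    push_cast
    rw [← pow_mul, mul_comm]
  have hcardι : 4 * Fintype.card {k : Gr d L // tot (lvs k) ≤ n} ≤ m := by
    refine le_trans ?_ hn
    refine Nat.mul_le_mul_left 4 ?_
    rw [Fintype.card_subtype]
    have hmem : ∀ k ∈ univ.filter (fun k : Gr d L => tot (lvs k) ≤ n),
        tot (lvs k) ∈ range (n + 1) := by
      intro k hk
      have := (mem_filter.1 hk).2
      exact mem_range.2 (by omega)
    rw [Finset.card_eq_sum_card_fiberwise hmem]
    refine Finset.sum_le_sum fun l _ => ?_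
    refine le_trans (Finset.card_le_card ?_) (card_tot hH hC hd l (L := L))
    intro k hk
    simp only [mem_filter, mem_univ, true_and] at hk ⊢
    exact hk.2
  have hwsum : ∑ k, w k ≤ 1 + m / 4 := by
    have h1 : ∀ k, w k = (if tot (lvs k) = 0 then 1 else 0) +
        ∑ l ∈ Ioc n (d * L), if tot (lvs k) = l then a l else 0 := by
      intro k
      rw [Finset.sum_ite_eq, hw]
      unfold ww
      have := tot_le k
      by_cases h0 : tot (lvs k) = 0
      · rw [if_pos h0, if_pos h0, if_neg (fun h' => by have := (mem_Ioc.1 h').1; omega)]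
        simp
      · rw [if_neg h0, if_neg h0]
        by_cases h : tot (lvs k) ≤ n
        · rw [if_pos h, if_neg (fun h' => by have := (mem_Ioc.1 h').1; omega)]
          simp
        · rw [if_neg h, if_pos (mem_Ioc.2 ⟨by omega, this⟩)]
          simp
    rw [Finset.sum_congr rfl fun k _ => h1 k, Finset.sum_add_distrib, Finset.sum_comm]
    refine add_le_add ?_ ?_
    · rw [← Finset.sum_filter, Finset.sum_const, nsmul_eq_mul, mul_one]
      have := card_tot hH hC hd 0 (L := L)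
      simp only [zero_add, one_pow, pow_zero, mul_one] at this
      exact_mod_cast this
    · refine le_trans (Finset.sum_le_sum fun l _ => ?_) (hsum (d * L))
      rw [← Finset.sum_filter, Finset.sum_const, nsmul_eq_mul]
      have h2 : ((univ.filter fun k : Gr d L => tot (lvs k) = l).card : ℝ) ≤
          ((l : ℝ) + 1) ^ (d - 1) * 2 ^ l := by exact_mod_cast card_tot hH hC hd l (L := L)
      calc ((univ.filter fun k : Gr d L => tot (lvs k) = l).card : ℝ) * a l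
          ≤ (((l : ℝ) + 1) ^ (d - 1) * 2 ^ l) * a l :=
            mul_le_mul_of_nonneg_right h2 (ha l).le
        _ = _ := by ring
  obtain ⟨ω, t, ht, hlow, hup⟩ := hBSS (Gr d L) {k : Gr d L // tot (lvs k) ≤ n} (Gr d L)
    (fun x i => hh i.1 x) (fun x k => Real.sqrt (w k) * hh k x) w (1 + m / 4) m
    (by
      intro i j
      rw [(hH d L).1 i.1 j.1, hcard]
      by_cases h : i = j
      · rw [if_pos h, if_pos (by rw [h])]
      · rw [if_neg h, if_neg (fun h' => h (Subtype.ext h'))])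
    (by
      intro i j
      have h1 : ∑ x, Real.sqrt (w i) * hh i x * (Real.sqrt (w j) * hh j x) =
          Real.sqrt (w i) * Real.sqrt (w j) * ∑ x, hh i x * hh j x := by
        rw [Finset.mul_sum]
        exact Finset.sum_congr rfl fun x _ => by ring
      rw [h1, (hH d L).1 i j, hcard]
      by_cases h : i = j
      · rw [if_pos h, if_pos h, h, Real.mul_self_sqrt (hw0 j)]
        ring
      · rw [if_neg h, if_neg h, mul_zero])
    hw0 hw1 hwsum hcardι (by omega)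
  have hup' : ∀ c : Gr d L → ℝ, ∑ i, t i * (∑ j, c j * (Real.sqrt (w j) * hh j (ω i))) ^ 2 ≤
      8 * m * ∑ j, c j ^ 2 := by
    intro c
    refine (hup c).trans (mul_le_mul_of_nonneg_right ?_ (Finset.sum_nonneg fun _ _ => sq_nonneg _))
    linarith
  obtain ⟨A', hA1, hA2⟩ := hLS {k : Gr d L // tot (lvs k) ≤ n} m (fun i k => hh k.1 (ω i)) t
    (m / 2) (by positivity) ht hlow
  refine ⟨ω, t, fun i k => if h : tot (lvs k) ≤ n then A' i ⟨k, h⟩ else 0, ht, ?_, ?_, ?_, ?_, ?_⟩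
  · -- total weight
    set k0 : Gr d L := fun _ => ⟨0, by positivity⟩ with hk0
    have hk0t : tot (lvs k0) = 0 := lvs_zero k0 fun j => rfl
    have hwk0 : w k0 = 1 := by rw [hw]; unfold ww; rw [if_pos hk0t]
    have hhk0 : ∀ x : Gr d L, hh k0 x = 1 := by
      intro x
      unfold hh
      refine Finset.prod_eq_one fun j _ => ?_
      unfold hg
      rw [if_pos rfl]
    have h := hup' (fun k => if k = k0 then 1 else 0)
    have e1 : ∀ i, ∑ j, (if j = k0 then (1 : ℝ) else 0) * (Real.sqrt (w j) * hh j (ω i)) = 1 := by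
      intro i
      rw [Finset.sum_eq_single k0]
      · rw [if_pos rfl, hwk0, hhk0]; simp
      · intro b _ hb
        rw [if_neg hb, zero_mul]
      · intro h'; exact absurd (mem_univ _) h'
    have e2 : ∑ j : Gr d L, (if j = k0 then (1 : ℝ) else 0) ^ 2 = 1 := by
      rw [Finset.sum_eq_single k0]
      · simp
      · intro b _ hb
        rw [if_neg hb]; simp
      · intro h'; exact absurd (mem_univ _) h'
    rw [e2, mul_one] at h
    refine le_trans (le_of_eq ?_) h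
    refine Finset.sum_congr rfl fun i _ => ?_
    rw [e1 i]; ring
  · intro c hc
    have h := hup' (fun k => c k / Real.sqrt (a (tot (lvs k))))
    have e1 : ∀ i, ∑ j, c j / Real.sqrt (a (tot (lvs j))) * (Real.sqrt (w j) * hh j (ω i)) =
        fn c (ω i) := by
      intro i
      unfold fn
      refine Finset.sum_congr rfl fun j _ => ?_
      by_cases hj : tot (lvs j) ≤ n
      · rw [hc j hj]; simp
      · rw [hwT j (by omega)]
        have : Real.sqrt (a (tot (lvs j))) ≠ 0 := (Real.sqrt_pos.2 (ha _)).ne'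
        field_simp
    have e2 : ∀ j, (c j / Real.sqrt (a (tot (lvs j)))) ^ 2 = c j ^ 2 / a (tot (lvs j)) := by
      intro j
      rw [div_pow, Real.sq_sqrt (ha _).le]
    rw [Finset.sum_congr rfl fun j _ => e2 j] at h
    refine le_trans (le_of_eq ?_) h
    refine Finset.sum_congr rfl fun i _ => ?_
    rw [e1 i]
  · intro i k hk
    simp only
    rw [dif_neg (by omega)]
  · intro c hc k
    have hfn : ∀ i, fn c (ω i) = ∑ j : {k : Gr d L // tot (lvs k) ≤ n}, c j.1 * hh j.1 (ω i) := by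
      intro i
      unfold fn
      exact sum_sub (fun k => tot (lvs k) ≤ n) (fun k => c k * hh k (ω i))
        (fun k hk => by rw [hc k (by omega), zero_mul])
    by_cases hk : tot (lvs k) ≤ n
    · have := hA1 (fun j => c j.1) ⟨k, hk⟩
      simp only at this
      rw [← this]
      refine Finset.sum_congr rfl fun i _ => ?_
      rw [hfn i]
      simp only
      rw [dif_pos hk]
    · simp only
      rw [hc k (by omega)]
      refine Finset.sum_eq_zero fun i _ => ?_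
      rw [dif_neg hk, mul_zero]
  · intro v
    refine le_trans (le_of_eq ?_) (hA2 v)
    congr 1
    rw [sum_sub (fun k => tot (lvs k) ≤ n)
      (fun k => (∑ i, v i * (if h : tot (lvs k) ≤ n then A' i ⟨k, h⟩ else 0)) ^ 2)]
    · refine Finset.sum_congr rfl fun j _ => ?_
      congr 1
      refine Finset.sum_congr rfl fun i _ => ?_
      rw [dif_pos j.2]
    · intro k hk
      have : ∑ i, v i * (if h : tot (lvs k) ≤ n then A' i ⟨k, h⟩ else 0) = 0 :=
        Finset.sum_eq_zero fun i _ => by rw [dif_neg hk, mul_zero]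
      rw [this]; ring

end Pool.Agent.MP_bc5265.S
end
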