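import Mathlib
import Pool.Agent.Lib.MP_bc5265_an.S.Defs
import Pool.Agent.Lib.MP_bc5265_an.R2.SpecA
import Pool.Agent.Lib.MP_bc5265_an.R2.RW
import Pool.Agent.Lib.MP_bc5265_an.R2.WTS
import Pool.Agent.Lib.MP_bc5265_an.RQ.BQ
import Pool.Agent.Lib.MP_bc5265_an.R2.UG
import Pool.Agent.Lib.MP_bc5265_an.R2.DNB
import Pool.Agent.Lib.MP_bc5265_an.RQ.NO2
import Pool.Agent.Lib.MP_bc5265_an.R2.RND
import Pool.Agent.Lib.MP_bc5265_an.R2.SCA
import Pool.Agent.Lib.MP_bc5265_an.RQ.RWQ
import Pool.Agent.Lib.MP_bc5265_an.RQ.WN2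
import Pool.Agent.Lib.MP_bc5265_an.RQ.Spec
import Pool.Agent.Lib.MP_bc5265_an.S.Sel
import Pool.Agent.Lib.MP_bc5265_an.S.Blk

section
/-!
PTS: the grid points on the torus. PARS: Parseval for grid functions. CTS: approximation by
continuous functions. REIM: real and imaginary parts.
-/
set_option linter.unusedSectionVars false

open MeasureTheory Finset
open scoped ENNReal fwdDiff

namespace Pool.Agent.MP_bc5265.S

noncomputable section

namespace PtsM

lemma E_left (L κ : ℕ) (hκ : κ < 2 ^ L) :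
    E L (((2 * Real.pi * ((κ : ℝ) / 2 ^ L) : ℝ)) : Circ) = κ := by
  have h2 : (0 : ℝ) < 2 ^ L := by positivity
  have hκ' : (κ : ℝ) < 2 ^ L := by exact_mod_cast hκ
  have h1 : (2 * Real.pi * ((κ : ℝ) / 2 ^ L)) / (2 * Real.pi) = (κ : ℝ) / 2 ^ L := by
    field_simp
  have h3 : Int.fract ((κ : ℝ) / 2 ^ L) = (κ : ℝ) / 2 ^ L := by
    rw [Int.fract_eq_self]
    constructor
    · positivity
    · rw [div_lt_one h2]; exact hκ'
  rw [E_eq_iff, uc_coe, h1, h3]
  have h4 : (2 : ℝ) ^ L * ((κ : ℝ) / 2 ^ L) = κ := by field_simp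
  rw [h4]
  constructor <;> linarith

end PtsM

theorem specPts : SpecPts := by
  intro d L ω
  refine ⟨fun j => ((2 * Real.pi * (((ω j : ℕ) : ℝ) / 2 ^ L) : ℝ) : Circ), ?_⟩
  funext j
  apply Fin.ext
  exact PtsM.E_left L (ω j) (ω j).2

end

end Pool.Agent.MP_bc5265.S
end

section
/-!
# UPT: the upper bound on the torus, explicit form
-/
set_option linter.unusedSectionVars false

open MeasureTheory Finset Matrix
open scoped ENNReal

namespace Pool.Agent.MP_bc5265.R2

open Pool.Agent.MP_bc5265.S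

noncomputable section

namespace UPTM

variable {d L : ℕ}

/-- The norm of a function of the cell. -/
lemma eLpNorm_comp_gx (F : Gr d L → ℝ) (p : ℝ) (hp : 0 < p) :
    eLpNorm (fun x : Torus d => F (gx L x)) (ENNReal.ofReal p) (μT d) =
      ENNReal.ofReal (nrm p F) := by
  have hm : Measurable (fun x : Torus d => F (gx L x)) := ParsM.measurable_comp_gx F
  have hmem : MemLp (fun x : Torus d => F (gx L x)) (ENNReal.ofReal p) (μT d) := by
    refine MemLp.of_bound hm.aestronglyMeasurable (∑ k, |F k|) ?_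
    filter_upwards with x
    exact Finset.single_le_sum (f := fun k => |F k|) (fun _ _ => abs_nonneg _)
      (Finset.mem_univ _)
  rw [hmem.eLpNorm_eq_integral_rpow_norm (by simpa using hp) ENNReal.ofReal_ne_top]
  rw [ENNReal.toReal_ofReal hp.le]
  congr 1
  have h1 : ∀ x : Torus d, ‖F (gx L x)‖ ^ p = (fun k => |F k| ^ p) (gx L x) := by
    intro x
    simp
  simp only [h1]
  rw [ParsM.integral_comp_gx (fun k => |F k| ^ p)]
  unfold nrm mom
  rw [one_div]
  congr 2
  simp only [Fintype.card_fun, Fintype.card_fin, Nat.cast_pow, Nat.cast_ofNat]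
  rw [← pow_mul, mul_comm]

/-- Every grid function is a Haar sum. -/
lemma exists_fn (F : Gr d L → ℝ) : ∃ c : Gr d L → ℝ, ∀ X, fn c X = F X := by
  have h1 := (specHaar d L).2.1
  refine ⟨fun k => (∑ x, F x * hh k x) / 2 ^ (d * L), fun X => ?_⟩
  unfold fn
  have h2 : ∀ k : Gr d L, (∑ x, F x * hh k x) / 2 ^ (d * L) * hh k X =
      ∑ x, F x / 2 ^ (d * L) * (hh k x * hh k X) := by
    intro k
    rw [Finset.sum_div, Finset.sum_mul]
    exact Finset.sum_congr rfl fun x _ => by ring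
  simp only [h2]
  rw [Finset.sum_comm]
  have h3 : ∀ x : Gr d L, ∑ k, F x / 2 ^ (d * L) * (hh k x * hh k X) =
      if x = X then F x else 0 := by
    intro x
    rw [← Finset.mul_sum, h1 x X]
    split_ifs
    · field_simp
    · simp
  simp only [h3]
  simp

lemma exists_cts (F : Gr d L → ℝ) (η : ℝ) (hη : 0 < η) : ∃ ψ : C(Torus d, ℝ),
    eLpNorm (fun x : Torus d => F (gx L x) - ψ x) 2 (μT d) ≤ ENNReal.ofReal η := by
  obtain ⟨c, hc⟩ := exists_fn F
  obtain ⟨ψ, hψ⟩ := specCts d L c η hη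
  refine ⟨ψ, ?_⟩
  simpa only [hc] using hψ

/-- The bound for functions in the class from the level zero. -/
lemma abs_avc_zero (p B : ℝ) (hp : 0 < p) (l : ℕ) (r : ℝ) (F : Gr d 0 → ℝ)
    (h : Cls l r p B F) (X : Gr d 0) : |F X| ≤ B := by
  have h1 := h ∅ (fun _ => 0)
  have huniq : ∀ k : Gr d 0, k = X := by
    intro k
    funext j
    apply Fin.ext
    have h2 := (k j).2
    have h3 := (X j).2
    simp only [pow_zero] at h2 h3
    omega
  have hcard : Fintype.card (Gr d 0) = 1 := by simp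
  have h2 : ∀ x : Gr d 0, ((tens fun j => if j ∈ (∅ : Finset (Fin d)) then DM 0 l 0 else 1) *ᵥ F) x
      = F X := by
    intro x
    simp only [Matrix.mulVec, dotProduct]
    rw [Finset.sum_eq_single_of_mem X (Finset.mem_univ X) (fun b _ hb => absurd (huniq b) hb)]
    rw [huniq x]
    simp [tens]
  unfold nrm mom at h1
  simp only [h2] at h1
  rw [Finset.sum_const, Finset.card_univ, hcard] at h1
  simp only [one_smul, Nat.cast_one, div_one, Finset.prod_empty, mul_one] at h1
  rw [← Real.rpow_mul (abs_nonneg _), mul_one_div_cancel hp.ne', Real.rpow_one] at h1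
  exact h1

/-- Scaling of the discrete class. -/
lemma cls_scale (l : ℕ) (r p B : ℝ) (hp : 1 ≤ p) (hB : 0 < B) (F : Gr d L → ℝ)
    (h : Cls l r p B F) : Cls l r p 1 (B⁻¹ • F) := by
  intro e t
  have h1 := h e t
  rw [Matrix.mulVec_smul, (specNRM (Gr d L) p hp).2.2.2.1, abs_of_pos (inv_pos.2 hB)]
  refine (mul_le_mul_of_nonneg_left h1 (inv_nonneg.2 hB.le)).trans (le_of_eq ?_)
  rw [← mul_assoc, inv_mul_cancel₀ hB.ne']

lemma mulVec_cols (A : MG d L) (S : Finset (Gr d L)) (hS : Cols A S) (w : Gr d L → ℝ)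
    (x : Gr d L) : (A *ᵥ w) x = ∑ X ∈ S, A x X * w X := by
  simp only [Matrix.mulVec, dotProduct]
  refine (Finset.sum_subset (Finset.subset_univ S) fun X _ hX => ?_).symm
  rw [hS x X hX, zero_mul]

/-- The real case. -/
lemma real_case (p B Cn η εL K : ℝ) (hp : 1 ≤ p) (hp2 : p ≤ 2) (hB : 0 ≤ B) (hCn : 0 ≤ Cn)
    (hK : 0 ≤ K) (hη : 0 ≤ η) (A : MG d L) (S : Finset (Gr d L)) (hS : Cols A S)
    (hSup : SupB A Cn) (pt : Gr d L → Torus d) (hpt : ∀ X, gx L (pt X) = X)
    (ψ : Gr d L → C(Torus d, ℝ))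
    (hψ : ∀ X, eLpNorm (fun y : Torus d => A (gx L y) X - ψ X y) 2 (μT d) ≤ ENNReal.ofReal η)
    (F : Gr d L → ℝ) (hF : nrm p (F - A *ᵥ F) ≤ B) (g : C(Torus d, ℝ))
    (hε : ∀ y, |g y - F (gx L y)| ≤ εL) (hgK : ∀ y, |g y| ≤ K) :
    eLpNorm (fun y => g y - ∑ X ∈ S, g (pt X) * ψ X y) (ENNReal.ofReal p) (μT d) ≤
      ENNReal.ofReal (εL + B + Cn * εL + S.card * (K * η)) := by
  have hεL0 : 0 ≤ εL := (abs_nonneg _).trans (hε 0)
  have hp0 : 0 < p := by linarith
  have hp1 : (1 : ℝ≥0∞) ≤ ENNReal.ofReal p := by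
    rw [← ENNReal.ofReal_one]
    exact ENNReal.ofReal_le_ofReal hp
  have hp2' : ENNReal.ofReal p ≤ (2 : ℝ≥0∞) := by
    rw [show (2 : ℝ≥0∞) = ENNReal.ofReal 2 by simp]
    exact ENNReal.ofReal_le_ofReal hp2
  let w : Gr d L → ℝ := fun X => F X - g (pt X)
  let T1 : Torus d → ℝ := fun y => g y - F (gx L y)
  let T2 : Torus d → ℝ := fun y => (F - A *ᵥ F) (gx L y)
  let T3 : Torus d → ℝ := fun y => (A *ᵥ w) (gx L y)
  let T4 : Torus d → ℝ := ∑ X ∈ S, g (pt X) • fun y => (A (gx L y) X - ψ X y)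
  have hsum : (fun y => g y - ∑ X ∈ S, g (pt X) * ψ X y) = T1 + T2 + T3 + T4 := by
    funext y
    simp only [T1, T2, T3, T4, Pi.add_apply, Finset.sum_apply, Pi.smul_apply, smul_eq_mul,
      Pi.sub_apply, mulVec_cols A S hS, w]
    simp only [mul_sub, Finset.sum_sub_distrib]
    have h1 : ∑ x ∈ S, g (pt x) * A (gx L y) x = ∑ x ∈ S, A (gx L y) x * g (pt x) :=
      Finset.sum_congr rfl fun x _ => mul_comm _ _
    rw [h1]
    ring
  have hT1 : AEStronglyMeasurable T1 (μT d) :=
    (g.continuous.measurable.sub (ParsM.measurable_comp_gx F)).aestronglyMeasurable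
  have hT2 : AEStronglyMeasurable T2 (μT d) := (ParsM.measurable_comp_gx _).aestronglyMeasurable
  have hT3 : AEStronglyMeasurable T3 (μT d) := (ParsM.measurable_comp_gx _).aestronglyMeasurable
  have hTi : ∀ X, AEStronglyMeasurable (fun y : Torus d => (A (gx L y) X - ψ X y)) (μT d) :=
    fun X => ((ParsM.measurable_comp_gx (fun z => A z X)).sub
      (ψ X).continuous.measurable).aestronglyMeasurable
  have hT4 : AEStronglyMeasurable T4 (μT d) :=
    Finset.aestronglyMeasurable_sum _ fun i _ => (hTi i).const_smul _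
  have hn1 : eLpNorm T1 (ENNReal.ofReal p) (μT d) ≤ ENNReal.ofReal εL := by
    refine (eLpNorm_le_of_ae_bound (C := εL) (by filter_upwards with y; exact hε y)).trans ?_
    simp
  have hn2 : eLpNorm T2 (ENNReal.ofReal p) (μT d) ≤ ENNReal.ofReal B :=
    (le_of_eq (eLpNorm_comp_gx _ p hp0)).trans (ENNReal.ofReal_le_ofReal hF)
  have hw : ∀ X, |w X| ≤ εL := by
    intro X
    have := hε (pt X)
    rw [hpt X, abs_sub_comm] at this
    exact this
  have hn3 : eLpNorm T3 (ENNReal.ofReal p) (μT d) ≤ ENNReal.ofReal (Cn * εL) := by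
    refine (eLpNorm_le_of_ae_bound (C := Cn * εL)
      (by filter_upwards with y; exact hSup w εL hw _)).trans ?_
    simp
  have hn4 : eLpNorm T4 (ENNReal.ofReal p) (μT d) ≤ ENNReal.ofReal (S.card * (K * η)) := by
    refine (eLpNorm_sum_le (fun i _ => (hTi i).const_smul _) hp1).trans ?_
    have h3 : ∀ X ∈ S,
        eLpNorm (g (pt X) • fun y : Torus d => (A (gx L y) X - ψ X y)) (ENNReal.ofReal p) (μT d) ≤
          ENNReal.ofReal (K * η) := by
      intro X _
      rw [eLpNorm_const_smul, ENNReal.ofReal_mul (by positivity)]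
      refine mul_le_mul' ?_ ((eLpNorm_le_eLpNorm_of_exponent_le hp2' (hTi X)).trans (hψ X))
      rw [← ofReal_norm, Real.norm_eq_abs]
      exact ENNReal.ofReal_le_ofReal (hgK _)
    refine (Finset.sum_le_sum h3).trans (le_of_eq ?_)
    rw [Finset.sum_const, nsmul_eq_mul, ENNReal.ofReal_mul (Nat.cast_nonneg _),
      ENNReal.ofReal_natCast]
  rw [hsum]
  calc eLpNorm (T1 + T2 + T3 + T4) (ENNReal.ofReal p) (μT d)
      ≤ eLpNorm T1 (ENNReal.ofReal p) (μT d) + eLpNorm T2 (ENNReal.ofReal p) (μT d) +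
          eLpNorm T3 (ENNReal.ofReal p) (μT d) + eLpNorm T4 (ENNReal.ofReal p) (μT d) := by
        refine (eLpNorm_add_le ((hT1.add hT2).add hT3) hT4 hp1).trans ?_
        refine add_le_add ?_ le_rfl
        refine (eLpNorm_add_le (hT1.add hT2) hT3 hp1).trans ?_
        refine add_le_add ?_ le_rfl
        exact eLpNorm_add_le hT1 hT2 hp1
    _ ≤ ENNReal.ofReal εL + ENNReal.ofReal B + ENNReal.ofReal (Cn * εL) +
          ENNReal.ofReal (S.card * (K * η)) :=
        add_le_add (add_le_add (add_le_add hn1 hn2) hn3) hn4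
    _ = _ := by
        rw [← ENNReal.ofReal_add (by positivity) (by positivity),
          ← ENNReal.ofReal_add (by positivity) (by positivity),
          ← ENNReal.ofReal_add (by positivity) (by positivity)]

/-- Enumeration of a finite set of points. -/
lemma exists_enum {𝕜 : Type} [RCLike 𝕜] {m : ℕ} (S : Finset (Gr d L)) (hS : S.card ≤ m)
    (pt : Gr d L → Torus d) (ψ : Gr d L → C(Torus d, 𝕜)) :
    ∃ (x : Fin m → Torus d) (ψ' : Fin m → C(Torus d, 𝕜)), ∀ (f : C(Torus d, 𝕜)) (y : Torus d),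
      ∑ i, f (x i) * ψ' i y = ∑ X ∈ S, f (pt X) * ψ X y := by
  classical
  obtain ⟨ι⟩ : Nonempty (S ↪ Fin m) := by
    refine Function.Embedding.nonempty_of_card_le ?_
    simpa using hS
  have hx : ∀ i : Fin m, ∃ x : Torus d, ∀ s : S, ι s = i → pt s = x := by
    intro i
    by_cases h : ∃ s : S, ι s = i
    · obtain ⟨s, hs⟩ := h
      refine ⟨pt s, fun s' hs' => ?_⟩
      have : s' = s := ι.injective (hs'.trans hs.symm)
      rw [this]
    · exact ⟨0, fun s hs => absurd ⟨s, hs⟩ h⟩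
  choose x hx using hx
  refine ⟨x, fun i => ∑ s ∈ (univ : Finset S).filter (fun s => ι s = i), ψ s, fun f y => ?_⟩
  have h1 : ∀ i : Fin m, f (x i) *
      (∑ s ∈ (univ : Finset S).filter (fun s => ι s = i), ψ s : C(Torus d, 𝕜)) y =
      ∑ s ∈ (univ : Finset S).filter (fun s => ι s = i), f (pt s) * ψ s y := by
    intro i
    rw [ContinuousMap.sum_apply, Finset.mul_sum]
    refine Finset.sum_congr rfl fun s hs => ?_
    rw [hx i s (Finset.mem_filter.1 hs).2]
  simp only [h1]
  rw [Finset.sum_fiberwise (univ : Finset S) ι (fun s => f (pt s) * ψ s y)]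
  exact Finset.sum_coe_sort S (fun X => f (pt X) * ψ X y)

end UPTM

open UPTM

theorem specUPT (hUG : SpecUG) (hGRD : SpecGRD) (hAPX : SpecAPX) (hREI : SpecREI) : SpecUPT := by
  intro 𝕜 _ d l p r hd hp hp2 hpr hrl
  have hp0 : 0 < p := by linarith
  have hr0 : 0 < r := lt_trans (by positivity) hpr
  obtain ⟨C1, hC1, hU⟩ := hUG d l p r hd hp hp2 hpr
  obtain ⟨ε, hε, hA⟩ := hAPX d l p r hp hpr hrl
  set B0 : ℝ := (2 * Real.pi) ^ (r * d) with hB0
  have hB0' : 0 < B0 := by positivity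
  refine ⟨C1 + 2 * (B0 * C1 + 2), by positivity, ?_⟩
  intro n m hn hm
  have hn1 : (1 : ℝ) ≤ n := by exact_mod_cast hn
  obtain ⟨Cn, L0, hCn, hU'⟩ := hU n hn
  set R : ℝ := (2 : ℝ) ^ (-(r * n)) with hR
  have hR0 : 0 < R := by positivity
  set N : ℝ := (n : ℝ) ^ (((d : ℝ) - 1) / p) with hN
  have hd1 : (0 : ℝ) ≤ (d : ℝ) - 1 := by
    have : (2 : ℝ) ≤ d := by exact_mod_cast hd
    linarith
  have hN1 : 1 ≤ N := Real.one_le_rpow hn1 (by positivity)
  obtain ⟨L, hLL0, hL⟩ : ∃ L, L0 ≤ L ∧ ε L < R / (1 + Cn) := by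
    have h1 := hε.eventually (gt_mem_nhds (show (0 : ℝ) < R / (1 + Cn) by positivity))
    obtain ⟨L, hL⟩ := (h1.and (Filter.eventually_ge_atTop L0)).exists
    exact ⟨L, hL.2, hL.1⟩
  obtain ⟨A, S, hScard, hCols, hSup, hGrid⟩ := hU' L hLL0
  choose pt hpt using fun X : Gr d L => specPts d L X
  set K : ℝ := B0 + |ε 0| with hK
  have hK0 : 0 < K := by positivity
  set η : ℝ := R / ((S.card + 1) * K) with hη
  have hη0 : 0 < η := by positivity
  choose ψ hψ using fun X : Gr d L => exists_cts (fun z => A z X) η hη0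
  have hreal : ∀ g : C(Torus d, ℝ), g ∈ HClass ℝ d l r (ENNReal.ofReal p) →
      eLpNorm (fun y => g y - ∑ X ∈ S, g (pt X) * ψ X y) (ENNReal.ofReal p) (μT d) ≤
        ENNReal.ofReal ((B0 * C1 + 2) * (R * N)) := by
    intro g hg
    have hclsL := hGRD d l L p r g hp.le hr0 hg
    have hcls0 := hGRD d l 0 p r g hp.le hr0 hg
    rw [← hB0] at hclsL hcls0
    have hgK : ∀ y, |g y| ≤ K := by
      intro y
      have h3 := abs_avc_zero p B0 hp0 l r _ hcls0 (gx 0 y)
      have h4 := hA g hg 0 y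
      have h5 := le_abs_self (ε 0)
      have h6 : |g y| ≤ |avc (g : Torus d → ℝ) 0 (gx 0 y)| +
          |g y - avc (g : Torus d → ℝ) 0 (gx 0 y)| := by
        have := abs_add_le (avc (g : Torus d → ℝ) 0 (gx 0 y))
          (g y - avc (g : Torus d → ℝ) 0 (gx 0 y))
        simpa using this
      linarith
    set F : Gr d L → ℝ := avc (g : Torus d → ℝ) L with hF
    have hF1 := hGrid (B0⁻¹ • F) (cls_scale l r p B0 hp.le hB0' F hclsL)
    have hF2 : nrm p (F - A *ᵥ F) ≤ B0 * (C1 * (R * N)) := by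
      have h1 : F - A *ᵥ F = B0 • (B0⁻¹ • F - A *ᵥ (B0⁻¹ • F)) := by
        rw [Matrix.mulVec_smul, smul_sub, smul_smul, smul_smul, mul_inv_cancel₀ hB0'.ne', one_smul,
          one_smul]
      rw [h1, (specNRM (Gr d L) p hp.le).2.2.2.1, abs_of_pos hB0']
      exact mul_le_mul_of_nonneg_left hF1 hB0'.le
    have h3 := real_case p (B0 * (C1 * (R * N))) Cn η (ε L) K hp.le hp2.le (by positivity) hCn.le
      hK0.le hη0.le A S hCols hSup pt hpt ψ hψ F hF2 g (hA g hg L) hgK
    refine h3.trans (ENNReal.ofReal_le_ofReal ?_)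
    have h4 : ε L + Cn * ε L ≤ R := by
      have : ε L * (1 + Cn) ≤ R := by
        rw [← le_div_iff₀ (by positivity)]
        exact hL.le
      linarith
    have h5 : (S.card : ℝ) * (K * η) ≤ R := by
      rw [hη]
      have h6 : (S.card : ℝ) * (K * (R / ((S.card + 1) * K))) = R * (S.card / (S.card + 1)) := by
        field_simp
      rw [h6]
      refine mul_le_of_le_one_right hR0.le ?_
      rw [div_le_one (by positivity)]
      linarith
    have h6 : R ≤ R * N := le_mul_of_one_le_right hR0.le hN1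
    nlinarith
  have hScard' : S.card ≤ m := by
    have h1 : (S.card : ℝ) ≤ m := by
      refine hScard.trans (le_trans ?_ hm)
      have h2 : 0 ≤ (n : ℝ) ^ (d - 1) * 2 ^ n := by positivity
      have h3 : 0 ≤ 2 * (B0 * C1 + 2) := by positivity
      nlinarith [mul_nonneg h3 h2]
    exact_mod_cast h1
  obtain ⟨x, ψ', hx⟩ := exists_enum (𝕜 := 𝕜) S hScard' pt
    (fun X => ⟨fun y => ((ψ X y : ℝ) : 𝕜), RCLike.continuous_ofReal.comp (ψ X).continuous⟩)
  refine ⟨x, ψ', fun f hf => ?_⟩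
  obtain ⟨u, v, hu, hv, huv⟩ := hREI 𝕜 d l r (ENNReal.ofReal p) f hf
  have h3 := hreal u hu
  have h4 := hreal v hv
  have hpt' : ∀ y, ‖f y - ∑ i, f (x i) * ψ' i y‖ ≤
      ((fun y => ‖u y - ∑ X ∈ S, u (pt X) * ψ X y‖) +
        fun y => ‖v y - ∑ X ∈ S, v (pt X) * ψ X y‖) y := by
    intro y
    rw [hx f y]
    have h5 : f y - ∑ X ∈ S, f (pt X) * ((ψ X y : ℝ) : 𝕜) =
        ((u y - ∑ X ∈ S, u (pt X) * ψ X y : ℝ) : 𝕜) +
          ((v y - ∑ X ∈ S, v (pt X) * ψ X y : ℝ) : 𝕜) * RCLike.I := by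
      simp only [huv, add_mul, Finset.sum_add_distrib]
      push_cast
      rw [sub_mul, Finset.sum_mul]
      have h6 : ∑ X ∈ S, ((v (pt X) : ℝ) : 𝕜) * RCLike.I * ((ψ X y : ℝ) : 𝕜) =
          ∑ X ∈ S, ((v (pt X) : ℝ) : 𝕜) * ((ψ X y : ℝ) : 𝕜) * RCLike.I :=
        Finset.sum_congr rfl fun X _ => by ring
      rw [h6]
      ring
    simp only [ContinuousMap.coe_mk]
    rw [h5]
    refine (norm_add_le _ _).trans ?_
    simp only [Pi.add_apply]
    refine add_le_add (le_of_eq ?_) ?_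
    · rw [RCLike.norm_ofReal, Real.norm_eq_abs]
    · rw [norm_mul, RCLike.norm_ofReal, Real.norm_eq_abs]
      refine mul_le_of_le_one_right (abs_nonneg _) ?_
      by_cases hI : (RCLike.I : 𝕜) = 0
      · rw [hI, norm_zero]; exact zero_le_one
      · rw [RCLike.norm_I_of_ne_zero hI]
  refine (eLpNorm_mono_real hpt').trans ?_
  have hcu : Continuous (fun y => u y - ∑ X ∈ S, u (pt X) * ψ X y) :=
    u.continuous.sub (continuous_finsetSum _ fun i _ => continuous_const.mul (ψ i).continuous)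
  have hcv : Continuous (fun y => v y - ∑ X ∈ S, v (pt X) * ψ X y) :=
    v.continuous.sub (continuous_finsetSum _ fun i _ => continuous_const.mul (ψ i).continuous)
  have hp1 : (1 : ℝ≥0∞) ≤ ENNReal.ofReal p := by
    rw [← ENNReal.ofReal_one]
    exact ENNReal.ofReal_le_ofReal hp.le
  refine (eLpNorm_add_le hcu.norm.aestronglyMeasurable hcv.norm.aestronglyMeasurable
    hp1).trans ?_
  rw [eLpNorm_norm, eLpNorm_norm]
  refine (add_le_add h3 h4).trans ?_
  rw [← ENNReal.ofReal_add (by positivity) (by positivity)]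
  refine ENNReal.ofReal_le_ofReal ?_
  have h5 : 0 ≤ C1 * (R * N) := by positivity
  rw [add_mul]
  linarith

end

end Pool.Agent.MP_bc5265.R2
end

section
/-!
# MP_bc5265_an, region R_2: assembly of all modules
-/
open MeasureTheory
open scoped ENNReal

namespace Pool.Agent.MP_bc5265.R2

theorem main : SpecFIN := by
  have hIND : SpecIND := specIND
  have hMOM : SpecMOM := specMOM hIND
  have hZVA : SpecZVA := specZVA hIND
  have hZVB : SpecZVB := specZVB hMOM hZVA
  have hPCO : SpecPCO := specPCO hIND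
  have hPOC : SpecPOC := specPOC hIND
  have hUNB : SpecUNB := specUNB
  have hGOO : SpecGOO := specGOO hZVB hPCO hPOC hUNB
  have hZEX : SpecZEX := specZEX hMOM
  have hOPB : SpecOPB := specOPB hZEX
  have hMAR : SpecMAR := specMAR
  have hDUA : SpecDUA := specDUA
  have hLOW : SpecLOW := specLOW hOPB hMAR hDUA
  have hNRM : SpecNRM := specNRM
  have hTEN : SpecTEN := specTEN
  have hOPS : SpecOPS := specOPS
  have hCON : SpecCON := specCON hNRM hTEN hOPS
  have hHIG : SpecHIG := specHIG hCON hNRM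
  have hRW : SpecRW := specRW hGOO hLOW hHIG
  have hLAY : SpecLAY := specLAY
  have hWHC : SpecWHC := specWHC hLAY
  have hDEC : SpecDEC := specDEC hTEN hOPS
  have hSER : SpecSER := specSER
  have hDTG : SpecDTG := specDTG hDEC hCON hLAY hSER hNRM
  have hPTI : SpecPTI := specPTI
  have hMTP : SpecMTP := specMTP hTEN hOPS hPTI
  have hFAR : SpecFAR := specFAR hDTG hMTP hLAY hSER hNRM hDEC
  have hREL : SpecREL := specREL
  have hVAN : SpecVAN := specVAN
  have hWNO : SpecWNO := specWNO hREL hVAN hDEC hCON hLAY hSER hNRM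
  have hWCO : SpecWCO := specWCO hTEN hOPS hCON
  have hWSC : SpecWSC := specWSC hMTP hNRM hCON hDEC
  have hI0 : SpecI0 := specI0
  have hSCA : SpecSCA := specSCA
  have hB : SpecB := specB hRW hWHC hDEC hFAR hWNO hWCO hWSC hI0 hSCA hNRM
  have hLAG : SpecLAG := specLAG
  have hJOP : SpecJOP := specJOP hLAG
  have hFDR : SpecFDR := specFDR
  have hJKB : SpecJKB := specJKB hLAG hJOP hFDR
  have hDN1 : SpecDN1 := specDN1
  have hDNB : SpecDNB := specDNB hTEN hDN1
  have hTVS : SpecTVS := specTVS hJKB hDNB hTEN hJOP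
  have hCLA : SpecCLA := specCLA hTVS hTEN hJOP hNRM
  have hSMB : SpecSMB := specSMB hJOP hTEN hLAY hCON
  have hUG : SpecUG := specUG hB hCLA hSMB
  have hGRD : SpecGRD := specGRD hTEN
  have hAPX : SpecAPX := specAPX
  have hREI : SpecREI := specREI
  have hUPT : SpecUPT := specUPT hUG hGRD hAPX hREI
  have hRAT : SpecRAT := specRAT
  have hUP : SpecUP := specUP hUPT hRAT
  have hPHQ : SpecPHQ := specPHQ
  have hDOO : SpecDOO := specDOO
  have hBDG : SpecBDG := specBDG hPHQ hDOO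
  have hSTE : SpecSTE := specSTE hDOO
  have hLP1 : SpecLP1 := specLP1 hBDG hSTE hOPS
  have hLPD : SpecLPD := specLPD hLP1
  have hLPG : SpecLPG := specLPG hLPD hOPS
  have hLPT : SpecLPT := specLPT hLPG
  have hRKB : SpecRKB := specRKB
  have hWTS : SpecWTS := specWTS hRKB
  have hKHI : SpecKHI := specKHI
  have hBRN : SpecBRN := specBRN
  have hLAM : SpecLAM := specLAM
  have hRND : SpecRND := specRND hKHI hBRN hLAM
  have hMEM : SpecMEM := specMEM
  have hLOWL : SpecLOWL := specLOWL hLPT hWTS hRND hMEM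
  have hLOWR : SpecLOWR := specLOWR hLOWL
  have hLSN : SpecLSN := specLSN
  have hFIN : SpecFIN := specFIN hUP hLOWR hLSN
  exact hFIN

/-- The measure on the torus is a probability measure, so the sampling numbers increase with the
exponent of the error norm. -/
theorem samplingNumber_mono {𝕜 : Type} [RCLike 𝕜] {d : ℕ} (m : ℕ) (F : Set C(Torus d, 𝕜))
    {p q : ℝ≥0∞} (hqp : q ≤ p) : samplingNumber m F q ≤ samplingNumber m F p := by
  unfold samplingNumber
  refine iInf_mono fun x => iInf_mono fun ψ => iSup₂_mono fun f _ => ?_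
  have : IsProbabilityMeasure (μT d) := by unfold μT; infer_instance
  refine eLpNorm_le_eLpNorm_of_exponent_le hqp ?_
  exact (f.continuous.sub (continuous_finsetSum _ fun i _ =>
    continuous_const.mul (ψ i).continuous)).aestronglyMeasurable

end Pool.Agent.MP_bc5265.R2
end

section
/-!
# UTQ: the upper bound on the torus, explicit form, error in `L_q`
-/
set_option linter.unusedSectionVars false

open MeasureTheory Finset Matrix
open scoped ENNReal

namespace Pool.Agent.MP_bc5265.RQ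

open Pool.Agent.MP_bc5265.S Pool.Agent.MP_bc5265.R2 Pool.Agent.MP_bc5265

noncomputable section

namespace UTQM

open UPTM

variable {d L : ℕ}

lemma exists_cts (q : ℝ) (F : Gr d L → ℝ) (η : ℝ) (hη : 0 < η) : ∃ ψ : C(Torus d, ℝ),
    eLpNorm (fun x : Torus d => F (gx L x) - ψ x) (ENNReal.ofReal q) (μT d) ≤
      ENNReal.ofReal η := by
  have hm : Measurable (fun x : Torus d => F (gx L x)) := ParsM.measurable_comp_gx F
  have hmem : MemLp (fun x : Torus d => F (gx L x)) (ENNReal.ofReal q) (μT d) := by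
    refine MemLp.of_bound hm.aestronglyMeasurable (∑ k, |F k|) ?_
    filter_upwards with x
    exact Finset.single_le_sum (f := fun k => |F k|) (fun _ _ => abs_nonneg _)
      (Finset.mem_univ _)
  obtain ⟨g, hg, _⟩ := hmem.exists_boundedContinuous_eLpNorm_sub_le ENNReal.ofReal_ne_top
    (ε := ENNReal.ofReal η) (by simpa using hη)
  exact ⟨g.toContinuousMap, hg⟩

/-- The real case. -/
lemma real_case (p B Cn η εL K : ℝ) (hp : 1 ≤ p) (hB : 0 ≤ B) (hCn : 0 ≤ Cn)
    (hK : 0 ≤ K) (hη : 0 ≤ η) (A : MG d L) (S : Finset (Gr d L)) (hS : Cols A S)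
    (hSup : SupB A Cn) (pt : Gr d L → Torus d) (hpt : ∀ X, gx L (pt X) = X)
    (ψ : Gr d L → C(Torus d, ℝ))
    (hψ : ∀ X, eLpNorm (fun y : Torus d => A (gx L y) X - ψ X y) (ENNReal.ofReal p) (μT d) ≤
      ENNReal.ofReal η)
    (F : Gr d L → ℝ) (hF : nrm p (F - A *ᵥ F) ≤ B) (g : C(Torus d, ℝ))
    (hε : ∀ y, |g y - F (gx L y)| ≤ εL) (hgK : ∀ y, |g y| ≤ K) :
    eLpNorm (fun y => g y - ∑ X ∈ S, g (pt X) * ψ X y) (ENNReal.ofReal p) (μT d) ≤
      ENNReal.ofReal (εL + B + Cn * εL + S.card * (K * η)) := by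
  have hεL0 : 0 ≤ εL := (abs_nonneg _).trans (hε 0)
  have hp0 : 0 < p := by linarith
  have hp1 : (1 : ℝ≥0∞) ≤ ENNReal.ofReal p := by
    rw [← ENNReal.ofReal_one]
    exact ENNReal.ofReal_le_ofReal hp
  let w : Gr d L → ℝ := fun X => F X - g (pt X)
  let T1 : Torus d → ℝ := fun y => g y - F (gx L y)
  let T2 : Torus d → ℝ := fun y => (F - A *ᵥ F) (gx L y)
  let T3 : Torus d → ℝ := fun y => (A *ᵥ w) (gx L y)
  let T4 : Torus d → ℝ := ∑ X ∈ S, g (pt X) • fun y => (A (gx L y) X - ψ X y)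
  have hsum : (fun y => g y - ∑ X ∈ S, g (pt X) * ψ X y) = T1 + T2 + T3 + T4 := by
    funext y
    simp only [T1, T2, T3, T4, Pi.add_apply, Finset.sum_apply, Pi.smul_apply, smul_eq_mul,
      Pi.sub_apply, mulVec_cols A S hS, w]
    simp only [mul_sub, Finset.sum_sub_distrib]
    have h1 : ∑ x ∈ S, g (pt x) * A (gx L y) x = ∑ x ∈ S, A (gx L y) x * g (pt x) :=
      Finset.sum_congr rfl fun x _ => mul_comm _ _
    rw [h1]
    ring
  have hT1 : AEStronglyMeasurable T1 (μT d) :=
    (g.continuous.measurable.sub (ParsM.measurable_comp_gx F)).aestronglyMeasurable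
  have hT2 : AEStronglyMeasurable T2 (μT d) := (ParsM.measurable_comp_gx _).aestronglyMeasurable
  have hT3 : AEStronglyMeasurable T3 (μT d) := (ParsM.measurable_comp_gx _).aestronglyMeasurable
  have hTi : ∀ X, AEStronglyMeasurable (fun y : Torus d => (A (gx L y) X - ψ X y)) (μT d) :=
    fun X => ((ParsM.measurable_comp_gx (fun z => A z X)).sub
      (ψ X).continuous.measurable).aestronglyMeasurable
  have hT4 : AEStronglyMeasurable T4 (μT d) :=
    Finset.aestronglyMeasurable_sum _ fun i _ => (hTi i).const_smul _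
  have hn1 : eLpNorm T1 (ENNReal.ofReal p) (μT d) ≤ ENNReal.ofReal εL := by
    refine (eLpNorm_le_of_ae_bound (C := εL) (by filter_upwards with y; exact hε y)).trans ?_
    simp
  have hn2 : eLpNorm T2 (ENNReal.ofReal p) (μT d) ≤ ENNReal.ofReal B :=
    (le_of_eq (eLpNorm_comp_gx _ p hp0)).trans (ENNReal.ofReal_le_ofReal hF)
  have hw : ∀ X, |w X| ≤ εL := by
    intro X
    have := hε (pt X)
    rw [hpt X, abs_sub_comm] at this
    exact this
  have hn3 : eLpNorm T3 (ENNReal.ofReal p) (μT d) ≤ ENNReal.ofReal (Cn * εL) := by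
    refine (eLpNorm_le_of_ae_bound (C := Cn * εL)
      (by filter_upwards with y; exact hSup w εL hw _)).trans ?_
    simp
  have hn4 : eLpNorm T4 (ENNReal.ofReal p) (μT d) ≤ ENNReal.ofReal (S.card * (K * η)) := by
    refine (eLpNorm_sum_le (fun i _ => (hTi i).const_smul _) hp1).trans ?_
    have h3 : ∀ X ∈ S,
        eLpNorm (g (pt X) • fun y : Torus d => (A (gx L y) X - ψ X y)) (ENNReal.ofReal p) (μT d) ≤
          ENNReal.ofReal (K * η) := by
      intro X _
      rw [eLpNorm_const_smul, ENNReal.ofReal_mul (by positivity)]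
      refine mul_le_mul' ?_ (hψ X)
      rw [← ofReal_norm, Real.norm_eq_abs]
      exact ENNReal.ofReal_le_ofReal (hgK _)
    refine (Finset.sum_le_sum h3).trans (le_of_eq ?_)
    rw [Finset.sum_const, nsmul_eq_mul, ENNReal.ofReal_mul (Nat.cast_nonneg _),
      ENNReal.ofReal_natCast]
  rw [hsum]
  calc eLpNorm (T1 + T2 + T3 + T4) (ENNReal.ofReal p) (μT d)
      ≤ eLpNorm T1 (ENNReal.ofReal p) (μT d) + eLpNorm T2 (ENNReal.ofReal p) (μT d) +
          eLpNorm T3 (ENNReal.ofReal p) (μT d) + eLpNorm T4 (ENNReal.ofReal p) (μT d) := by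
        refine (eLpNorm_add_le ((hT1.add hT2).add hT3) hT4 hp1).trans ?_
        refine add_le_add ?_ le_rfl
        refine (eLpNorm_add_le (hT1.add hT2) hT3 hp1).trans ?_
        refine add_le_add ?_ le_rfl
        exact eLpNorm_add_le hT1 hT2 hp1
    _ ≤ ENNReal.ofReal εL + ENNReal.ofReal B + ENNReal.ofReal (Cn * εL) +
          ENNReal.ofReal (S.card * (K * η)) :=
        add_le_add (add_le_add (add_le_add hn1 hn2) hn3) hn4
    _ = _ := by
        rw [← ENNReal.ofReal_add (by positivity) (by positivity),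
          ← ENNReal.ofReal_add (by positivity) (by positivity),
          ← ENNReal.ofReal_add (by positivity) (by positivity)]

end UTQM

open UPTM

theorem specUTQ (hUGQ : SpecUGQ) (hGRD : SpecGRD) (hAPX : SpecAPX) (hREI : SpecREI) : SpecUTQ := by
  intro 𝕜 _ d l q p r hd hq hqp hpr hrq hrl
  have hq0 : 0 < q := by linarith
  have hq1 : 1 < q := by linarith
  have hp : 1 < p := by linarith
  have hp0 : 0 < p := by linarith
  have hr0 : 0 < r := lt_trans (by positivity) hpr
  obtain ⟨C1, hC1, hU⟩ := hUGQ d l q p r hd hq hqp hpr hrq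
  obtain ⟨ε, hε, hA⟩ := hAPX d l p r hp hpr hrl
  set B0 : ℝ := (2 * Real.pi) ^ (r * d) with hB0
  have hB0' : 0 < B0 := by positivity
  refine ⟨C1 + 2 * (B0 * C1 + 2), by positivity, ?_⟩
  intro n m hn hm
  have hn1 : (1 : ℝ) ≤ n := by exact_mod_cast hn
  obtain ⟨Cn, L0, hCn, hU'⟩ := hU n hn
  set R : ℝ := (2 : ℝ) ^ (-(r * n)) with hR
  have hR0 : 0 < R := by positivity
  set N : ℝ := (n : ℝ) ^ (((d : ℝ) - 1) * (1 - min r (1 / q))) with hN
  have hd1 : (0 : ℝ) ≤ (d : ℝ) - 1 := by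
    have : (2 : ℝ) ≤ d := by exact_mod_cast hd
    linarith
  have hmin : min r (1 / q) ≤ 1 := (min_le_right _ _).trans (by
    rw [div_le_one hq0]
    linarith)
  have hN1 : 1 ≤ N := Real.one_le_rpow hn1 (mul_nonneg hd1 (by linarith))
  obtain ⟨L, hLL0, hL⟩ : ∃ L, L0 ≤ L ∧ ε L < R / (1 + Cn) := by
    have h1 := hε.eventually (gt_mem_nhds (show (0 : ℝ) < R / (1 + Cn) by positivity))
    obtain ⟨L, hL⟩ := (h1.and (Filter.eventually_ge_atTop L0)).exists
    exact ⟨L, hL.2, hL.1⟩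
  obtain ⟨A, S, hScard, hCols, hSup, hGrid⟩ := hU' L hLL0
  choose pt hpt using fun X : Gr d L => specPts d L X
  set K : ℝ := B0 + |ε 0| with hK
  have hK0 : 0 < K := by positivity
  set η : ℝ := R / ((S.card + 1) * K) with hη
  have hη0 : 0 < η := by positivity
  choose ψ hψ using fun X : Gr d L => UTQM.exists_cts q (fun z => A z X) η hη0
  have hreal : ∀ g : C(Torus d, ℝ), g ∈ HClass ℝ d l r (ENNReal.ofReal p) →
      eLpNorm (fun y => g y - ∑ X ∈ S, g (pt X) * ψ X y) (ENNReal.ofReal q) (μT d) ≤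
        ENNReal.ofReal ((B0 * C1 + 2) * (R * N)) := by
    intro g hg
    have hclsL := hGRD d l L p r g hp.le hr0 hg
    have hcls0 := hGRD d l 0 p r g hp.le hr0 hg
    rw [← hB0] at hclsL hcls0
    have hgK : ∀ y, |g y| ≤ K := by
      intro y
      have h3 := abs_avc_zero p B0 hp0 l r _ hcls0 (gx 0 y)
      have h4 := hA g hg 0 y
      have h5 := le_abs_self (ε 0)
      have h6 : |g y| ≤ |avc (g : Torus d → ℝ) 0 (gx 0 y)| +
          |g y - avc (g : Torus d → ℝ) 0 (gx 0 y)| := by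
        have := abs_add_le (avc (g : Torus d → ℝ) 0 (gx 0 y))
          (g y - avc (g : Torus d → ℝ) 0 (gx 0 y))
        simpa using this
      linarith
    set F : Gr d L → ℝ := avc (g : Torus d → ℝ) L with hF
    have hF1 := hGrid (B0⁻¹ • F) (cls_scale l r p B0 hp.le hB0' F hclsL)
    have hF2 : nrm q (F - A *ᵥ F) ≤ B0 * (C1 * (R * N)) := by
      have h1 : F - A *ᵥ F = B0 • (B0⁻¹ • F - A *ᵥ (B0⁻¹ • F)) := by
        rw [Matrix.mulVec_smul, smul_sub, smul_smul, smul_smul, mul_inv_cancel₀ hB0'.ne', one_smul,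
          one_smul]
      rw [h1, (specNRM (Gr d L) q hq1.le).2.2.2.1, abs_of_pos hB0']
      exact mul_le_mul_of_nonneg_left hF1 hB0'.le
    have h3 := UTQM.real_case q (B0 * (C1 * (R * N))) Cn η (ε L) K hq1.le (by positivity) hCn.le
      hK0.le hη0.le A S hCols hSup pt hpt ψ hψ F hF2 g (hA g hg L) hgK
    refine h3.trans (ENNReal.ofReal_le_ofReal ?_)
    have h4 : ε L + Cn * ε L ≤ R := by
      have : ε L * (1 + Cn) ≤ R := by
        rw [← le_div_iff₀ (by positivity)]
        exact hL.le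
      linarith
    have h5 : (S.card : ℝ) * (K * η) ≤ R := by
      rw [hη]
      have h6 : (S.card : ℝ) * (K * (R / ((S.card + 1) * K))) = R * (S.card / (S.card + 1)) := by
        field_simp
      rw [h6]
      refine mul_le_of_le_one_right hR0.le ?_
      rw [div_le_one (by positivity)]
      linarith
    have h6 : R ≤ R * N := le_mul_of_one_le_right hR0.le hN1
    nlinarith
  have hScard' : S.card ≤ m := by
    have h1 : (S.card : ℝ) ≤ m := by
      refine hScard.trans (le_trans ?_ hm)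
      have h2 : 0 ≤ (n : ℝ) ^ (d - 1) * 2 ^ n := by positivity
      have h3 : 0 ≤ 2 * (B0 * C1 + 2) := by positivity
      nlinarith [mul_nonneg h3 h2]
    exact_mod_cast h1
  obtain ⟨x, ψ', hx⟩ := exists_enum (𝕜 := 𝕜) S hScard' pt
    (fun X => ⟨fun y => ((ψ X y : ℝ) : 𝕜), RCLike.continuous_ofReal.comp (ψ X).continuous⟩)
  refine ⟨x, ψ', fun f hf => ?_⟩
  obtain ⟨u, v, hu, hv, huv⟩ := hREI 𝕜 d l r (ENNReal.ofReal p) f hf
  have h3 := hreal u hu
  have h4 := hreal v hv
  have hpt' : ∀ y, ‖f y - ∑ i, f (x i) * ψ' i y‖ ≤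
      ((fun y => ‖u y - ∑ X ∈ S, u (pt X) * ψ X y‖) +
        fun y => ‖v y - ∑ X ∈ S, v (pt X) * ψ X y‖) y := by
    intro y
    rw [hx f y]
    have h5 : f y - ∑ X ∈ S, f (pt X) * ((ψ X y : ℝ) : 𝕜) =
        ((u y - ∑ X ∈ S, u (pt X) * ψ X y : ℝ) : 𝕜) +
          ((v y - ∑ X ∈ S, v (pt X) * ψ X y : ℝ) : 𝕜) * RCLike.I := by
      simp only [huv, add_mul, Finset.sum_add_distrib]
      push_cast
      rw [sub_mul, Finset.sum_mul]
      have h6 : ∑ X ∈ S, ((v (pt X) : ℝ) : 𝕜) * RCLike.I * ((ψ X y : ℝ) : 𝕜) =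
          ∑ X ∈ S, ((v (pt X) : ℝ) : 𝕜) * ((ψ X y : ℝ) : 𝕜) * RCLike.I :=
        Finset.sum_congr rfl fun X _ => by ring
      rw [h6]
      ring
    simp only [ContinuousMap.coe_mk]
    rw [h5]
    refine (norm_add_le _ _).trans ?_
    simp only [Pi.add_apply]
    refine add_le_add (le_of_eq ?_) ?_
    · rw [RCLike.norm_ofReal, Real.norm_eq_abs]
    · rw [norm_mul, RCLike.norm_ofReal, Real.norm_eq_abs]
      refine mul_le_of_le_one_right (abs_nonneg _) ?_
      by_cases hI : (RCLike.I : 𝕜) = 0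
      · rw [hI, norm_zero]; exact zero_le_one
      · rw [RCLike.norm_I_of_ne_zero hI]
  refine (eLpNorm_mono_real hpt').trans ?_
  have hcu : Continuous (fun y => u y - ∑ X ∈ S, u (pt X) * ψ X y) :=
    u.continuous.sub (continuous_finsetSum _ fun i _ => continuous_const.mul (ψ i).continuous)
  have hcv : Continuous (fun y => v y - ∑ X ∈ S, v (pt X) * ψ X y) :=
    v.continuous.sub (continuous_finsetSum _ fun i _ => continuous_const.mul (ψ i).continuous)
  have hq1' : (1 : ℝ≥0∞) ≤ ENNReal.ofReal q := by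
    rw [← ENNReal.ofReal_one]
    exact ENNReal.ofReal_le_ofReal hq1.le
  refine (eLpNorm_add_le hcu.norm.aestronglyMeasurable hcv.norm.aestronglyMeasurable
    hq1').trans ?_
  rw [eLpNorm_norm, eLpNorm_norm]
  refine (add_le_add h3 h4).trans ?_
  rw [← ENNReal.ofReal_add (by positivity) (by positivity)]
  refine ENNReal.ofReal_le_ofReal ?_
  have h5 : 0 ≤ C1 * (R * N) := by positivity
  rw [add_mul]
  linarith

end

end Pool.Agent.MP_bc5265.RQ
end

section
/-!
# MP_bc5265_an, small smoothness: the upper bound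
-/
namespace Pool.Agent.MP_bc5265.S

theorem core : SpecCore :=
  specCore specCnt (specHol specHaar) (specSel specBSS specLS specHaar specCnt)
    (specLayer specHaar specCnt (specHol specHaar)) specBl specNum

theorem up : SpecUp :=
  specUp core specMarch specReIm specBlk (specApp specHaar specBlk) (specPars specHaar)
    specPts specCts

end Pool.Agent.MP_bc5265.S
end
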