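import Mathlib
import Pool.Agent.Lib.MP_bc5265_an.S.Defs
import Pool.Agent.Lib.MP_bc5265_an.Main
import Pool.Agent.Lib.MP_bc5265_an.S.Main
import Pool.Agent.Lib.MP_bc5265_an.RQ.BQ
import Pool.Agent.Lib.MP_bc5265_an.RQ.WS2
import Pool.Agent.Lib.MP_bc5265_an.RQ.WN2
import Pool.Agent.Lib.MP_bc5265_an.RQ.NO2
import Pool.Agent.Lib.MP_bc5265_an.RQ.RWQ

section
/-!
# LOW: the lower bound by numerical integration
-/
set_option linter.unusedSectionVars false

open MeasureTheory Finset
open scoped ENNReal fwdDiff ContDiff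

namespace Pool.Agent.MP_bc5265.S

noncomputable section

namespace LowM

/-! ### The bump -/

/-- The nonnegative bump. -/
def bp (y : ℝ) : ℝ := bmp y

lemma bp_nonneg (y : ℝ) : 0 ≤ bp y := bmp.nonneg

lemma bp_le_one (y : ℝ) : bp y ≤ 1 := bmp.le_one

lemma bp_ne_zero {y : ℝ} (h : bp y ≠ 0) : 1 / 8 < y ∧ y < 3 / 8 := bmp_ne_zero h

lemma contDiff_bp : ContDiff ℝ ∞ bp := bmp.contDiff

lemma continuous_bp : Continuous bp := contDiff_bp.continuous

lemma hasCompactSupport_bp : HasCompactSupport bp := bmp.hasCompactSupport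

lemma exists_bound_bp (l : ℕ) : ∃ M : ℝ, 0 ≤ M ∧
    ∀ t y, |((fwdDiff t)^[l] bp) y| ≤ M * |t| ^ l := by
  have h1 : Continuous (iteratedDeriv l bp) :=
    contDiff_bp.continuous_iteratedDeriv l (by exact_mod_cast le_top)
  have h2 : HasCompactSupport (iteratedDeriv l bp) := by
    clear h1
    induction l with
    | zero => simpa using hasCompactSupport_bp
    | succ l ih =>
      rw [iteratedDeriv_succ]
      exact ih.deriv
  obtain ⟨M, hM⟩ := h2.exists_bound_of_continuous h1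
  refine ⟨M, (norm_nonneg _).trans (hM 0), ?_⟩
  exact abs_fwdDiff_iter_le l bp contDiff_bp M (fun y => by simpa using hM y)

/-! ### The circle -/

lemma continuous_Q_aux (a κ : ℕ) : Continuous fun x : Circ => bp ((2 : ℝ) ^ a * uc x - κ) := by
  have h1 : Continuous ((fun z : ℝ => bp ((2 : ℝ) ^ a * z - κ)) ∘ Int.fract) := by
    apply ContinuousOn.comp_fract''
    · exact (continuous_bp.comp ((continuous_const.mul continuous_id).sub
        continuous_const)).continuousOn
    · have hint : ∀ z : ℤ, bp (z : ℝ) = 0 := by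
        intro z
        by_contra h
        obtain ⟨h1, h2⟩ := bp_ne_zero h
        have h3 : (0 : ℝ) < z := by linarith
        have h4 : (z : ℝ) < 1 := by linarith
        have h5 : (0 : ℤ) < z := by exact_mod_cast h3
        have h6 : z < (1 : ℤ) := by exact_mod_cast h4
        omega
      have e1 : (2 : ℝ) ^ a * 0 - κ = ((-(κ : ℤ) : ℤ) : ℝ) := by push_cast; ring
      have e2 : (2 : ℝ) ^ a * 1 - κ = (((2 : ℤ) ^ a - (κ : ℤ) : ℤ) : ℝ) := by push_cast; ring
      rw [e1, e2, hint, hint]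
  have h2 : Continuous (fun y : ℝ => bp ((2 : ℝ) ^ a * Int.fract (y / (2 * Real.pi)) - κ)) :=
    h1.comp (continuous_id.div_const _)
  exact (QuotientAddGroup.isQuotientMap_mk (AddSubgroup.zmultiples (2 * Real.pi))).continuous_iff.2 h2

/-- Smooth nonnegative bump on the dyadic interval. -/
def Q (a κ : ℕ) : C(Circ, ℝ) := ⟨fun x => bp ((2 : ℝ) ^ a * uc x - κ), continuous_Q_aux a κ⟩

lemma Q_apply (a κ : ℕ) (x : Circ) : Q a κ x = bp ((2 : ℝ) ^ a * uc x - κ) := rfl

lemma Q_nonneg (a κ : ℕ) (x : Circ) : 0 ≤ Q a κ x := bp_nonneg _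

lemma abs_Q_le_one (a κ : ℕ) (x : Circ) : |Q a κ x| ≤ 1 := by
  rw [abs_of_nonneg (Q_nonneg _ _ _)]
  exact bp_le_one _

lemma E_of_Q_ne {a κ : ℕ} {x : Circ} (h : Q a κ x ≠ 0) : E a x = κ := by
  rw [E_eq_iff]
  rw [Q_apply] at h
  obtain ⟨h1, h2⟩ := bp_ne_zero h
  constructor <;> linarith

lemma abs_Q_le (a κ : ℕ) (x : Circ) : |Q a κ x| ≤ chi a κ x := by
  by_cases h : Q a κ x = 0
  · rw [h, abs_zero]; exact chi_nonneg _ _ _
  · rw [chi, if_pos (E_of_Q_ne h)]
    exact abs_Q_le_one _ _ _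

lemma integral_Q (a κ : ℕ) (hκ : κ < 2 ^ a) : ∫ x, Q a κ x ∂ν = c0 / 2 ^ a := by
  simp only [Q_apply]
  rw [integral_box bp _ a κ hκ]
  · unfold c0 bp
    ring
  · intro w hw
    obtain ⟨h1, h2⟩ := bp_ne_zero hw
    constructor <;> linarith

lemma three_terms' (a κ : ℕ) (hκ : κ < 2 ^ a) (z0 : ℤ) (w : ℝ)
    (h1 : z0 - 1 ≤ ⌊w / (2 * Real.pi)⌋) (h2 : ⌊w / (2 * Real.pi)⌋ ≤ z0 + 1) :
    Q a κ (w : Circ) = ∑ z ∈ Finset.Icc (z0 - 1) (z0 + 1),
      bp ((2 : ℝ) ^ a / (2 * Real.pi) * w - (2 ^ a * z + κ)) := by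
  rw [Finset.sum_eq_single ⌊w / (2 * Real.pi)⌋]
  · rw [Q_apply, uc_coe]
    congr 1
    have h3 : Int.fract (w / (2 * Real.pi)) = w / (2 * Real.pi) - ⌊w / (2 * Real.pi)⌋ := rfl
    rw [h3]
    ring
  · intro z _ hz
    by_contra h
    obtain ⟨h3, h4⟩ := bp_ne_zero h
    have h5 : (2 : ℝ) ^ a / (2 * Real.pi) * w - (2 ^ a * z + κ) =
        2 ^ a * (w / (2 * Real.pi) - z) - κ := by ring
    rw [h5] at h3 h4
    have h6 := Int.floor_le (w / (2 * Real.pi))
    have h7 := Int.lt_floor_add_one (w / (2 * Real.pi))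
    have hpos : (0 : ℝ) < 2 ^ a := by positivity
    have hκ' : (κ : ℝ) + 1 ≤ 2 ^ a := by exact_mod_cast hκ
    rcases lt_or_gt_of_ne hz with hlt | hgt
    · have h8 : (z : ℝ) + 1 ≤ ⌊w / (2 * Real.pi)⌋ := by exact_mod_cast hlt
      have h9 : 1 ≤ w / (2 * Real.pi) - z := by linarith
      have h10 : (2 : ℝ) ^ a * 1 ≤ 2 ^ a * (w / (2 * Real.pi) - z) :=
        mul_le_mul_of_nonneg_left h9 hpos.le
      linarith
    · have h8 : (⌊w / (2 * Real.pi)⌋ : ℝ) + 1 ≤ z := by exact_mod_cast hgt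
      have h9 : w / (2 * Real.pi) - z < 0 := by linarith
      have h10 : (2 : ℝ) ^ a * (w / (2 * Real.pi) - z) < 0 := mul_neg_of_pos_of_neg hpos h9
      have : (0 : ℝ) ≤ κ := by positivity
      linarith
  · intro h
    exact absurd (Finset.mem_Icc.2 ⟨h1, h2⟩) h

/-- The difference bound. -/
lemma exists_diff_bound' (l : ℕ) : ∃ C : ℝ, 1 ≤ C ∧ ∀ (a κ : ℕ), κ < 2 ^ a → ∀ (t : ℝ) (x : Circ),
    |((fwdDiff (t : Circ))^[l] (Q a κ)) x| ≤ C * (min 1 (2 ^ a * |t|)) ^ l *
      ∑ i ∈ Finset.range (l + 1), chi a κ (x + ((i * t : ℝ) : Circ)) := by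
  obtain ⟨M, hM0, hM⟩ := exists_bound_bp l
  have hT : (1 : ℝ) ≤ 2 * Real.pi := by linarith [Real.pi_gt_three]
  have hTpos : (0 : ℝ) < 2 * Real.pi := by linarith
  set C : ℝ := 3 * M + (2 * l) ^ l + 2 ^ l with hC
  have hpl : (1 : ℝ) ≤ 2 ^ l := one_le_pow₀ (by norm_num)
  have hll : (0 : ℝ) ≤ (2 * l) ^ l := by positivity
  refine ⟨C, by rw [hC]; nlinarith, ?_⟩
  intro a κ hκ t x
  have hsum0 : 0 ≤ ∑ i ∈ Finset.range (l + 1), chi a κ (x + ((i * t : ℝ) : Circ)) :=
    Finset.sum_nonneg fun i _ => chi_nonneg _ _ _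
  have hformula : ((fwdDiff (t : Circ))^[l] (Q a κ)) x =
      ∑ k ∈ Finset.range (l + 1), ((-1 : ℤ) ^ (l - k) * l.choose k) •
        Q a κ (x + ((k * t : ℝ) : Circ)) := by
    rw [fwdDiff_iter_eq_sum_shift]
    refine Finset.sum_congr rfl fun k _ => ?_
    congr 3
    rw [← AddCircle.coe_nsmul]
    congr 1
    simp
  by_cases hzero : ∀ i ∈ Finset.range (l + 1), E a (x + ((i * t : ℝ) : Circ)) ≠ κ
  · have h1 : ((fwdDiff (t : Circ))^[l] (Q a κ)) x = 0 := by
      rw [hformula]
      refine Finset.sum_eq_zero fun k hk => ?_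
      have h2 : Q a κ (x + ((k * t : ℝ) : Circ)) = 0 := by
        by_contra h2
        exact hzero k hk (E_of_Q_ne h2)
      rw [h2, smul_zero]
    rw [h1, abs_zero]
    have : 0 ≤ min 1 (2 ^ a * |t|) := le_min zero_le_one (by positivity)
    positivity
  · push Not at hzero
    obtain ⟨i, hi, hEi⟩ := hzero
    have hsum1 : 1 ≤ ∑ i ∈ Finset.range (l + 1), chi a κ (x + ((i * t : ℝ) : Circ)) := by
      have h1 : chi a κ (x + ((i * t : ℝ) : Circ)) = 1 := by rw [chi, if_pos hEi]
      rw [← h1]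
      exact Finset.single_le_sum (f := fun i : ℕ => chi a κ (x + ((i * t : ℝ) : Circ)))
        (fun j _ => chi_nonneg _ _ _) hi
    have hmain : |((fwdDiff (t : Circ))^[l] (Q a κ)) x| ≤ C * (min 1 (2 ^ a * |t|)) ^ l := by
      have htriv : |((fwdDiff (t : Circ))^[l] (Q a κ)) x| ≤ 2 ^ l := by
        have := abs_fwd_le l (Q a κ) 1 (abs_Q_le_one a κ) (t : Circ) x
        simpa using this
      rcases le_total 1 (2 ^ a * |t|) with hbig | hsmall
      · rw [min_eq_left hbig, one_pow, mul_one]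
        refine htriv.trans ?_
        rw [hC]
        nlinarith
      · rw [min_eq_right hsmall]
        induction x using QuotientAddGroup.induction_on with
        | H y =>
        have hcoe : ((fwdDiff (t : Circ))^[l] (Q a κ)) ((y : ℝ) : Circ) =
            ((fwdDiff t)^[l] (fun w : ℝ => Q a κ (w : Circ))) y := fwd_coe l _ t y
        rcases le_or_gt ((l : ℝ) * |t|) (2 * Real.pi) with hle | hgt
        · have hkey : ((fwdDiff t)^[l] (fun w : ℝ => Q a κ (w : Circ))) y =
              ∑ z ∈ Finset.Icc (⌊y / (2 * Real.pi)⌋ - 1) (⌊y / (2 * Real.pi)⌋ + 1),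
                ((fwdDiff t)^[l] (fun w : ℝ =>
                  bp ((2 : ℝ) ^ a / (2 * Real.pi) * w - (2 ^ a * z + κ)))) y := by
            rw [fwdDiff_iter_eq_sum_shift]
            simp only [fwdDiff_iter_eq_sum_shift]
            rw [Finset.sum_comm]
            refine Finset.sum_congr rfl fun k hk => ?_
            rw [← Finset.smul_sum]
            congr 1
            apply three_terms' a κ hκ
            · have hk' : (k : ℝ) ≤ l := by
                have := Finset.mem_range.1 hk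
                exact_mod_cast Nat.lt_succ_iff.1 this
              have h3 : -(2 * Real.pi) ≤ k * t := by
                have h4 : |(k : ℝ) * t| ≤ 2 * Real.pi := by
                  rw [abs_mul, Nat.abs_cast]
                  exact (mul_le_mul_of_nonneg_right hk' (abs_nonneg t)).trans hle
                exact (abs_le.1 h4).1
              rw [Int.le_floor]
              push_cast
              rw [nsmul_eq_mul, le_div_iff₀ hTpos]
              have h5 := Int.floor_le (y / (2 * Real.pi))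
              rw [le_div_iff₀ hTpos] at h5
              nlinarith
            · have hk' : (k : ℝ) ≤ l := by
                have := Finset.mem_range.1 hk
                exact_mod_cast Nat.lt_succ_iff.1 this
              have h3 : k * t ≤ (2 * Real.pi) := by
                have h4 : |(k : ℝ) * t| ≤ 2 * Real.pi := by
                  rw [abs_mul, Nat.abs_cast]
                  exact (mul_le_mul_of_nonneg_right hk' (abs_nonneg t)).trans hle
                exact (abs_le.1 h4).2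
              have h6 : ⌊(y + k • t) / (2 * Real.pi)⌋ < ⌊y / (2 * Real.pi)⌋ + 1 + 1 := by
                rw [Int.floor_lt]
                push_cast
                rw [nsmul_eq_mul, div_lt_iff₀ hTpos]
                have h5 := Int.lt_floor_add_one (y / (2 * Real.pi))
                rw [div_lt_iff₀ hTpos] at h5
                nlinarith
              omega
          show |((fwdDiff (t : Circ))^[l] (Q a κ)) ((y : ℝ) : Circ)| ≤ _
          rw [hcoe, hkey]
          have h7 : ∀ z ∈ Finset.Icc (⌊y / (2 * Real.pi)⌋ - 1) (⌊y / (2 * Real.pi)⌋ + 1),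
              |((fwdDiff t)^[l] (fun w : ℝ =>
                  bp ((2 : ℝ) ^ a / (2 * Real.pi) * w - (2 ^ a * z + κ)))) y| ≤
                M * (2 ^ a * |t|) ^ l := by
            intro z _
            rw [fwd_scale]
            refine (hM _ _).trans ?_
            refine mul_le_mul_of_nonneg_left ?_ hM0
            refine pow_le_pow_left₀ (abs_nonneg _) ?_ l
            rw [abs_mul, abs_of_nonneg (by positivity : (0 : ℝ) ≤ 2 ^ a / (2 * Real.pi))]
            refine mul_le_mul_of_nonneg_right ?_ (abs_nonneg t)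
            exact div_le_self (by positivity) hT
          refine (Finset.abs_sum_le_sum_abs _ _).trans ((Finset.sum_le_sum h7).trans ?_)
          rw [Finset.sum_const, Int.card_Icc, nsmul_eq_mul]
          have h8 : (⌊y / (2 * Real.pi)⌋ + 1 + 1 - (⌊y / (2 * Real.pi)⌋ - 1)).toNat = 3 := by
            have : ⌊y / (2 * Real.pi)⌋ + 1 + 1 - (⌊y / (2 * Real.pi)⌋ - 1) = 3 := by ring
            rw [this]; rfl
          rw [h8]
          push_cast
          rw [← mul_assoc]
          refine mul_le_mul_of_nonneg_right ?_ (by positivity)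
          rw [hC]
          linarith
        · show |((fwdDiff (t : Circ))^[l] (Q a κ)) ((y : ℝ) : Circ)| ≤ _
          refine htriv.trans ?_
          have h1 : 1 ≤ (l : ℝ) * |t| := by linarith
          have h2 : (1 : ℝ) ≤ ((l : ℝ) * |t|) ^ l := one_le_pow₀ h1
          have h3 : (1 : ℝ) ≤ 2 ^ a := one_le_pow₀ (by norm_num)
          calc (2 : ℝ) ^ l ≤ 2 ^ l * ((l : ℝ) * |t|) ^ l := le_mul_of_one_le_right (by positivity) h2
            _ = (2 * l) ^ l * |t| ^ l := by rw [← mul_pow, ← mul_pow]; ring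
            _ ≤ (2 * l) ^ l * (2 ^ a * |t|) ^ l := by
                refine mul_le_mul_of_nonneg_left ?_ hll
                refine pow_le_pow_left₀ (abs_nonneg _) ?_ l
                exact le_mul_of_one_le_left (abs_nonneg t) h3
            _ ≤ C * (2 ^ a * |t|) ^ l := by
                refine mul_le_mul_of_nonneg_right ?_ (by positivity)
                rw [hC]
                linarith
    calc |((fwdDiff (t : Circ))^[l] (Q a κ)) x| ≤ C * (min 1 (2 ^ a * |t|)) ^ l := hmain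
      _ ≤ _ := by
        refine le_mul_of_one_le_right ?_ hsum1
        have h1 : 0 ≤ min 1 (2 ^ a * |t|) := le_min zero_le_one (by positivity)
        have h2 : 0 ≤ C := by rw [hC]; positivity
        positivity

lemma sum_chi (a : ℕ) (x : Circ) : ∑ κ : Fin (2 ^ a), chi a κ x = 1 := by
  rw [Finset.sum_eq_single_of_mem (⟨E a x, E_lt a x⟩ : Fin (2 ^ a)) (Finset.mem_univ _)]
  · simp [chi]
  · intro κ _ hne
    rw [chi, if_neg]
    intro h
    apply hne
    apply Fin.ext
    exact h.symm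

/-- One-dimensional sums of differences. -/
lemma sum_fwd_le (l : ℕ) (C : ℝ) (hC : ∀ (a κ : ℕ), κ < 2 ^ a → ∀ (t : ℝ) (x : Circ),
    |((fwdDiff (t : Circ))^[l] (Q a κ)) x| ≤ C * (min 1 (2 ^ a * |t|)) ^ l *
      ∑ i ∈ Finset.range (l + 1), chi a κ (x + ((i * t : ℝ) : Circ))) (a : ℕ) (t : ℝ) (x : Circ) :
    ∑ κ : Fin (2 ^ a), |((fwdDiff (t : Circ))^[l] (Q a κ)) x| ≤
      C * (l + 1) * (min 1 (2 ^ a * |t|)) ^ l := by
  refine (Finset.sum_le_sum fun (κ : Fin (2 ^ a)) _ => hC a κ κ.2 t x).trans (le_of_eq ?_)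
  rw [← Finset.mul_sum, Finset.sum_comm]
  simp only [sum_chi]
  rw [Finset.sum_const, Finset.card_range, nsmul_eq_mul]
  push_cast
  ring

lemma sum_Q_le (a : ℕ) (x : Circ) : ∑ κ : Fin (2 ^ a), |Q a κ x| ≤ 1 := by
  rw [← sum_chi a x]
  exact Finset.sum_le_sum fun κ _ => abs_Q_le _ _ _

/-! ### The torus -/

variable {d : ℕ}

/-- Tensor product of bumps. -/
def PQ (s k : Fin d → ℕ) : C(Torus d, ℝ) :=
  ⟨fun x => ∏ j, Q (s j) (k j) (x j), by fun_prop⟩

lemma PQ_apply (s k : Fin d → ℕ) (x : Torus d) : PQ s k x = ∏ j, Q (s j) (k j) (x j) := rfl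

lemma PQ_nonneg (s k : Fin d → ℕ) (x : Torus d) : 0 ≤ PQ s k x := by
  rw [PQ_apply]
  exact Finset.prod_nonneg fun _ _ => Q_nonneg _ _ _

lemma integral_PQ (s k : Fin d → ℕ) (hk : ∀ j, k j < 2 ^ s j) :
    ∫ x, PQ s k x ∂(μT d) = c0 ^ d / 2 ^ (∑ j, s j) := by
  simp only [PQ_apply]
  unfold μT
  rw [integral_fintype_prod_eq_prod (fun j (y : Circ) => Q (s j) (k j) y)]
  simp only [fun j => integral_Q (s j) (k j) (hk j)]
  rw [Finset.prod_div_distrib, Finset.prod_const, Finset.prod_pow_eq_pow_sum]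
  simp

lemma PQ_eq_zero (s : Fin d → ℕ) (k : ∀ j, Fin (2 ^ s j)) (x : Torus d) (h : kap s x ≠ k) :
    PQ s (fun j => (k j : ℕ)) x = 0 := by
  rw [PQ_apply]
  have : ∃ j, kap s x j ≠ k j := by
    by_contra hcon
    push Not at hcon
    exact h (funext hcon)
  obtain ⟨j, hj⟩ := this
  refine Finset.prod_eq_zero (Finset.mem_univ j) ?_
  by_contra h2
  apply hj
  apply Fin.ext
  exact E_of_Q_ne h2

lemma block_le (l : ℕ) (C : ℝ) (hC : ∀ (a κ : ℕ), κ < 2 ^ a → ∀ (t : ℝ) (x : Circ),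
    |((fwdDiff (t : Circ))^[l] (Q a κ)) x| ≤ C * (min 1 (2 ^ a * |t|)) ^ l *
      ∑ i ∈ Finset.range (l + 1), chi a κ (x + ((i * t : ℝ) : Circ)))
    (e : Finset (Fin d)) (t : Fin d → ℝ) (s : Fin d → ℕ) (a : (∀ j, Fin (2 ^ s j)) → ℝ)
    (ha : ∀ k, |a k| ≤ 1) (x : Torus d) :
    |mixedDiff l e t
      (∑ k : ∀ j, Fin (2 ^ s j), a k • (PQ s (fun j => (k j : ℕ)) : Torus d → ℝ)) x| ≤
      ∏ j, (if j ∈ e then C * (l + 1) * (min 1 (2 ^ s j * |t j|)) ^ l else 1) := by
  classical
  rw [mixedDiff_sum, Finset.sum_apply]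
  let F : ∀ j, Fin (2 ^ s j) → ℝ := fun j κ =>
    |(if j ∈ e then (fwdDiff ((t j : ℝ) : Circ))^[l] (Q (s j) κ) else (Q (s j) κ : Circ → ℝ)) (x j)|
  have h1 : ∀ k : ∀ j, Fin (2 ^ s j),
      |(a k • mixedDiff l e t (PQ s (fun j => (k j : ℕ)) : Torus d → ℝ)) x| ≤ ∏ j, F j (k j) := by
    intro k
    have h2 : (PQ s (fun j => (k j : ℕ)) : Torus d → ℝ) =
        fun x => ∏ i, (Q (s i) (k i) : Circ → ℝ) (x i) := rfl
    rw [h2, mixedDiff_prod l e t (fun i => (Q (s i) (k i) : Circ → ℝ)), Pi.smul_apply,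
      smul_eq_mul, abs_mul, Finset.abs_prod]
    exact mul_le_of_le_one_left (Finset.prod_nonneg fun _ _ => abs_nonneg _) (ha k)
  refine (Finset.abs_sum_le_sum_abs _ _).trans ((Finset.sum_le_sum fun k _ => h1 k).trans ?_)
  have h3 : ∑ k : ∀ j, Fin (2 ^ s j), ∏ j, F j (k j) = ∏ j, ∑ κ, F j κ := by
    rw [Finset.prod_univ_sum]
    rw [Fintype.piFinset_univ]
  rw [h3]
  refine Finset.prod_le_prod (fun j _ => Finset.sum_nonneg fun _ _ => abs_nonneg _) fun j _ => ?_
  by_cases hj : j ∈ e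
  · simp only [F, hj, if_true]
    exact sum_fwd_le l C hC (s j) (t j) (x j)
  · simp only [F, hj, if_false]
    exact sum_Q_le (s j) (x j)

/-- The test function. -/
def ft {B : Type*} [Fintype B] (lv : B → Fin d → ℕ) (a : (Σ b, ∀ j, Fin (2 ^ lv b j)) → ℝ) :
    Torus d → ℝ :=
  ∑ b, ∑ k : ∀ j, Fin (2 ^ lv b j), a ⟨b, k⟩ • (PQ (lv b) (fun j => (k j : ℕ)) : Torus d → ℝ)

lemma total (l : ℕ) (r : ℝ) (hr : 0 < r) (hl : r < l) (d : ℕ) :
    ∃ c1 : ℝ, 0 < c1 ∧ ∀ {B : Type} [Fintype B] (lv : B → Fin d → ℕ) (n : ℕ),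
      Function.Injective lv → (∀ b, ∑ j, lv b j = n) →
      ∀ (a : (Σ b, ∀ j, Fin (2 ^ lv b j)) → ℝ), (∀ i, |a i| ≤ 1) →
      ∀ (e : Finset (Fin d)) (t : Fin d → ℝ) (x : Torus d),
        |mixedDiff l e t ((c1 * (2 ^ n) ^ (-r)) • ft lv a) x| ≤ ∏ j ∈ e, |t j| ^ r := by
  obtain ⟨C, hC1, hC⟩ := exists_diff_bound' l
  obtain ⟨D0, hD00, hD0⟩ := sum_geom r hr
  obtain ⟨D1, hD10, hD1⟩ := sum_step r l hr hl
  set D : ℝ := D0 + C * (l + 1) * D1 with hD
  have hC0 : 0 < C := by linarith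
  have hDpos : 0 < D := by positivity
  refine ⟨1 / D ^ d, by positivity, ?_⟩
  intro B _ lv n hinj hsum a ha e t x
  have hm0 : ∀ q j, 0 ≤ min 1 ((2 : ℝ) ^ q * |t j|) := fun q j => le_min zero_le_one (by positivity)
  unfold ft
  rw [mixedDiff_add_sum, Pi.smul_apply, Finset.sum_apply, smul_eq_mul, abs_mul,
    abs_of_nonneg (by positivity)]
  let H : (Fin d → ℕ) → ℝ := fun s =>
    ∏ j, (if j ∈ e then C * (l + 1) * (min 1 (2 ^ s j * |t j|)) ^ l else 1)
  let F : (Fin d → ℕ) → ℝ := fun s =>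
    ∏ j, (((2 : ℝ) ^ s j) ^ (-r) *
      (if j ∈ e then C * (l + 1) * (min 1 (2 ^ s j * |t j|)) ^ l else 1))
  have hF0 : ∀ s, 0 ≤ F s := by
    intro s
    refine Finset.prod_nonneg fun j _ => ?_
    have := hm0 (s j) j
    split_ifs <;> positivity
  have hFH : ∀ b, (2 ^ n) ^ (-r) * H (lv b) = F (lv b) := by
    intro b
    have e2 : ((2 : ℝ) ^ n) ^ (-r) = ∏ j, ((2 : ℝ) ^ lv b j) ^ (-r) := by
      rw [← hsum b, ← Finset.prod_pow_eq_pow_sum, ← Real.finsetProd_rpow]
      intro i _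
      positivity
    simp only [F, H]
    rw [Finset.prod_mul_distrib, e2]
  have h1 : |∑ b, mixedDiff l e t
      (∑ k : ∀ j, Fin (2 ^ lv b j), a ⟨b, k⟩ • (PQ (lv b) (fun j => (k j : ℕ)) : Torus d → ℝ)) x| ≤
      ∑ b, H (lv b) :=
    (Finset.abs_sum_le_sum_abs _ _).trans
      (Finset.sum_le_sum fun b _ => block_le l C hC e t (lv b) (fun k => a ⟨b, k⟩)
        (fun k => ha _) x)
  have hFsum : ∑ b, F (lv b) ≤ D ^ d * ∏ j ∈ e, |t j| ^ r := by
    classical
    have e1 : ∑ b, F (lv b) = ∑ s ∈ Finset.univ.image lv, F s := by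
      rw [Finset.sum_image]
      intro x _ y _ h
      exact hinj h
    rw [e1]
    have e2 : Finset.univ.image lv ⊆ Fintype.piFinset (fun _ : Fin d => range (n + 1)) := by
      intro s hs
      rw [Finset.mem_image] at hs
      obtain ⟨b, -, rfl⟩ := hs
      rw [Fintype.mem_piFinset]
      intro j
      rw [Finset.mem_range, ← hsum b]
      have := Finset.single_le_sum (f := fun j => lv b j) (fun _ _ => Nat.zero_le _)
        (Finset.mem_univ j)
      exact Nat.lt_succ_of_le this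
    refine (Finset.sum_le_sum_of_subset_of_nonneg e2 fun s _ _ => hF0 s).trans ?_
    have e3 := (Finset.prod_univ_sum (fun _ : Fin d => range (n + 1))
      (fun j (q : ℕ) => ((2 : ℝ) ^ q) ^ (-r) *
        (if j ∈ e then C * (l + 1) * (min 1 (2 ^ q * |t j|)) ^ l else 1))).symm
    refine (le_of_eq e3).trans ?_
    have e4 : D ^ d * ∏ j ∈ e, |t j| ^ r = ∏ j, (D * if j ∈ e then |t j| ^ r else 1) := by
      rw [Finset.prod_mul_distrib, Finset.prod_const, Finset.card_univ, Fintype.card_fin,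
        Finset.prod_ite_mem, Finset.univ_inter]
    rw [e4]
    refine Finset.prod_le_prod (fun j _ => ?_) fun j _ => ?_
    · refine Finset.sum_nonneg fun q _ => ?_
      have := hm0 q j
      split_ifs <;> positivity
    · by_cases hj : j ∈ e
      · simp only [hj, if_true]
        have e5 : ∀ q ∈ range (n + 1), ((2 : ℝ) ^ q) ^ (-r) *
            (C * (l + 1) * (min 1 (2 ^ q * |t j|)) ^ l) =
            C * (l + 1) * (((2 : ℝ) ^ q) ^ (-r) * (min 1 (2 ^ q * |t j|)) ^ l) := by
          intro q _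
          ring
        rw [Finset.sum_congr rfl e5, ← Finset.mul_sum]
        refine (mul_le_mul_of_nonneg_left (hD1 (n + 1) (t j)) (by positivity)).trans ?_
        rw [← mul_assoc]
        refine mul_le_mul_of_nonneg_right ?_ (by positivity)
        rw [hD]
        linarith
      · simp only [hj, if_false, mul_one]
        refine (hD0 (n + 1)).trans ?_
        rw [hD]
        have : 0 ≤ C * (l + 1) * D1 := by positivity
        linarith
  refine (mul_le_mul_of_nonneg_left h1 (by positivity)).trans ?_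
  calc 1 / D ^ d * (2 ^ n) ^ (-r) * ∑ b, H (lv b)
      = 1 / D ^ d * ∑ b, F (lv b) := by
        rw [mul_assoc, Finset.mul_sum]
        congr 1
        exact Finset.sum_congr rfl fun b _ => hFH b
    _ ≤ 1 / D ^ d * (D ^ d * ∏ j ∈ e, |t j| ^ r) :=
        mul_le_mul_of_nonneg_left hFsum (by positivity)
    _ = ∏ j ∈ e, |t j| ^ r := by
        rw [← mul_assoc, one_div_mul_cancel (by positivity), one_mul]

/-! ### The levels -/

/-- The levels: `e` entries at most `n / e`, the first one makes the sum equal to `n`. -/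
def lev' (e n : ℕ) (b : Fin e → Fin (n / e + 1)) : Fin (e + 1) → ℕ :=
  Fin.cons (n - ∑ j, (b j : ℕ)) (fun j => (b j : ℕ))

lemma lev'_sum (e n : ℕ) (b : Fin e → Fin (n / e + 1)) : ∑ j, lev' e n b j = n := by
  rw [Fin.sum_univ_succ]
  simp only [lev', Fin.cons_zero, Fin.cons_succ]
  have h : ∑ j, (b j : ℕ) ≤ n := by
    calc ∑ j, (b j : ℕ) ≤ ∑ _j : Fin e, (n / e) :=
          Finset.sum_le_sum fun j _ => Nat.lt_succ_iff.1 (b j).2
      _ = e * (n / e) := by simp
      _ ≤ n := Nat.mul_div_le n e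
  omega

lemma lev'_injective (e n : ℕ) : Function.Injective (lev' e n) := by
  intro b b' h
  funext j
  have := congrFun h j.succ
  simp only [lev', Fin.cons_succ] at this
  exact Fin.ext this

lemma card_lev' (e n : ℕ) : ((n : ℝ) / (e + 1)) ^ e ≤ Fintype.card (Fin e → Fin (n / e + 1)) := by
  rw [Fintype.card_fun, Fintype.card_fin, Fintype.card_fin]
  push_cast
  rcases Nat.eq_zero_or_pos e with he | he
  · subst he
    simp
  · refine pow_le_pow_left₀ (by positivity) ?_ e
    have h1 : n < e * (n / e + 1) := Nat.lt_mul_div_succ n he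
    have h2 : (n : ℝ) ≤ e * ((n / e : ℕ) + 1) := by exact_mod_cast h1.le
    rw [div_le_iff₀ (by positivity)]
    have h3 : (0 : ℝ) ≤ ((n / e : ℕ) : ℝ) := by positivity
    have he' : (0 : ℝ) < e := by exact_mod_cast he
    have h4 : ((n / e : ℕ) : ℝ) + 1 = ((n / e : ℕ) : ℝ) + 1 := rfl
    nlinarith

lemma continuous_ft {B : Type*} [Fintype B] (lv : B → Fin d → ℕ)
    (a : (Σ b, ∀ j, Fin (2 ^ lv b j)) → ℝ) : Continuous (ft lv a) := by
  have h : ft lv a = fun x => ∑ b, ∑ k : ∀ j, Fin (2 ^ lv b j),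
      a ⟨b, k⟩ * PQ (lv b) (fun j => (k j : ℕ)) x := by
    funext x
    simp [ft]
  rw [h]
  exact continuous_finsetSum _ fun b _ => continuous_finsetSum _ fun k _ =>
    continuous_const.mul (PQ _ _).continuous

lemma mixedDiff_empty' (l : ℕ) (t : Fin d → ℝ) (f : Torus d → ℝ) :
    mixedDiff l ∅ t f = f := by
  unfold mixedDiff
  simp

end LowM

open LowM

theorem specLow : SpecLow := by
  intro 𝕜 _ d l r hd hr hl
  classical
  obtain ⟨e, rfl⟩ : ∃ e, d = e + 1 := ⟨d - 1, by omega⟩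
  obtain ⟨c1, hc1, htot⟩ := total l r hr hl (e + 1)
  have hc0 := c0_pos
  refine ⟨c1 * c0 ^ (e + 1) / 2 * (4 : ℝ) ^ (-r) * (1 / ((e : ℝ) + 1)) ^ e, by positivity, ?_⟩
  intro m hm x
  set n := Nat.clog 2 (2 * m) with hn
  have hn1 : 2 * m ≤ 2 ^ n := Nat.le_pow_clog (by norm_num) _
  have hn2 : 2 ^ n ≤ 4 * m := by
    have h1 : 2 ^ (n - 1) < 2 * m := by
      have h2 := Nat.pow_pred_clog_lt_self (b := 2) (by norm_num) (x := 2 * m) (by omega)
      exact h2
    have h3 : 1 ≤ n := by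
      by_contra hcon
      have : n = 0 := by omega
      rw [this] at hn1
      omega
    have h4 : 2 ^ n = 2 * 2 ^ (n - 1) := by
      rw [← pow_succ', Nat.sub_add_cancel h3]
    omega
  have hm0 : (0 : ℝ) < m := by
    have : 0 < m := by omega
    exact_mod_cast this
  have hlog : Real.log m ≤ n := by
    have h1 : (m : ℝ) ≤ 2 ^ n := by
      have : m ≤ 2 ^ n := by omega
      exact_mod_cast this
    have h2 : Real.log m ≤ Real.log (2 ^ n) := Real.log_le_log hm0 h1
    rw [Real.log_pow] at h2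
    have h3 : Real.log 2 ≤ 1 := by linarith [Real.log_two_lt_d9]
    have h4 : (n : ℝ) * Real.log 2 ≤ n * 1 := mul_le_mul_of_nonneg_left h3 (by positivity)
    linarith
  let lv := lev' e n
  let a : (Σ b, ∀ j, Fin (2 ^ lv b j)) → ℝ := fun i =>
    if ∀ u, kap (lv i.1) (x u) ≠ i.2 then 1 else 0
  have ha : ∀ i, |a i| ≤ 1 := by
    intro i
    simp only [a]
    split_ifs <;> simp
  have hb := htot lv n (lev'_injective e n) (lev'_sum e n) a ha
  set c' : ℝ := c1 * (2 ^ n) ^ (-r) with hc'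
  have hc'0 : 0 ≤ c' := by positivity
  let f : C(Torus (e + 1), 𝕜) :=
    ⟨fun y => (((c' • ft lv a) y : ℝ) : 𝕜), RCLike.continuous_ofReal.comp
      ((continuous_ft lv a).const_smul c')⟩
  have hfun : (f : Torus (e + 1) → 𝕜) = fun y => (((c' • ft lv a) y : ℝ) : 𝕜) := rfl
  have hnorm : ∀ (g : Torus (e + 1) → ℝ) (u : ℝ≥0∞),
      eLpNorm (fun x => ((g x : ℝ) : 𝕜)) u (μT (e + 1)) = eLpNorm g u (μT (e + 1)) := by
    intro g u
    refine eLpNorm_congr_norm_ae ?_
    filter_upwards with x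
    simp
  have htop : ∀ (g : Torus (e + 1) → ℝ) (M : ℝ), (∀ y, |g y| ≤ M) →
      eLpNorm g ⊤ (μT (e + 1)) ≤ ENNReal.ofReal M := by
    intro g M hM
    refine (eLpNorm_le_of_ae_bound (C := M) (by filter_upwards with y; exact hM y)).trans ?_
    simp
  refine ⟨f, ⟨?_, ?_⟩, ?_, ?_⟩
  · rw [hfun, hnorm]
    have h1 := hb ∅ 0
    simp only [Finset.prod_empty, mixedDiff_empty'] at h1
    exact (htop _ 1 h1).trans (by simp)
  · intro e' _ t
    rw [hfun, mixedDiff_ofReal, hnorm]
    exact htop _ _ (hb e' t)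
  · intro u
    have h1 : ft lv a (x u) = 0 := by
      unfold ft
      rw [Finset.sum_apply]
      refine Finset.sum_eq_zero fun b _ => ?_
      rw [Finset.sum_apply]
      refine Finset.sum_eq_zero fun k _ => ?_
      rw [Pi.smul_apply, smul_eq_mul]
      simp only [a]
      split_ifs with h
      · rw [PQ_eq_zero (lv b) k (x u) (h u), mul_zero]
      · rw [zero_mul]
    show (((c' • ft lv a) (x u) : ℝ) : 𝕜) = 0
    rw [Pi.smul_apply, h1]
    simp
  · -- the integral
    have hn0 : (0 : ℝ) < 2 ^ n := by positivity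
    have hint : ∫ y, (c' • ft lv a) y ∂(μT (e + 1)) =
        c' * ∑ b, ∑ k, a ⟨b, k⟩ * (c0 ^ (e + 1) / 2 ^ n) := by
      have h1 : ∀ y, (c' • ft lv a) y = c' * ∑ b, ∑ k : ∀ j, Fin (2 ^ lv b j),
          a ⟨b, k⟩ * PQ (lv b) (fun j => (k j : ℕ)) y := by
        intro y
        simp [ft]
      simp only [h1]
      rw [integral_const_mul]
      congr 1
      have hI : ∀ s k : Fin (e + 1) → ℕ, Integrable (fun y => PQ s k y) (μT (e + 1)) := by
        intro s k
        refine Integrable.of_bound (PQ s k).continuous.aestronglyMeasurable 1 ?_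
        filter_upwards with y
        rw [Real.norm_eq_abs, PQ_apply, Finset.abs_prod]
        exact Finset.prod_le_one (fun _ _ => abs_nonneg _) fun _ _ => abs_Q_le_one _ _ _
      rw [integral_finsetSum _ fun b _ => integrable_finsetSum _ fun k _ => (hI _ _).const_mul _]
      refine Finset.sum_congr rfl fun b _ => ?_
      rw [integral_finsetSum _ fun k _ => (hI _ _).const_mul _]
      refine Finset.sum_congr rfl fun k _ => ?_
      rw [integral_const_mul, integral_PQ _ _ (fun j => (k j).2), lev'_sum]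
    have hcount : ∀ b, (2 : ℝ) ^ n / 2 ≤ ∑ k : ∀ j, Fin (2 ^ lv b j), a ⟨b, k⟩ := by
      intro b
      have h1 : ∑ k : ∀ j, Fin (2 ^ lv b j), a ⟨b, k⟩ =
          ((univ.filter fun k : ∀ j, Fin (2 ^ lv b j) => ∀ u, kap (lv b) (x u) ≠ k).card : ℝ) := by
        simp only [a]
        rw [Finset.sum_boole]
      rw [h1]
      have h2 : (univ.filter fun k : ∀ j, Fin (2 ^ lv b j) => ¬ ∀ u, kap (lv b) (x u) ≠ k).card ≤
          m := by
        have h3 : (univ.filter fun k : ∀ j, Fin (2 ^ lv b j) => ¬ ∀ u, kap (lv b) (x u) ≠ k) ⊆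
            univ.image fun u => kap (lv b) (x u) := by
          intro k hk
          have h4 := (Finset.mem_filter.1 hk).2
          push Not at h4
          obtain ⟨u, hu⟩ := h4
          exact Finset.mem_image.2 ⟨u, Finset.mem_univ _, hu⟩
        refine (Finset.card_le_card h3).trans (Finset.card_image_le.trans ?_)
        simp
      have h3 := Finset.card_filter_add_card_filter_not (s := (univ : Finset (∀ j, Fin (2 ^ lv b j))))
        (fun k => ∀ u, kap (lv b) (x u) ≠ k)
      have h4 : (univ : Finset (∀ j, Fin (2 ^ lv b j))).card = 2 ^ n := by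
        rw [Finset.card_univ, Fintype.card_pi]
        simp only [Fintype.card_fin]
        rw [Finset.prod_pow_eq_pow_sum, lev'_sum]
      rw [h4] at h3
      have h5 : 2 ^ n ≤ 2 *
          (univ.filter fun k : ∀ j, Fin (2 ^ lv b j) => ∀ u, kap (lv b) (x u) ≠ k).card := by
        omega
      have h6 : (2 : ℝ) ^ n ≤ 2 *
          ((univ.filter fun k : ∀ j, Fin (2 ^ lv b j) => ∀ u, kap (lv b) (x u) ≠ k).card : ℝ) := by
        exact_mod_cast h5
      linarith
    have hlow : (c1 * c0 ^ (e + 1) / 2 * (4 : ℝ) ^ (-r) * (1 / ((e : ℝ) + 1)) ^ e) *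
        rate (e + 1) r m ≤ ∫ y, (c' • ft lv a) y ∂(μT (e + 1)) := by
      rw [hint]
      have h1 : (Fintype.card (Fin e → Fin (n / e + 1)) : ℝ) * (c0 ^ (e + 1) / 2) ≤
          ∑ b, ∑ k, a ⟨b, k⟩ * (c0 ^ (e + 1) / 2 ^ n) := by
        have h2 : ∀ b ∈ (univ : Finset (Fin e → Fin (n / e + 1))), c0 ^ (e + 1) / 2 ≤
            ∑ k : ∀ j, Fin (2 ^ lv b j), a ⟨b, k⟩ * (c0 ^ (e + 1) / 2 ^ n) := by
          intro b _
          rw [← Finset.sum_mul]
          refine le_trans (le_of_eq ?_) (mul_le_mul_of_nonneg_right (hcount b) (by positivity))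
          field_simp
        refine le_trans (le_of_eq ?_) (Finset.sum_le_sum h2)
        rw [Finset.sum_const, Finset.card_univ, nsmul_eq_mul]
      have h2 : (4 : ℝ) ^ (-r) * (m : ℝ) ^ (-r) ≤ (2 ^ n) ^ (-r) := by
        rw [← Real.mul_rpow (by norm_num) hm0.le]
        refine Real.rpow_le_rpow_of_nonpos hn0 ?_ (by linarith)
        exact_mod_cast hn2
      have h3 : (1 / ((e : ℝ) + 1)) ^ e * Real.log m ^ e ≤
          Fintype.card (Fin e → Fin (n / e + 1)) := by
        refine le_trans ?_ (card_lev' e n)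
        rw [← mul_pow]
        have h4 : 0 ≤ Real.log m := Real.log_natCast_nonneg m
        refine pow_le_pow_left₀ (by positivity) ?_ e
        rw [div_mul_eq_mul_div, one_mul]
        exact div_le_div_of_nonneg_right hlog (by positivity)
      have hlog0 : 0 ≤ Real.log m := Real.log_natCast_nonneg m
      unfold rate
      rw [Nat.add_sub_cancel, hc']
      calc c1 * c0 ^ (e + 1) / 2 * (4 : ℝ) ^ (-r) * (1 / ((e : ℝ) + 1)) ^ e *
            ((m : ℝ) ^ (-r) * Real.log m ^ e)
          = c1 * ((4 : ℝ) ^ (-r) * (m : ℝ) ^ (-r)) *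
              (((1 / ((e : ℝ) + 1)) ^ e * Real.log m ^ e) * (c0 ^ (e + 1) / 2)) := by ring
        _ ≤ c1 * (2 ^ n) ^ (-r) *
              ((Fintype.card (Fin e → Fin (n / e + 1)) : ℝ) * (c0 ^ (e + 1) / 2)) := by
            refine mul_le_mul ?_ ?_ (by positivity) (by positivity)
            · exact mul_le_mul_of_nonneg_left h2 hc1.le
            · exact mul_le_mul_of_nonneg_right h3 (by positivity)
        _ ≤ _ := mul_le_mul_of_nonneg_left h1 (by positivity)
    refine (ENNReal.ofReal_le_ofReal hlow).trans ?_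
    rw [hfun, hnorm, eLpNorm_one_eq_lintegral_enorm]
    have hcont : Continuous (c' • ft lv a) := (continuous_ft lv a).const_smul c'
    refine (ENNReal.ofReal_le_ofReal (le_abs_self _)).trans ?_
    rw [← Real.enorm_eq_ofReal_abs]
    exact enorm_integral_le_lintegral_enorm _

end

end Pool.Agent.MP_bc5265.S
end

section
/-!
# MP_bc5265_an, region `R_1` with `q > 2`: assembly of all modules
-/
open MeasureTheory
open scoped ENNReal

namespace Pool.Agent.MP_bc5265.RQ

open Pool.Agent.MP_bc5265.S Pool.Agent.MP_bc5265.R2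

theorem main : SpecFIQ := by
  have hIND : SpecIND := specIND
  have hMOM : SpecMOM := specMOM hIND
  have hZVA : SpecZVA := specZVA hIND
  have hZVB : SpecZVB := specZVB hMOM hZVA
  have hPCO : SpecPCO := specPCO hIND
  have hPOC : SpecPOC := specPOC hIND
  have hUNB : SpecUNB := specUNB
  have hGOO : SpecGOO := specGOO hZVB hPCO hPOC hUNB
  have hZEX : SpecZEX := specZEX hMOM
  have hOPB : SpecOPB := specOPB hZEX
  have hDUA : SpecDUA := specDUA
  have hNRM : SpecNRM := specNRM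
  have hTEN : SpecTEN := specTEN
  have hOPS : SpecOPS := specOPS
  have hCON : SpecCON := specCON hNRM hTEN hOPS
  have hLAY : SpecLAY := specLAY
  have hWHC : SpecWHC := specWHC hLAY
  have hDEC : SpecDEC := specDEC hTEN hOPS
  have hSER : SpecSER := specSER
  have hDTG : SpecDTG := specDTG hDEC hCON hLAY hSER hNRM
  have hREL : SpecREL := specREL
  have hVAN : SpecVAN := specVAN
  have hWCO : SpecWCO := specWCO hTEN hOPS hCON
  have hLAG : SpecLAG := specLAG
  have hJOP : SpecJOP := specJOP hLAG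
  have hFDR : SpecFDR := specFDR
  have hJKB : SpecJKB := specJKB hLAG hJOP hFDR
  have hDN1 : SpecDN1 := specDN1
  have hDNB : SpecDNB := specDNB hTEN hDN1
  have hTVS : SpecTVS := specTVS hJKB hDNB hTEN hJOP
  have hCLA : SpecCLA := specCLA hTVS hTEN hJOP hNRM
  have hSMB : SpecSMB := specSMB hJOP hTEN hLAY hCON
  have hGRD : SpecGRD := specGRD hTEN
  have hAPX : SpecAPX := specAPX
  have hREI : SpecREI := specREI
  have hRAT : SpecRAT := specRAT
  have hPHQ : SpecPHQ := specPHQ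
  -- the new modules
  have hPHS : SpecPHS := specPHS hPHQ
  have hTY2 : SpecTY2 := specTY2 hPHS hNRM
  have hMT2 : SpecMT2 := specMT2 hTY2 hTEN hOPS
  have hFA2 : SpecFA2 := specFA2 hMT2 hDTG hLAY hSER hNRM hDEC
  have hHI2 : SpecHI2 := specHI2 hCON hNRM
  have hNO2 : SpecNO2 := specNO2 hOPB hDUA
  have hINT : SpecINT := specINT
  have hLO2 : SpecLO2 := specLO2 hNO2 hINT
  have hRWQ : SpecRWQ := specRWQ hGOO hLO2 hHI2
  have hSE2 : SpecSE2 := specSE2 hSER
  have hEXQ : SpecEXQ := specEXQ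
  have hWN2 : SpecWN2 := specWN2 hSE2 hEXQ hREL hVAN hDEC hCON hLAY hNRM
  have hWS2 : SpecWS2 := specWS2 hMT2 hNRM hCON hDEC
  have hSC2 : SpecSC2 := specSC2
  have hBQ : SpecBQ := specBQ hRWQ hWN2 hWS2 hFA2 hSC2 hWHC hDEC hWCO hNRM
  have hUGQ : SpecUGQ := specUGQ hBQ hCLA hSMB
  have hUTQ : SpecUTQ := specUTQ hUGQ hGRD hAPX hREI
  have hUPQ : SpecUPQ := specUPQ hUTQ hRAT
  exact specFIQ hUPQ specLow

end Pool.Agent.MP_bc5265.RQ
end

section
/-!
# MP_bc5265_an, small smoothness: assembly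
-/
namespace Pool.Agent.MP_bc5265.S

theorem main : Statement := final up specLow

end Pool.Agent.MP_bc5265.S
end
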